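import Pool.Agent.BB.Defs

/-!
A pair of lists of the same height is split at the last common split at which the difference of the
abscissae is minimal.
-/

set_option autoImplicit false

open scoped ENNReal
open Filter Topology Pool.Agent.SawTree

namespace Pool.Agent.BB

section Argmin

variable {α : Type} (ht : α → ℕ) (dx : α → ℤ) (w : α → ℝ≥0∞)

theorem am_hL_append (l m : List α) : hL ht (l ++ m) = hL ht l + hL ht m := by
  unfold hL; rw [List.map_append, List.sum_append]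
theorem am_xL_append (l m : List α) : xL dx (l ++ m) = xL dx l + xL dx m := by
  unfold xL; rw [List.map_append, List.sum_append]
theorem am_wL_append (l m : List α) : wL w (l ++ m) = wL w l * wL w m := by
  unfold wL; rw [List.map_append, List.prod_append]
theorem am_hL_reverse (l : List α) : hL ht l.reverse = hL ht l := by
  unfold hL; rw [List.map_reverse, List.sum_reverse]
theorem am_xL_reverse (l : List α) : xL dx l.reverse = xL dx l := by
  unfold xL; rw [List.map_reverse, List.sum_reverse]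
theorem am_wL_reverse (l : List α) : wL w l.reverse = wL w l := by
  unfold wL; rw [List.map_reverse, List.prod_reverse]

theorem am_eq_nil (hht : ∀ a, 1 ≤ ht a) {l : List α} (h : hL ht l = 0) : l = [] := by
  cases l with
  | nil => rfl
  | cons a r =>
    exfalso
    unfold hL at h
    rw [List.map_cons, List.sum_cons] at h
    have := hht a
    omega

/-- reversal turns a strict minimum at the start into a weak minimum at the end -/
theorem mem_Mset_of_mem_Mtset (hht : ∀ a, 1 ≤ ht a) {n : ℕ} {l : List α × List α}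
    (h : l ∈ Mtset ht dx n) : (l.2.reverse, l.1.reverse) ∈ Mset ht dx n := by
  obtain ⟨h1, h2, h3⟩ := h
  refine ⟨by simpa [am_hL_reverse] using h2, by simpa [am_hL_reverse] using h1, ?_⟩
  intro p₁ s₁ p₂ s₂ hp₁ hp₂ hh
  simp only [am_xL_reverse]
  simp only at hp₁ hp₂
  have e1 : l.2 = s₁.reverse ++ p₁.reverse := by
    rw [← List.reverse_append, ← hp₁, List.reverse_reverse]
  have e2 : l.1 = s₂.reverse ++ p₂.reverse := by
    rw [← List.reverse_append, ← hp₂, List.reverse_reverse]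
  have hX1 : xL dx l.2 = xL dx s₁ + xL dx p₁ := by
    rw [e1, am_xL_append, am_xL_reverse, am_xL_reverse]
  have hX2 : xL dx l.1 = xL dx s₂ + xL dx p₂ := by
    rw [e2, am_xL_append, am_xL_reverse, am_xL_reverse]
  have hH1 : hL ht l.2 = hL ht s₁ + hL ht p₁ := by
    rw [e1, am_hL_append, am_hL_reverse, am_hL_reverse]
  have hH2 : hL ht l.1 = hL ht s₂ + hL ht p₂ := by
    rw [e2, am_hL_append, am_hL_reverse, am_hL_reverse]
  have key : 0 ≤ xL dx s₁ - xL dx s₂ := by
    rcases Nat.eq_zero_or_pos (hL ht s₂) with h0 | h0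
    · have h0' : hL ht s₁ = 0 := by omega
      rw [am_eq_nil ht hht h0, am_eq_nil ht hht h0']
      simp
    · have := h3 s₂.reverse p₂.reverse s₁.reverse p₁.reverse e2 e1
        (by rw [am_hL_reverse, am_hL_reverse]; omega) (by rw [am_hL_reverse]; exact h0)
      rw [am_xL_reverse, am_xL_reverse] at this
      linarith
  linarith

theorem Mtset_le (hht : ∀ a, 1 ≤ ht a) (n : ℕ) :
    wsum (Mtset ht dx n) (w2 w) ≤ wsum (Mset ht dx n) (w2 w) := by
  unfold wsum
  have hinj : Function.Injective (fun l : Mtset ht dx n =>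
      (⟨(l.1.2.reverse, l.1.1.reverse), mem_Mset_of_mem_Mtset ht dx hht l.2⟩ : Mset ht dx n)) := by
    rintro ⟨⟨a, b⟩, h⟩ ⟨⟨c, d⟩, h'⟩ he
    simp only [Subtype.mk.injEq, Prod.mk.injEq, List.reverse_inj] at he
    obtain ⟨rfl, rfl⟩ := he
    rfl
  refine le_trans (le_of_eq ?_) (ENNReal.tsum_comp_le_tsum_of_injective hinj
    (fun l : Mset ht dx n => w2 w l.1))
  refine tsum_congr (fun l => ?_)
  unfold w2
  simp only [am_wL_reverse]
  rw [mul_comm]

/-- splitting at the last minimum of the difference -/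
theorem exists_argmin (n : ℕ) (l : List α × List α) (h1 : hL ht l.1 = n) (h2 : hL ht l.2 = n) :
    ∃ (t : Fin (n + 1)) (p s : List α × List α), p ∈ Mset ht dx t ∧ s ∈ Mtset ht dx (n - t) ∧
      p.1 ++ s.1 = l.1 ∧ p.2 ++ s.2 = l.2 := by
  classical
  set F : Finset (List α × List α) :=
    ((l.1.inits.toFinset ×ˢ l.2.inits.toFinset).filter (fun p => hL ht p.1 = hL ht p.2)) with hF
  have hmem : ∀ p : List α × List α, p ∈ F ↔ ((∃ r, p.1 ++ r = l.1) ∧ (∃ r, p.2 ++ r = l.2)) ∧
      hL ht p.1 = hL ht p.2 := by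
    intro p
    rw [hF, Finset.mem_filter, Finset.mem_product, List.mem_toFinset, List.mem_toFinset,
      List.mem_inits, List.mem_inits]
    rfl
  have hne : F.Nonempty := ⟨([], []), (hmem _).2 ⟨⟨⟨l.1, rfl⟩, ⟨l.2, rfl⟩⟩, rfl⟩⟩
  obtain ⟨p, hp, hmin⟩ := F.exists_min_image
    (fun p => toLex (xL dx p.2 - xL dx p.1, -(hL ht p.1 : ℤ))) hne
  have hp' := (hmem p).1 hp
  obtain ⟨⟨⟨s₁, hs₁⟩, ⟨s₂, hs₂⟩⟩, hh⟩ := hp'
  have hle : hL ht p.1 ≤ n := by rw [← h1, ← hs₁, am_hL_append]; omega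
  have hmin' : ∀ q : List α × List α, q ∈ F → xL dx p.2 - xL dx p.1 < xL dx q.2 - xL dx q.1 ∨
      (xL dx p.2 - xL dx p.1 = xL dx q.2 - xL dx q.1 ∧ hL ht q.1 ≤ hL ht p.1) := by
    intro q hq
    have := hmin q hq
    rw [Prod.Lex.toLex_le_toLex] at this
    simp only at this
    rcases this with h | ⟨h, h'⟩
    · exact Or.inl h
    · exact Or.inr ⟨h, by omega⟩
  refine ⟨⟨hL ht p.1, by omega⟩, p, (s₁, s₂), ⟨rfl, hh.symm, ?_⟩, ⟨?_, ?_, ?_⟩, hs₁, hs₂⟩
  · intro q₁ r₁ q₂ r₂ hq₁ hq₂ hq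
    have hm : (q₁, q₂) ∈ F := (hmem _).2 ⟨⟨⟨r₁ ++ s₁, by
        show q₁ ++ (r₁ ++ s₁) = l.1
        rw [← List.append_assoc, ← hq₁, hs₁]⟩, ⟨r₂ ++ s₂, by
        show q₂ ++ (r₂ ++ s₂) = l.2
        rw [← List.append_assoc, ← hq₂, hs₂]⟩⟩, hq⟩
    rcases hmin' _ hm with h | ⟨h, _⟩
    · exact h.le
    · exact h.le
  · simp only
    rw [← h1, ← hs₁, am_hL_append]; omega
  · simp only
    have : hL ht l.2 = hL ht p.2 + hL ht s₂ := by rw [← hs₂, am_hL_append]
    omega
  · intro q₁ r₁ q₂ r₂ hq₁ hq₂ hq hpos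
    simp only at hq₁ hq₂
    have hm : (p.1 ++ q₁, p.2 ++ q₂) ∈ F := (hmem _).2 ⟨⟨⟨r₁, by
        show p.1 ++ q₁ ++ r₁ = l.1
        rw [List.append_assoc, ← hq₁, hs₁]⟩, ⟨r₂, by
        show p.2 ++ q₂ ++ r₂ = l.2
        rw [List.append_assoc, ← hq₂, hs₂]⟩⟩, by
        show hL ht (p.1 ++ q₁) = hL ht (p.2 ++ q₂)
        rw [am_hL_append, am_hL_append, hh, hq]⟩
    rcases hmin' _ hm with h | ⟨_, h⟩
    · simp only [am_xL_append] at h
      linarith
    · simp only [am_hL_append] at h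
      omega

theorem argmin_split (n : ℕ) :
    Bw ht w n ^ 2 ≤ ∑ t ∈ Finset.range (n + 1),
      wsum (Mset ht dx t) (w2 w) * wsum (Mtset ht dx (n - t)) (w2 w) := by
  classical
  rw [Finset.sum_range]
  have e1 : Bw ht w n ^ 2 = ∑' l : ({l : List α | hL ht l = n} : Set (List α)) ×
      ({l : List α | hL ht l = n} : Set (List α)), wL w l.1.1 * wL w l.2.1 := by
    rw [ENNReal.tsum_prod', sq]
    unfold Bw wsum
    rw [← ENNReal.tsum_mul_right]
    refine tsum_congr (fun a => ?_)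
    rw [← ENNReal.tsum_mul_left]
  choose t p s hp hs e₁ e₂ using fun l : ({l : List α | hL ht l = n} : Set (List α)) ×
      ({l : List α | hL ht l = n} : Set (List α)) =>
    exists_argmin ht dx n (l.1.1, l.2.1) l.1.2 l.2.2
  set g : ({l : List α | hL ht l = n} : Set (List α)) × ({l : List α | hL ht l = n} : Set (List α)) →
      (Σ t : Fin (n + 1), (Mset ht dx t) × (Mtset ht dx (n - t))) :=
    fun l => ⟨t l, ⟨p l, hp l⟩, ⟨s l, hs l⟩⟩ with hg
  have hinj : Function.Injective g := by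
    intro l l' hll
    have hrec : ∀ l, ((g l).2.1.1.1 ++ (g l).2.2.1.1 = l.1.1) ∧ ((g l).2.1.1.2 ++ (g l).2.2.1.2 = l.2.1) :=
      fun l => ⟨e₁ l, e₂ l⟩
    have h1 := hrec l
    have h2 := hrec l'
    rw [hll] at h1
    refine Prod.ext (Subtype.ext (h1.1.symm.trans h2.1)) (Subtype.ext (h1.2.symm.trans h2.2))
  rw [e1]
  refine le_trans (le_of_eq ?_) (le_trans (ENNReal.tsum_comp_le_tsum_of_injective hinj
    (fun x => w2 w x.2.1.1 * w2 w x.2.2.1)) (le_of_eq ?_))
  · refine tsum_congr (fun l => ?_)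
    have h1 := e₁ l
    have h2 := e₂ l
    simp only at h1 h2
    rw [← h1, ← h2, am_wL_append, am_wL_append]
    unfold w2
    ring
  · rw [ENNReal.tsum_sigma', tsum_fintype]
    refine Finset.sum_congr rfl (fun t _ => ?_)
    rw [ENNReal.tsum_prod']
    unfold wsum
    rw [← ENNReal.tsum_mul_right]
    refine tsum_congr (fun a => ?_)
    rw [← ENNReal.tsum_mul_left]

theorem sum_sq_le (hht : ∀ a, 1 ≤ ht a) (L : ℕ) :
    ∑ n ∈ Finset.range (L + 1), Bw ht w n ^ 2 ≤ Mw ht dx w L ^ 2 := by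
  have h1 : ∀ n ∈ Finset.range (L + 1), Bw ht w n ^ 2 ≤
      ∑ p ∈ Finset.HasAntidiagonal.antidiagonal n, wsum (Mset ht dx p.1) (w2 w) * wsum (Mset ht dx p.2) (w2 w) := by
    intro n _
    rw [Finset.Nat.sum_antidiagonal_eq_sum_range_succ_mk]
    refine (argmin_split ht dx w n).trans (Finset.sum_le_sum (fun t _ => ?_))
    exact mul_le_mul' le_rfl (Mtset_le ht dx w hht _)
  refine (Finset.sum_le_sum h1).trans ?_
  unfold Mw
  rw [sq, Finset.sum_mul_sum, ← Finset.sum_product', Finset.sum_sigma']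
  refine le_trans (le_of_eq ?_) (Finset.sum_le_sum_of_subset
    (s := (((Finset.range (L + 1)).sigma fun n => Finset.HasAntidiagonal.antidiagonal n).image (fun x => x.2))) ?_)
  · rw [Finset.sum_image]
    rintro ⟨n, p⟩ hp ⟨n', p'⟩ hp' h
    simp only [Finset.coe_sigma, Set.mem_sigma_iff, Finset.mem_coe,
      Finset.HasAntidiagonal.mem_antidiagonal] at hp hp' h
    subst h
    obtain ⟨_, h1⟩ := hp
    obtain ⟨_, h2⟩ := hp'
    have : n = n' := by rw [← h1, ← h2]
    subst this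
    rfl
  · intro p hp
    rw [Finset.mem_image] at hp
    obtain ⟨⟨n, q⟩, hq, rfl⟩ := hp
    rw [Finset.mem_sigma, Finset.mem_range, Finset.HasAntidiagonal.mem_antidiagonal] at hq
    rw [Finset.mem_product, Finset.mem_range, Finset.mem_range]
    simp only at hq ⊢
    omega

end Argmin

end Pool.Agent.BB
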