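import Pool.Agent.BB.Wsum

set_option autoImplicit false

open scoped ENNReal
open Filter Topology Pool.Agent.SawTree

namespace Pool.Agent.BB

theorem X_atom_pos (a : Atom) : 0 < X a.1 :=
  a.2.1.2.2 [] a.1 (by simp) a.2.2.1

theorem one_le_aht (a : Atom) : 1 ≤ aht a := by
  have := X_atom_pos a
  unfold aht
  omega

theorem aht_cast (a : Atom) : (aht a : ℤ) = X a.1 := by
  have := X_atom_pos a
  unfold aht
  omega

theorem flat_nil : flat [] = [] := rfl

theorem flat_cons (a : Atom) (l : List Atom) : flat (a :: l) = a.1 ++ flat l := by
  simp [flat]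

theorem flat_append (l m : List Atom) : flat (l ++ m) = flat l ++ flat m := by
  simp [flat]

theorem flat_br (l : List Atom) : Br (flat l) := by
  induction l with
  | nil => exact br_nil
  | cons a l ih =>
    rw [flat_cons]
    exact a.2.1.append ih

theorem X_flat (l : List Atom) : X (flat l) = (hL aht l : ℤ) := by
  induction l with
  | nil => simp [flat_nil, hL]
  | cons a l ih =>
    rw [flat_cons, X_append, ih]
    simp only [hL, List.map_cons, List.sum_cons]
    push_cast
    rw [aht_cast]

theorem Y_flat (l : List Atom) : Y (flat l) = xL adx l := by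
  induction l with
  | nil => simp [flat_nil, xL]
  | cons a l ih =>
    rw [flat_cons, Y_append, ih]
    simp [xL, adx]

theorem wL_flat (z : ℝ≥0∞) (l : List Atom) : wL (aw z) l = z ^ (flat l).length := by
  induction l with
  | nil => simp [flat_nil, wL]
  | cons a l ih =>
    rw [flat_cons, List.length_append, pow_add, ← ih]
    simp [wL, aw]

theorem flat_injective : Function.Injective flat := by
  intro l
  induction l with
  | nil =>
    intro m h
    cases m with
    | nil => rfl
    | cons b m =>
      exfalso
      rw [flat_nil, flat_cons] at h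
      have := List.append_eq_nil_iff.mp h.symm
      exact b.2.2.1 this.1
  | cons a l ih =>
    intro m h
    cases m with
    | nil =>
      exfalso
      rw [flat_nil, flat_cons] at h
      have := List.append_eq_nil_iff.mp h
      exact a.2.2.1 this.1
    | cons b m =>
      rw [flat_cons, flat_cons] at h
      obtain ⟨h1, h2⟩ := irr_unique a.2 (flat_br l) b.2 (flat_br m) h
      rw [ih h2, Subtype.ext h1]

theorem exists_flat_aux : ∀ (n : ℕ) {u : Wd}, u.length ≤ n → Br u → ∃ l : List Atom, flat l = u := by
  intro n
  induction n with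
  | zero =>
    intro u hu _
    have : u = [] := List.length_eq_zero_iff.mp (by omega)
    exact ⟨[], by rw [this]; rfl⟩
  | succ n ih =>
    intro u hu hb
    by_cases h0 : u = []
    · exact ⟨[], by rw [h0]; rfl⟩
    · obtain ⟨a, b, h1, h2, h3⟩ := exists_first hb h0
      have hl : b.length ≤ n := by
        have ha : 0 < a.length := List.length_pos_iff.mpr h2.2.1
        rw [h1, List.length_append] at hu
        omega
      obtain ⟨l, hl'⟩ := ih hl h3
      refine ⟨⟨a, h2⟩ :: l, ?_⟩
      rw [flat_cons, hl', h1]

theorem exists_flat {u : Wd} (hu : Br u) : ∃ l : List Atom, flat l = u :=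
  exists_flat_aux u.length le_rfl hu

theorem sum_aw_le_one {z : ℝ≥0∞} (hz0 : 0 < z) (hz : z ≤ crit) : ∑' a : Atom, aw z a ≤ 1 :=
  irr_le_one hz0 hz

end Pool.Agent.BB
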