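import Pool.Agent.BB.Defs

set_option autoImplicit false

open scoped ENNReal
open Filter Topology Pool.Agent.SawTree

namespace Pool.Agent.BB

theorem finite_saw (n : ℕ) : {u : Wd | Saw u ∧ u.length = n}.Finite :=
  (List.finite_length_eq (Fin 4) n).subset (fun _ hu => hu.2)

theorem Wt_saw_len (z : ℝ≥0∞) (n : ℕ) :
    Wt z {u : Wd | Saw u ∧ u.length = n} = (cw n : ℝ≥0∞) * z ^ n := by
  have : Fintype {u : Wd | Saw u ∧ u.length = n} := (finite_saw n).fintype
  unfold Wt cw
  have h1 : ∀ u : {u : Wd | Saw u ∧ u.length = n}, z ^ (u : Wd).length = z ^ n := by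
    intro u
    rw [u.2.2]
  simp_rw [h1]
  rw [tsum_fintype, Finset.sum_const, nsmul_eq_mul, Finset.card_univ, ← Nat.card_eq_fintype_card,
    Nat.card_coe_set_eq]

/-- the walk of a word -/
def wlk (u : Wd) (i : ℕ) : ℤ × ℤ := (X (u.take i), Y (u.take i))

lemma wlk_succ (u : Wd) (i : ℕ) (hi : i < u.length) :
    wlk u (i + 1) = ((wlk u i).1 + vx u[i], (wlk u i).2 + vy u[i]) := by
  unfold wlk
  rw [List.take_succ_eq_append_getElem hi, X_append, Y_append]
  apply Prod.ext
  · show X _ + X [u[i]] = X _ + _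
    rw [X_cons, X_nil, add_zero]
  · show Y _ + Y [u[i]] = Y _ + _
    rw [Y_cons, Y_nil, add_zero]

lemma step_one (a : Fin 4) : |vx a| + |vy a| = 1 := by
  fin_cases a <;> simp [vx, vy]

lemma step_inj (a b : Fin 4) (h1 : vx a = vx b) (h2 : vy a = vy b) : a = b := by
  fin_cases a <;> fin_cases b <;> simp_all [vx, vy]

/-- direction of a step -/
def dirOf (p : ℤ × ℤ) : Fin 4 :=
  if p.1 = 1 then 0 else if p.1 = -1 then 1 else if p.2 = 1 then 2 else 3

lemma vx_dirOf (p : ℤ × ℤ) (h : |p.1| + |p.2| = 1) : vx (dirOf p) = p.1 := by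
  obtain ⟨x, y⟩ := p
  have h' : |x| + |y| = 1 := h
  unfold dirOf
  by_cases h1 : x = 1
  · simp [h1, vx]
  by_cases h2 : x = -1
  · simp [h2, vx]
  have hx : x = 0 := by
    rcases abs_cases x with ⟨e, _⟩ | ⟨e, _⟩ <;> rcases abs_cases y with ⟨e', _⟩ | ⟨e', _⟩ <;> omega
  simp only [hx]
  by_cases h3 : y = 1
  · simp [h3, vx]
  · simp [h3, vx]

lemma vy_dirOf (p : ℤ × ℤ) (h : |p.1| + |p.2| = 1) : vy (dirOf p) = p.2 := by
  obtain ⟨x, y⟩ := p
  have h' : |x| + |y| = 1 := h
  unfold dirOf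
  by_cases h1 : x = 1
  · have hy : y = 0 := by
      rcases abs_cases x with ⟨e, _⟩ | ⟨e, _⟩ <;> rcases abs_cases y with ⟨e', _⟩ | ⟨e', _⟩ <;> omega
    simp [h1, hy, vy]
  by_cases h2 : x = -1
  · have hy : y = 0 := by
      rcases abs_cases x with ⟨e, _⟩ | ⟨e, _⟩ <;> rcases abs_cases y with ⟨e', _⟩ | ⟨e', _⟩ <;> omega
    simp [h2, hy, vy]
  have hx : x = 0 := by
    rcases abs_cases x with ⟨e, _⟩ | ⟨e, _⟩ <;> rcases abs_cases y with ⟨e', _⟩ | ⟨e', _⟩ <;> omega
  by_cases h3 : y = 1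
  · simp [hx, h3, vy]
  · have hy : y = -1 := by
      rcases abs_cases x with ⟨e, _⟩ | ⟨e, _⟩ <;> rcases abs_cases y with ⟨e', _⟩ | ⟨e', _⟩ <;> omega
    simp [hx, hy, vy]

/-- the walks counted by `sawCount` -/
def IsWalk (n : ℕ) (ω : Fin (n + 1) → ℤ × ℤ) : Prop :=
  ω 0 = 0 ∧ Function.Injective ω ∧
    ∀ i : Fin n, |(ω i.succ).1 - (ω i.castSucc).1| + |(ω i.succ).2 - (ω i.castSucc).2| = 1

lemma wlk_inj {u : Wd} (hu : Saw u) {i j : ℕ} (hij : i < j) (hj : j ≤ u.length) :
    wlk u i ≠ wlk u j := by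
  intro h
  have e1 : u.take j = u.take i ++ (u.take j).drop i := by
    have := List.take_append_drop i (u.take j)
    rw [List.take_take, min_eq_left hij.le] at this
    exact this.symm
  have e : u = u.take i ++ (u.take j).drop i ++ u.drop j := by
    rw [← e1, List.take_append_drop]
  apply hu _ _ _ e
  · intro h0
    have := congrArg List.length h0
    simp at this
    omega
  · unfold wlk at h
    rw [Prod.mk.injEq] at h
    obtain ⟨hx, hy⟩ := h
    rw [e1, X_append] at hx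
    rw [e1, Y_append] at hy
    constructor <;> omega

lemma isWalk_of_saw {n : ℕ} {u : Wd} (hu : Saw u) (hl : u.length = n) :
    IsWalk n (fun i => wlk u i) := by
  refine ⟨?_, ?_, ?_⟩
  · simp [wlk]
  · intro i j h
    by_contra hne
    rcases lt_or_gt_of_ne (fun h => hne (Fin.ext h) : (i : ℕ) ≠ j) with hlt | hgt
    · exact wlk_inj hu hlt (by have := j.2; omega) h
    · exact wlk_inj hu hgt (by have := i.2; omega) h.symm
  · intro i
    have hi : (i : ℕ) < u.length := by rw [hl]; exact i.2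
    have := wlk_succ u i hi
    simp only [Fin.val_succ, Fin.val_castSucc]
    rw [this]
    simp only [add_sub_cancel_left]
    exact step_one _

lemma eq_of_wlk {n : ℕ} {u v : Wd} (hu : u.length = n) (hv : v.length = n)
    (h : ∀ i : ℕ, i ≤ n → wlk u i = wlk v i) : u = v := by
  apply List.ext_getElem (by rw [hu, hv])
  intro i h1 h2
  have a1 := wlk_succ u i h1
  have a2 := wlk_succ v i h2
  rw [h (i + 1) (by omega), h i (by omega)] at a1
  rw [a1, Prod.mk.injEq] at a2
  apply step_inj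
  · linarith [a2.1]
  · linarith [a2.2]

/-- the word of a walk -/
def wordOf {n : ℕ} (ω : Fin (n + 1) → ℤ × ℤ) : Wd :=
  List.ofFn (fun i : Fin n => dirOf (ω i.succ - ω i.castSucc))

lemma wlk_wordOf {n : ℕ} {ω : Fin (n + 1) → ℤ × ℤ} (h : IsWalk n ω) :
    ∀ (i : ℕ) (hi : i < n + 1), wlk (wordOf ω) i = ω ⟨i, hi⟩ := by
  intro i
  induction i with
  | zero =>
    intro hi
    have : ω ⟨0, hi⟩ = 0 := h.1
    rw [this]
    simp [wlk]
  | succ i ih =>
    intro hi
    have hl : i < (wordOf ω).length := by simp [wordOf]; omega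
    rw [wlk_succ _ i hl, ih (by omega)]
    have hs := h.2.2 ⟨i, by omega⟩
    have e1 : (⟨i, by omega⟩ : Fin n).succ = ⟨i + 1, hi⟩ := rfl
    have e2 : (⟨i, by omega⟩ : Fin n).castSucc = ⟨i, by omega⟩ := rfl
    rw [e1, e2] at hs
    have hg : (wordOf ω)[i] = dirOf (ω ⟨i + 1, hi⟩ - ω ⟨i, by omega⟩) := by
      simp [wordOf]
    rw [hg, vx_dirOf _ (by simpa using hs), vy_dirOf _ (by simpa using hs)]
    apply Prod.ext <;> simp

lemma saw_wordOf {n : ℕ} {ω : Fin (n + 1) → ℤ × ℤ} (h : IsWalk n ω) : Saw (wordOf ω) := by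
  intro a b c e hb hxy
  have hlen : (wordOf ω).length = n := by simp [wordOf]
  have hl2 : a.length + b.length + c.length = n := by
    rw [← hlen, e]; simp [add_assoc]
  have hbl : 0 < b.length := List.length_pos_of_ne_nil hb
  have h1 := wlk_wordOf h a.length (by omega)
  have h2 := wlk_wordOf h (a.length + b.length) (by omega)
  have t1 : (wordOf ω).take a.length = a := by
    rw [e, List.append_assoc, List.take_left]
  have t2 : (wordOf ω).take (a.length + b.length) = a ++ b := by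
    rw [e, ← List.length_append, List.take_left]
  have : wlk (wordOf ω) a.length = wlk (wordOf ω) (a.length + b.length) := by
    unfold wlk
    rw [t1, t2, X_append, Y_append, hxy.1, hxy.2]
    simp
  rw [h1, h2] at this
  have h3 := h.2.1 this
  rw [Fin.mk.injEq] at h3
  omega

theorem sawCount_eq_cw (n : ℕ) : sawCount n = cw n := by
  unfold sawCount cw
  rw [← Nat.card_coe_set_eq]
  symm
  let g : {u : Wd | Saw u ∧ u.length = n} → {ω : Fin (n + 1) → ℤ × ℤ // ω 0 = 0 ∧
      Function.Injective ω ∧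
      ∀ i : Fin n, |(ω i.succ).1 - (ω i.castSucc).1| + |(ω i.succ).2 - (ω i.castSucc).2| = 1} :=
    fun u => ⟨fun i => wlk u.1 i, isWalk_of_saw u.2.1 u.2.2⟩
  apply Nat.card_congr (Equiv.ofBijective g ?_)
  constructor
  · intro u v h
    apply Subtype.ext
    apply eq_of_wlk u.2.2 v.2.2
    intro i hi
    have h1 := congrFun (congrArg Subtype.val h) ⟨i, by omega⟩
    exact h1
  · rintro ⟨ω, hω⟩
    have hw : IsWalk n ω := hω
    refine ⟨⟨wordOf ω, saw_wordOf hw, by simp [wordOf]⟩, ?_⟩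
    apply Subtype.ext
    funext i
    exact wlk_wordOf hw i i.2

end Pool.Agent.BB
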