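import Pool.Agent.BB.Defs

set_option autoImplicit false

open scoped ENNReal
open Filter Topology Pool.Agent.SawTree

namespace Pool.Agent.BB

/-- the maximal height of a word -/
lemma cut_exists_max (u : Wd) : ∃ m : ℤ, 0 ≤ m ∧ (∃ a b, u = a ++ b ∧ X a = m) ∧
    ∀ a b, u = a ++ b → X a ≤ m := by
  have hfin : (Set.range (fun k : Fin (u.length + 1) => X (u.take k))).Finite :=
    Set.finite_range _
  obtain ⟨m, hm, hmax⟩ := Set.exists_max_image _ (fun x : ℤ => x) hfin ⟨_, ⟨0, rfl⟩⟩
  obtain ⟨k, hk⟩ := hm
  have h0 : 0 ≤ m := hmax 0 ⟨0, by simp⟩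
  refine ⟨m, h0, ⟨u.take k, u.drop k, by simp, hk⟩, ?_⟩
  intro a b hab
  apply hmax
  refine ⟨⟨a.length, ?_⟩, ?_⟩
  · have : u.length = a.length + b.length := by rw [hab]; simp
    omega
  · simp only
    rw [hab]; simp

/-- a half-plane word has some maximal height -/
lemma cut_exists_HS {u : Wd} (hS : Saw u) (hP : ∀ a b, u = a ++ b → a ≠ [] → 0 < X a) :
    ∃ A, u ∈ HS A := by
  obtain ⟨m, hm0, ⟨a, b, hab, hX⟩, hmax⟩ := cut_exists_max u
  refine ⟨m.toNat, hS, hP, ?_, a, b, hab, by omega⟩
  intro p q hpq
  have := hmax p q hpq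
  omega

lemma cut_sufPos_zero : SufPos [0] := by
  intro a b h hb
  rcases a with _ | ⟨x, a⟩
  · simp only [List.nil_append] at h
    rw [← h]; simp [vx]
  · simp only [List.cons_append, List.cons.injEq] at h
    exact absurd (List.append_eq_nil_iff.mp h.2.symm).2 hb

/-- cut at the last visit of the lowest level -/
lemma exists_low_cut {u : Wd} (hS : Saw u) :
    ∃ a c : Wd, u = a ++ c ∧ (∃ A, (0 :: a.reverse.map refl : Wd) ∈ HS A) ∧ ∃ A, c ∈ HS A := by
  -- the minimal level
  obtain ⟨m, _, ⟨a0, b0, h0, hX0⟩, hmax⟩ := cut_exists_max (u.map refl)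
  have hmin : ∀ p q : Wd, u = p ++ q → -m ≤ X p := by
    intro p q hpq
    have := hmax (p.map refl) (q.map refl) (by rw [hpq]; simp)
    rw [X_refl] at this
    omega
  have hex : ∃ a b, u = a ++ b ∧ X a = -m := by
    refine ⟨a0.map refl, b0.map refl, ?_, ?_⟩
    · rw [← refl_refl u, h0]; simp
    · rw [X_refl, hX0]
  obtain ⟨a, c, e1, e2, e3⟩ := exists_last_prefix u (fun a => X a = -m) hex
  have hSa := hS.left e1
  have hSc := hS.right e1
  refine ⟨a, c, e1, cut_exists_HS ?_ ?_, cut_exists_HS hSc ?_⟩
  · -- self-avoiding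
    have h1 : PreNN (a.reverse.map refl) := by
      intro p q hpq
      have e4 : a = (q.map refl).reverse ++ (p.map refl).reverse := by
        have h5 := congrArg (fun w : Wd => (w.map refl).reverse) hpq
        simp only [List.map_append, List.reverse_append, refl_refl, List.reverse_reverse] at h5
        exact h5
      have h6 := hmin ((q.map refl).reverse) ((p.map refl).reverse ++ c)
        (by rw [e1]; nth_rewrite 1 [e4]; simp)
      have h7 : X a = X ((q.map refl).reverse) + X ((p.map refl).reverse) := by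
        nth_rewrite 1 [e4]; simp
      rw [X_reverse, X_refl] at h6
      rw [X_reverse, X_refl, X_reverse, X_refl, e2] at h7
      omega
    have h2 : Saw ([0] : Wd) := saw_append (u := []) (v := [0]) saw_nil (by
      intro a b c h hb
      have hlen : b.length = 1 := by
        have := congrArg List.length h
        simp at this
        have : 0 < b.length := List.length_pos_iff.mpr hb
        omega
      have hac : a = [] ∧ c = [] := by
        have := congrArg List.length h
        simp at this
        constructor <;> apply List.length_eq_zero_iff.mp <;> omega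
      rw [hac.1, hac.2] at h
      simp only [List.nil_append, List.append_nil] at h
      rw [← h]; simp [vx]) (by
      intro a b h hb
      exact absurd (List.append_eq_nil_iff.mp h.symm).2 hb) (by
      intro a b h
      rcases a with _ | ⟨x, a⟩
      · simp
      · simp only [List.cons_append, List.cons.injEq] at h
        have h3 := (List.append_eq_nil_iff.mp h.2.symm).1
        rw [h3, ← h.1]; simp [vx])
    exact saw_append h2 hSa.rev'.refl' cut_sufPos_zero h1
  · intro p q hpq hp
    rcases p with _ | ⟨x, p⟩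
    · exact absurd rfl hp
    · simp only [List.cons_append, List.cons.injEq] at hpq
      obtain ⟨h8, hpq⟩ := hpq
      have e4 : a = (q.map refl).reverse ++ (p.map refl).reverse := by
        have h5 := congrArg (fun w : Wd => (w.map refl).reverse) hpq
        simp only [List.map_append, List.reverse_append, refl_refl, List.reverse_reverse] at h5
        exact h5
      have h6 := hmin ((q.map refl).reverse) ((p.map refl).reverse ++ c)
        (by rw [e1]; nth_rewrite 1 [e4]; simp)
      have h7 : X a = X ((q.map refl).reverse) + X ((p.map refl).reverse) := by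
        nth_rewrite 1 [e4]; simp
      rw [X_reverse, X_refl] at h6
      rw [X_reverse, X_refl, X_reverse, X_refl, e2] at h7
      rw [X_cons, ← h8]
      simp [vx]
      omega
  · intro p q hpq hp
    have h5 := e3 p q hpq hp
    have h6 := hmin (a ++ p) q (by rw [e1, hpq]; simp)
    rw [X_append, e2] at h5 h6
    omega

/-- (4.3) -/
theorem saw_le_HS_sq (s : ℝ≥0∞) (n : ℕ) :
    s * Wt s {u : Wd | Saw u ∧ u.length = n} ≤ (∑' A : ℕ, Wt s (HS A)) ^ 2 := by
  classical
  set R : Set Wd := {u : Wd | Saw u ∧ u.length = n} with hR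
  let R' : Set Wd := {v | ∃ u ∈ R, v = 0 :: u}
  have h1 : s * Wt s R ≤ Wt s R' := by
    unfold Wt
    rw [← ENNReal.tsum_mul_left]
    let f : R → R' := fun u => ⟨0 :: (u : Wd), u, u.2, rfl⟩
    have hf : Function.Injective f := by
      intro u v h
      have := congrArg (fun t : R' => (t : Wd)) h
      simp only [f, List.cons.injEq, true_and] at this
      exact Subtype.ext this
    calc ∑' u : R, s * s ^ (u : Wd).length = ∑' u : R, s ^ (f u : Wd).length := by
          congr 1; funext u; simp [f, pow_succ']
      _ ≤ _ := ENNReal.tsum_comp_le_tsum_of_injective hf (fun v : R' => s ^ (v : Wd).length)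
  have hch : ∀ u : Wd, ∃ p : Wd × Wd, u ∈ R → u = p.1 ++ p.2 ∧
      (∃ A, (0 :: p.1.reverse.map refl : Wd) ∈ HS A) ∧ ∃ A, p.2 ∈ HS A := by
    intro u
    by_cases hu : u ∈ R
    · obtain ⟨a, c, h⟩ := exists_low_cut hu.1
      exact ⟨(a, c), fun _ => h⟩
    · exact ⟨([], []), fun h => absurd h hu⟩
  choose f hf using hch
  have h2 : Wt s R' ≤ Wt s (⋃ A, HS A) * Wt s (⋃ A, HS A) := by
    refine Wt_le_mul (fun v => (0 :: (f v.tail).1.reverse.map refl, (f v.tail).2)) ?_ ?_
    · rintro v ⟨u, hu, rfl⟩
      obtain ⟨e1, e2, e3⟩ := hf u hu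
      refine ⟨Set.mem_iUnion.mpr e2, Set.mem_iUnion.mpr e3, ?_⟩
      have h3 := congrArg List.length e1
      simp only [List.length_append] at h3
      simp only [List.tail_cons, List.length_cons, List.length_map, List.length_reverse]
      omega
    · rintro v ⟨u, hu, rfl⟩ v' ⟨u', hu', rfl⟩ h
      simp only [List.tail_cons, Prod.mk.injEq, List.cons.injEq, true_and] at h
      obtain ⟨h3, h4⟩ := h
      have h5 : (f u).1 = (f u').1 := by
        have h6 := congrArg (fun w : Wd => (w.map refl).reverse) h3
        simpa only [refl_refl, List.reverse_reverse] using h6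
      rw [(hf u hu).1, (hf u' hu').1, h5, h4]
  calc s * Wt s R ≤ Wt s (⋃ A, HS A) * Wt s (⋃ A, HS A) := h1.trans h2
    _ ≤ (∑' A : ℕ, Wt s (HS A)) * (∑' A : ℕ, Wt s (HS A)) :=
        mul_le_mul' (Wt_iUnion_le _) (Wt_iUnion_le _)
    _ = (∑' A : ℕ, Wt s (HS A)) ^ 2 := (sq _).symm

end Pool.Agent.BB
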