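import Pool.Agent.SawTree.Strip

set_option autoImplicit false

open scoped ENNReal
open Filter Topology Pool.Agent.SawTree

namespace Pool.Agent.BB

/-! ### Weighted sums over sets -/

/-- total weight of a set -/
noncomputable def wsum {β : Type} (S : Set β) (f : β → ℝ≥0∞) : ℝ≥0∞ := ∑' x : S, f (x : β)

/-! ### Abstract lists of atoms -/

section Abstract

variable {α : Type}

/-- height of a list of atoms -/
def hL (ht : α → ℕ) (l : List α) : ℕ := (l.map ht).sum
/-- abscissa of a list of atoms -/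
def xL (dx : α → ℤ) (l : List α) : ℤ := (l.map dx).sum
/-- weight of a list of atoms -/
noncomputable def wL (w : α → ℝ≥0∞) (l : List α) : ℝ≥0∞ := (l.map w).prod

/-- total weight of the lists of height `n` -/
noncomputable def Bw (ht : α → ℕ) (w : α → ℝ≥0∞) (n : ℕ) : ℝ≥0∞ :=
  wsum {l : List α | hL ht l = n} (wL w)

/-- product weight of a pair -/
noncomputable def w2 (w : α → ℝ≥0∞) (p : List α × List α) : ℝ≥0∞ := wL w p.1 * wL w p.2

/-- pairs of lists of height `n` such that the end is a weak minimum of the difference -/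
def Mset (ht : α → ℕ) (dx : α → ℤ) (n : ℕ) : Set (List α × List α) :=
  {p | hL ht p.1 = n ∧ hL ht p.2 = n ∧
    ∀ q1 r1 q2 r2, p.1 = q1 ++ r1 → p.2 = q2 ++ r2 → hL ht q1 = hL ht q2 →
      xL dx p.2 - xL dx p.1 ≤ xL dx q2 - xL dx q1}

/-- pairs of lists of height `n` such that the start is a strict minimum of the difference -/
def Mtset (ht : α → ℕ) (dx : α → ℤ) (n : ℕ) : Set (List α × List α) :=
  {p | hL ht p.1 = n ∧ hL ht p.2 = n ∧
    ∀ q1 r1 q2 r2, p.1 = q1 ++ r1 → p.2 = q2 ++ r2 → hL ht q1 = hL ht q2 → 0 < hL ht q1 →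
      xL dx q1 < xL dx q2}

/-- `h ≤ L` summed weights of `Mset` -/
noncomputable def Mw (ht : α → ℕ) (dx : α → ℤ) (w : α → ℝ≥0∞) (L : ℕ) : ℝ≥0∞ :=
  ∑ h ∈ Finset.range (L + 1), wsum (Mset ht dx h) (w2 w)

/-- pairs with `hL p.2 = b + 1`, `b < hL p.1 ≤ b + ℓ`, the second one strictly on the right at all
common splits of height in `(0, b]` -/
def Yset (ht : α → ℕ) (dx : α → ℤ) (ℓ b : ℕ) : Set (List α × List α) :=
  {p | hL ht p.2 = b + 1 ∧ b < hL ht p.1 ∧ hL ht p.1 ≤ b + ℓ ∧
    ∀ q1 r1 q2 r2, p.1 = q1 ++ r1 → p.2 = q2 ++ r2 → hL ht q1 = hL ht q2 → 0 < hL ht q1 →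
      hL ht q1 ≤ b → xL dx q1 < xL dx q2}

end Abstract

/-! ### Words -/

/-- number of self-avoiding walks of length `n` from the origin of the square lattice -/
noncomputable def sawCount (n : ℕ) : ℕ :=
  Nat.card {ω : Fin (n + 1) → ℤ × ℤ // ω 0 = 0 ∧ Function.Injective ω ∧
    ∀ i : Fin n, |(ω i.succ).1 - (ω i.castSucc).1| + |(ω i.succ).2 - (ω i.castSucc).2| = 1}

/-- number of self-avoiding words of length `n` -/
noncomputable def cw (n : ℕ) : ℕ := Set.ncard {u : Wd | Saw u ∧ u.length = n}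

/-- lateral reflection of steps (exchange of up and down) -/
def reflY : Fin 4 → Fin 4 := ![0, 1, 3, 2]

/-- atoms: irreducible bridges -/
abbrev Atom := {u : Wd // Irr u}

/-- height of an atom -/
def aht (a : Atom) : ℕ := (X a.1).toNat
/-- abscissa of an atom -/
def adx (a : Atom) : ℤ := Y a.1
/-- weight of an atom -/
noncomputable def aw (z : ℝ≥0∞) (a : Atom) : ℝ≥0∞ := z ^ a.1.length
/-- concatenation of a list of atoms -/
def flat (l : List Atom) : Wd := (l.map Subtype.val).flatten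

/-- bridges of span `A`, strictly above the start after the first step -/
def Bd (A : ℕ) : Set Wd :=
  {u | Saw u ∧ (∀ a b, u = a ++ b → a ≠ [] → 0 < X a) ∧ (∀ a b, u = a ++ b → X a ≤ A) ∧ X u = A}

/-- half-plane words whose maximal height is `A` -/
def HS (A : ℕ) : Set Wd :=
  {u | Saw u ∧ (∀ a b, u = a ++ b → a ≠ [] → 0 < X a) ∧ (∀ a b, u = a ++ b → X a ≤ A) ∧
    ∃ a b, u = a ++ b ∧ X a = A}

/-- two consecutive bridges of spans `a`, `b`: up by `a`, then down by `b` -/
def UU (a b : ℕ) : Set (Wd × Wd) :=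
  {p | p.1 ∈ Bd a ∧ p.2 ∈ Bd b ∧ Saw (p.1 ++ p.2.map refl)}

/-- weight of the pairs of consecutive bridges -/
noncomputable def Uw (z : ℝ≥0∞) (a b : ℕ) : ℝ≥0∞ :=
  wsum (UU a b) (fun p => z ^ (p.1.length + p.2.length))

end Pool.Agent.BB
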