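import Pool.Agent.BB.Defs

set_option autoImplicit false

open scoped ENNReal
open Filter Topology Pool.Agent.SawTree

namespace Pool.Agent.BB

section Abstract

variable {α : Type}

/-- lists of height at least `m`, all the proper initial parts of which have height less
than `m` -/
def Vset (ht : α → ℕ) (m : ℕ) : Set (List α) :=
  {l | m ≤ hL ht l ∧ ∀ q r, l = q ++ r → r ≠ [] → hL ht q < m}

/-- pairs: the first list just passes the height `b + 1`, the second one has height exactly
`b + 1`, and it is strictly on the right at all the common splits of height in `(0, b]` -/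
def Jset (ht : α → ℕ) (dx : α → ℤ) (b : ℕ) : Set (List α × List α) :=
  {p | p.1 ∈ Vset ht (b + 1) ∧ hL ht p.2 = b + 1 ∧
    ∀ q1 r1 q2 r2, p.1 = q1 ++ r1 → p.2 = q2 ++ r2 → hL ht q1 = hL ht q2 → 0 < hL ht q1 →
      hL ht q1 ≤ b → xL dx q1 < xL dx q2}

end Abstract

/-- upper bound of the weight of a pair of consecutive bridges, uniform in the first span -/
noncomputable def Jw (z : ℝ≥0∞) (b : ℕ) : ℝ≥0∞ :=
  z⁻¹ * (wsum (Jset aht adx b) (w2 (aw z)) + wsum (Jset aht (fun x => - adx x) b) (w2 (aw z)))

end Pool.Agent.BB
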