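import Pool.Agent.SawTree.Critical

open scoped ENNReal
open Filter Topology

namespace Pool.Agent.BB

open Pool.Agent.SawTree

/-- self-avoiding words of length `n` -/
def SawN (n : ℕ) : Set Wd := {u | Saw u ∧ u.length = n}

lemma SawN_finite (n : ℕ) : (SawN n).Finite :=
  (List.finite_length_eq (Fin 4) n).subset (fun _ hu => hu.2)

/-- number of self-avoiding words of length `n` -/
noncomputable def cN (n : ℕ) : ℕ := (SawN n).ncard

lemma XY_replicate (n : ℕ) : X (List.replicate n 0) = n := by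
  induction n with
  | zero => simp
  | succ n ih => rw [List.replicate_succ, X_cons, ih]; simp [vx]; ring

lemma saw_replicate (n : ℕ) : Saw (List.replicate n 0) := by
  intro a b c h hb
  have hall : ∀ d ∈ b, d = 0 := by
    intro d hd
    have : d ∈ List.replicate n (0 : Fin 4) := by rw [h]; simp [hd]
    exact (List.mem_replicate.mp this).2
  have hb' : b = List.replicate b.length 0 := List.eq_replicate_iff.mpr ⟨rfl, hall⟩
  rintro ⟨hx, _⟩
  rw [hb', XY_replicate] at hx
  have : b.length = 0 := by exact_mod_cast hx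
  exact hb (List.length_eq_zero_iff.mp this)

lemma one_le_cN (n : ℕ) : 1 ≤ cN n := by
  unfold cN
  rw [Nat.one_le_iff_ne_zero, Ne, Set.ncard_eq_zero (SawN_finite n)]
  exact Set.Nonempty.ne_empty ⟨List.replicate n 0, saw_replicate n, by simp⟩

lemma cN_add_le (m n : ℕ) : cN (m + n) ≤ cN m * cN n := by
  unfold cN
  rw [← Set.ncard_prod]
  refine Set.ncard_le_ncard_of_injOn (fun w : Wd => (w.take m, w.drop m)) ?_ ?_
    ((SawN_finite m).prod (SawN_finite n))
  · rintro w ⟨hw, hl⟩
    have e : w = w.take m ++ w.drop m := (List.take_append_drop m w).symm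
    refine ⟨⟨hw.left e, ?_⟩, ⟨hw.right e, ?_⟩⟩
    · rw [List.length_take, hl]; omega
    · rw [List.length_drop, hl]; omega
  · intro w _ w' _ h
    simp only [Prod.mk.injEq] at h
    rw [← List.take_append_drop m w, ← List.take_append_drop m w', h.1, h.2]

lemma subadd : Subadditive (fun n => Real.log (cN n)) := by
  intro m n
  have h1 : (0 : ℝ) < cN m := by exact_mod_cast one_le_cN m
  have h2 : (0 : ℝ) < cN n := by exact_mod_cast one_le_cN n
  have h3 : (0 : ℝ) < cN (m + n) := by exact_mod_cast one_le_cN (m + n)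
  rw [← Real.log_mul h1.ne' h2.ne']
  apply Real.log_le_log h3
  exact_mod_cast cN_add_le m n

lemma bdd : BddBelow (Set.range fun n : ℕ => Real.log (cN n) / n) := by
  refine ⟨0, ?_⟩
  rintro _ ⟨n, rfl⟩
  have h1 : (1 : ℝ) ≤ cN n := by exact_mod_cast one_le_cN n
  exact div_nonneg (Real.log_nonneg h1) (Nat.cast_nonneg n)

/-- the connective constant -/
noncomputable def mu : ℝ := Real.exp subadd.lim

lemma mu_pos : 0 < mu := Real.exp_pos _

lemma one_le_mu : 1 ≤ mu := by
  unfold mu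
  rw [← Real.exp_zero]
  apply Real.exp_le_exp.mpr
  apply ge_of_tendsto (subadd.tendsto_lim bdd)
  filter_upwards with n
  have h1 : (1 : ℝ) ≤ cN n := by exact_mod_cast one_le_cN n
  exact div_nonneg (Real.log_nonneg h1) (Nat.cast_nonneg n)

lemma mu_pow_le (n : ℕ) : mu ^ n ≤ cN n := by
  rcases Nat.eq_zero_or_pos n with rfl | hn
  · have h1 : (1 : ℝ) ≤ cN 0 := by exact_mod_cast one_le_cN 0
    simpa using h1
  · have h1 : (0 : ℝ) < cN n := by exact_mod_cast one_le_cN n
    have h2 := subadd.lim_le_div bdd hn.ne'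
    have hn' : (0 : ℝ) < n := by exact_mod_cast hn
    rw [le_div_iff₀ hn'] at h2
    unfold mu
    rw [← Real.exp_nat_mul, ← Real.exp_log h1]
    apply Real.exp_le_exp.mpr
    linarith [h2]

lemma tendsto_root : Tendsto (fun n : ℕ => (cN n : ℝ) ^ (1 / (n : ℝ))) atTop (𝓝 mu) := by
  have h := (Real.continuous_exp.tendsto _).comp (subadd.tendsto_lim bdd)
  refine h.congr ?_
  intro n
  have h1 : (0 : ℝ) < cN n := by exact_mod_cast one_le_cN n
  simp only [Function.comp]
  rw [Real.rpow_def_of_pos h1]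
  congr 1
  ring

/-- `c_n ≤ r^n` for large `n` if `r > mu` -/
lemma eventually_le {r : ℝ} (hr : mu < r) : ∀ᶠ n : ℕ in atTop, (cN n : ℝ) ≤ r ^ n := by
  have hr0 : 0 < r := mu_pos.trans hr
  filter_upwards [tendsto_root.eventually (gt_mem_nhds hr), eventually_gt_atTop 0] with n h hn
  have h1 : (0 : ℝ) < cN n := by exact_mod_cast one_le_cN n
  have hn' : (n : ℝ) ≠ 0 := by exact_mod_cast hn.ne'
  have h2 : ((cN n : ℝ) ^ (1 / (n : ℝ))) ^ n ≤ r ^ n :=
    pow_le_pow_left₀ (Real.rpow_nonneg h1.le _) h.le n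
  rw [← Real.rpow_natCast, ← Real.rpow_mul h1.le, one_div_mul_cancel hn', Real.rpow_one] at h2
  exact h2

lemma summable_cN {x : ℝ} (hx0 : 0 ≤ x) (hx : x * mu < 1) : Summable (fun n => (cN n : ℝ) * x ^ n) := by
  rcases eq_or_lt_of_le hx0 with rfl | hx0
  · apply summable_of_ne_finset_zero (s := {0})
    intro n hn
    have : n ≠ 0 := by simpa using hn
    simp [this]
  · obtain ⟨r, h1, h2⟩ := exists_between (show mu < 1 / x by rwa [lt_div_iff₀ hx0, mul_comm])
    have hr0 : 0 < r := mu_pos.trans h1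
    have hrx : r * x < 1 := by rwa [lt_div_iff₀ hx0] at h2
    have hg : Summable (fun n : ℕ => (r * x) ^ n) :=
      summable_geometric_of_lt_one (by positivity) hrx
    refine Summable.of_norm_bounded_eventually_nat hg ?_
    filter_upwards [eventually_le h1] with n hn
    rw [Real.norm_of_nonneg (by positivity), mul_pow]
    exact mul_le_mul_of_nonneg_right hn (by positivity)

/-- the weight of the set of all self-avoiding words as a power series -/
lemma Wt_saw (z : ℝ≥0∞) : Wt z {u | Saw u} = ∑' n : ℕ, (cN n : ℝ≥0∞) * z ^ n := by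
  unfold Wt
  let f : {u : Wd // Saw u} → ℕ := fun u => (u : Wd).length
  have h1 : ∑' u : {u : Wd | Saw u}, z ^ (u : Wd).length
      = ∑' u : {u : Wd // Saw u}, z ^ (f u) := rfl
  rw [h1, ← (Equiv.sigmaFiberEquiv f).tsum_eq (fun u => z ^ (f u)), ENNReal.tsum_sigma']
  congr 1
  funext n
  have h2 : ∀ u : {u : {u : Wd // Saw u} // f u = n},
      z ^ (f ((Equiv.sigmaFiberEquiv f) ⟨n, u⟩)) = z ^ n := by
    intro u
    simp [Equiv.sigmaFiberEquiv, u.2]
  simp_rw [h2]
  let e : {u : {u : Wd // Saw u} // f u = n} ≃ SawN n :=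
    { toFun := fun u => ⟨u.1.1, u.1.2, u.2⟩
      invFun := fun u => ⟨⟨u.1, u.2.1⟩, u.2.2⟩
      left_inv := fun _ => rfl
      right_inv := fun _ => rfl }
  rw [← e.symm.tsum_eq (fun _ => z ^ n)]
  have : Fintype (SawN n) := (SawN_finite n).fintype
  rw [tsum_fintype, Finset.sum_const, nsmul_eq_mul, cN, Set.ncard_eq_toFinset_card']
  simp [Set.toFinset_card]

lemma Wt_saw_ne_top {x : ℝ} (hx0 : 0 ≤ x) (hx : x * mu < 1) :
    Wt (ENNReal.ofReal x) {u | Saw u} ≠ ⊤ := by
  rw [Wt_saw]
  have h := summable_cN hx0 hx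
  have h1 : ∀ n : ℕ, (cN n : ℝ≥0∞) * (ENNReal.ofReal x) ^ n = ENNReal.ofReal ((cN n : ℝ) * x ^ n) := by
    intro n
    rw [ENNReal.ofReal_mul (Nat.cast_nonneg _), ENNReal.ofReal_pow hx0, ENNReal.ofReal_natCast]
  simp_rw [h1]
  rw [← ENNReal.ofReal_tsum_of_nonneg (fun n => by positivity) h]
  exact ENNReal.ofReal_ne_top

/-- the critical point of bridges is at least `1 / mu` (they are equal) -/
theorem ofReal_inv_mu_le_crit : ENNReal.ofReal (1 / mu) ≤ crit := by
  apply le_of_forall_lt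
  intro z hz
  -- choose `y` with `z < y < ofReal (1/mu)`
  obtain ⟨y, hy1, hy2⟩ := exists_between hz
  have hyt : y ≠ ⊤ := ne_top_of_lt hy2
  refine lt_of_lt_of_le hy1 (le_sSup ?_)
  show Wt y {u | Br u} ≠ ⊤
  have hle : Wt y {u | Br u} ≤ Wt y {u | Saw u} := Wt_mono (fun u hu => hu.1)
  refine ne_top_of_le_ne_top ?_ hle
  rw [← ENNReal.ofReal_toReal hyt]
  apply Wt_saw_ne_top ENNReal.toReal_nonneg
  have h3 : y.toReal < 1 / mu := by
    rw [← ENNReal.ofReal_toReal hyt] at hy2
    exact (ENNReal.ofReal_lt_ofReal_iff_of_nonneg ENNReal.toReal_nonneg).mp hy2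
  rwa [lt_div_iff₀ mu_pos] at h3

end Pool.Agent.BB
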