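import Pool.Agent.BB.Defs
import Pool.Agent.BB.Fekete

set_option autoImplicit false

open scoped ENNReal
open Filter Topology Pool.Agent.SawTree

namespace Pool.Agent.BB

/-! The statements of module B2 in the notation of `Defs`. -/

theorem cw_eq_cN (n : ℕ) : cw n = cN n := rfl

theorem cw_pos (n : ℕ) : 0 < cw n := one_le_cN n

theorem cw_add_le (m n : ℕ) : cw (m + n) ≤ cw m * cw n := cN_add_le m n

theorem exists_mu : ∃ μ : ℝ, 0 < μ ∧ (∀ n, μ ^ n ≤ cw n) ∧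
    Tendsto (fun n : ℕ => (cw n : ℝ) ^ (1 / (n : ℝ))) atTop (𝓝 μ) :=
  ⟨mu, mu_pos, mu_pow_le, tendsto_root⟩

theorem inv_mu_le_crit (μ : ℝ) (_hμ : 0 < μ)
    (h : Tendsto (fun n : ℕ => (cw n : ℝ) ^ (1 / (n : ℝ))) atTop (𝓝 μ)) :
    ENNReal.ofReal (1 / μ) ≤ crit := by
  have e : μ = mu := tendsto_nhds_unique h tendsto_root
  rw [e]
  exact ofReal_inv_mu_le_crit

end Pool.Agent.BB
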