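import Pool.Agent.BB.Defs

set_option autoImplicit false

open scoped ENNReal
open Filter Topology Pool.Agent.SawTree

namespace Pool.Agent.BB

lemma HS_zero {u : Wd} (h : u ∈ HS 0) : u = [] := by
  by_contra hne
  have h1 := h.2.1 u [] (by simp) hne
  have h2 := h.2.2.1 u [] (by simp)
  simp at h2
  omega

/-- cut at the last visit of the maximal level -/
lemma exists_cut {A : ℕ} (hA : 1 ≤ A) {u : Wd} (h : u ∈ HS A) :
    ∃ b r : Wd, u = b ++ r.map refl ∧ b ∈ Bd A ∧ ∃ A' < A, r ∈ HS A' := by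
  classical
  obtain ⟨hS, hP, hM, hE⟩ := h
  obtain ⟨a, c, e1, e2, e3⟩ := exists_last_prefix u (fun a => X a = (A : ℤ)) hE
  have hSa := hS.left e1
  have hSc := hS.right e1
  refine ⟨a, c.map refl, by rw [refl_refl]; exact e1, ⟨hSa, ?_, ?_, e2⟩, ?_⟩
  · intro p q hpq hp
    exact hP p (q ++ c) (by rw [e1, hpq]; simp) hp
  · intro p q hpq
    exact hM p (q ++ c) (by rw [e1, hpq]; simp)
  · -- the maximum of the second part
    set r := c.map refl with hr
    have hrP : ∀ p q : Wd, r = p ++ q → p ≠ [] → 0 < X p := by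
      intro p q hpq hp
      have e4 : c = p.map refl ++ q.map refl := by
        rw [← refl_refl c, ← hr, hpq]; simp
      have h5 := e3 (p.map refl) (q.map refl) e4 (by simpa using hp)
      have h6 := hM (a ++ p.map refl) (q.map refl) (by rw [e1, e4]; simp)
      rw [X_append, X_refl, e2] at h5 h6
      omega
    have hrM : ∀ p q : Wd, r = p ++ q → X p < A := by
      intro p q hpq
      by_cases hp : p = []
      · subst hp; simp; omega
      · have e4 : c = p.map refl ++ q.map refl := by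
          rw [← refl_refl c, ← hr, hpq]; simp
        have h6 := hP (a ++ p.map refl) (q.map refl) (by rw [e1, e4]; simp) (by simp [hp])
        rw [X_append, X_refl, e2] at h6
        omega
    have hrN : ∀ p q : Wd, r = p ++ q → 0 ≤ X p := by
      intro p q hpq
      by_cases hp : p = []
      · subst hp; simp
      · exact (hrP p q hpq hp).le
    obtain ⟨m, hm1, hm2⟩ : ∃ m : ℤ, (∃ a b, r = a ++ b ∧ X a = m) ∧
        ∀ a b, r = a ++ b → X a ≤ m := by
      have hfin : (Set.range (fun k : Fin (r.length + 1) => X (r.take k))).Finite :=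
        Set.finite_range _
      obtain ⟨m, hm, hmax⟩ := Set.exists_max_image _ (fun x : ℤ => x) hfin
        ⟨_, ⟨0, rfl⟩⟩
      obtain ⟨k, hk⟩ := hm
      refine ⟨m, ⟨r.take k, r.drop k, by simp, hk⟩, ?_⟩
      intro a b hab
      apply hmax
      refine ⟨⟨a.length, ?_⟩, ?_⟩
      · have : r.length = a.length + b.length := by rw [hab]; simp
        omega
      · simp only
        rw [hab]; simp
    obtain ⟨p, q, hpq, hpm⟩ := hm1
    have h1 := hrM p q hpq
    have h2 := hrN p q hpq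
    refine ⟨m.toNat, by omega, hSc.refl', hrP, ?_, p, q, hpq, by omega⟩
    intro p' q' h'
    have := hm2 p' q' h'
    omega

lemma Bd_length {A : ℕ} {u : Wd} (h : u ∈ Bd A) : A ≤ u.length := by
  have h1 := X_le_length u
  have h2 := le_abs_self (X u)
  rw [h.2.2.2] at h1 h2
  have : (A : ℤ) ≤ u.length := le_trans h2 h1
  exact_mod_cast this

lemma Bd_le_one {z : ℝ≥0∞} (hz0 : 0 < z) (hz : z ≤ crit) (A : ℕ) : Wt z (Bd A) ≤ 1 := by
  refine le_trans ?_ (span_le_one hz0 hz (A : ℤ))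
  refine Wt_inj (fun u => ⟨(u : Wd).reverse, ?_⟩) ?_ ?_
  · obtain ⟨hS, hP, hM, hX⟩ := u.2
    refine ⟨⟨hS.rev', ?_, ?_⟩, by rw [X_reverse]; exact hX⟩
    · intro p q hpq
      have e4 : (u : Wd) = q.reverse ++ p.reverse := by
        rw [← List.reverse_reverse (u : Wd), hpq]; simp
      have h5 := hM q.reverse p.reverse e4
      have h6 : X (u : Wd) = X q + X p := by rw [e4]; simp
      rw [X_reverse] at h5
      rw [hX] at h6
      omega
    · intro p q hpq hq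
      have e4 : (u : Wd) = q.reverse ++ p.reverse := by
        rw [← List.reverse_reverse (u : Wd), hpq]; simp
      have h5 := hP q.reverse p.reverse e4 (by simpa using hq)
      rwa [X_reverse] at h5
  · intro u v huv
    have := congrArg (fun t : BrA (A : ℤ) => (t : Wd)) huv
    exact Subtype.ext (List.reverse_injective this)
  · intro u; simp

lemma Bd_scale {z r : ℝ≥0∞} (hr : r ≤ 1) (hz0 : 0 < z) (hz : z ≤ crit) (A : ℕ) :
    Wt (r * z) (Bd A) ≤ r ^ A := by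
  have h1 : Wt (r * z) (Bd A) ≤ r ^ A * Wt z (Bd A) := by
    unfold Wt
    rw [← ENNReal.tsum_mul_left]
    refine ENNReal.tsum_le_tsum (fun u => ?_)
    rw [mul_pow]
    exact mul_le_mul' (pow_le_pow_right_of_le_one' hr (Bd_length u.2)) le_rfl
  calc Wt (r * z) (Bd A) ≤ r ^ A * Wt z (Bd A) := h1
    _ ≤ r ^ A * 1 := by gcongr; exact Bd_le_one hz0 hz A
    _ = r ^ A := mul_one _

lemma Wt_biUnion_le {z : ℝ≥0∞} (s : Finset ℕ) (S : ℕ → Set Wd) :
    Wt z (⋃ i ∈ s, S i) ≤ ∑ i ∈ s, Wt z (S i) := by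
  unfold Wt
  exact ENNReal.tsum_biUnion_le (fun u : Wd => z ^ u.length) s S

/-- decomposition into a pair and a word -/
lemma Wt_le_mul3 {z : ℝ≥0∞} {P : Set (Wd × Wd)} {T R : Set Wd} (f : Wd → (Wd × Wd) × Wd)
    (hf : ∀ w ∈ R, (f w).1 ∈ P ∧ (f w).2 ∈ T ∧
      w.length = ((f w).1.1.length + (f w).1.2.length) + (f w).2.length)
    (hinj : ∀ w ∈ R, ∀ w' ∈ R, f w = f w' → w = w') :
    Wt z R ≤ (∑' p : P, z ^ ((p : Wd × Wd).1.length + (p : Wd × Wd).2.length)) * Wt z T := by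
  have hprod : (∑' p : P, z ^ ((p : Wd × Wd).1.length + (p : Wd × Wd).2.length)) * Wt z T
      = ∑' q : P × T, z ^ (((q.1 : Wd × Wd).1.length + (q.1 : Wd × Wd).2.length)
          + (q.2 : Wd).length) := by
    unfold Wt
    have h := ENNReal.tsum_prod (f := fun (u : P) (v : T) =>
      z ^ (((u : Wd × Wd).1.length + (u : Wd × Wd).2.length) + (v : Wd).length))
    rw [h, ← ENNReal.tsum_mul_right]
    congr 1
    funext u
    rw [← ENNReal.tsum_mul_left]
    congr 1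
    funext v
    rw [pow_add z ((u : Wd × Wd).1.length + (u : Wd × Wd).2.length) (v : Wd).length]
  rw [hprod]
  unfold Wt
  let g : R → P × T := fun w => (⟨(f w).1, (hf w w.2).1⟩, ⟨(f w).2, (hf w w.2).2.1⟩)
  have hg : Function.Injective g := by
    intro w w' h
    apply Subtype.ext
    apply hinj w w.2 w' w'.2
    have h1 := congrArg (fun p : P × T => ((p.1 : Wd × Wd), (p.2 : Wd))) h
    simpa [g] using h1
  calc ∑' w : R, z ^ (w : Wd).length
      = ∑' w : R, z ^ ((((g w).1 : Wd × Wd).1.length + ((g w).1 : Wd × Wd).2.length)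
          + ((g w).2 : Wd).length) := by
        congr 1; funext w; rw [(hf w w.2).2.2]
    _ ≤ _ := ENNReal.tsum_comp_le_tsum_of_injective hg
        (fun q : P × T => z ^ (((q.1 : Wd × Wd).1.length + (q.1 : Wd × Wd).2.length)
          + (q.2 : Wd).length))

/-- the first inequality of the Hammersley–Welsh recursion -/
theorem rec_one {z r : ℝ≥0∞} (hr : r ≤ 1) (hz0 : 0 < z) (hz : z ≤ crit) {A : ℕ} (hA : 1 ≤ A) :
    Wt (r * z) (HS A) ≤ r ^ A * ∑ A' ∈ Finset.range A, Wt (r * z) (HS A') := by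
  classical
  have hch : ∀ u : Wd, ∃ p : Wd × Wd, u ∈ HS A → u = p.1 ++ p.2.map refl ∧ p.1 ∈ Bd A ∧
      ∃ A' < A, p.2 ∈ HS A' := by
    intro u
    by_cases hu : u ∈ HS A
    · obtain ⟨b, r, e1, e2, e3⟩ := exists_cut hA hu
      exact ⟨(b, r), fun _ => ⟨e1, e2, e3⟩⟩
    · exact ⟨([], []), fun h => absurd h hu⟩
  choose f hf using hch
  have h1 : HS A ⊆ ⋃ A' ∈ Finset.range A, {u | u ∈ HS A ∧ (f u).2 ∈ HS A'} := by
    intro u hu
    obtain ⟨_, _, A', hA', h3⟩ := hf u hu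
    simp only [Set.mem_iUnion]
    exact ⟨A', Finset.mem_range.mpr hA', hu, h3⟩
  calc Wt (r * z) (HS A)
      ≤ ∑ A' ∈ Finset.range A, Wt (r * z) {u | u ∈ HS A ∧ (f u).2 ∈ HS A'} :=
        le_trans (Wt_mono h1) (Wt_biUnion_le _ _)
    _ ≤ ∑ A' ∈ Finset.range A, r ^ A * Wt (r * z) (HS A') := by
        refine Finset.sum_le_sum (fun A' _ => ?_)
        refine le_trans (Wt_le_mul (S := Bd A) (T := HS A') f ?_ ?_) ?_
        · rintro w ⟨hw, hw2⟩
          obtain ⟨e1, e2, _⟩ := hf w hw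
          refine ⟨e2, hw2, ?_⟩
          conv_lhs => rw [e1]
          simp
        · rintro w ⟨hw, _⟩ w' ⟨hw', _⟩ he
          rw [(hf w hw).1, (hf w' hw').1, he]
        · gcongr
          exact Bd_scale hr hz0 hz A
    _ = r ^ A * ∑ A' ∈ Finset.range A, Wt (r * z) (HS A') := by rw [Finset.mul_sum]

lemma Uw_mono {s z : ℝ≥0∞} (h : s ≤ z) (a b : ℕ) : Uw s a b ≤ Uw z a b := by
  unfold Uw wsum
  exact ENNReal.tsum_le_tsum (fun u => pow_le_pow_left' h _)

/-- the second inequality of the Hammersley–Welsh recursion, general form -/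
theorem rec_gen (s : ℝ≥0∞) {A : ℕ} (hA : 1 ≤ A) :
    Wt s (HS A) ≤ Wt s (Bd A) + ∑ A' ∈ Finset.Ico 1 A,
      Uw s A A' * ∑ A'' ∈ Finset.range A', Wt s (HS A'') := by
  classical
  have hch : ∀ (B : ℕ) (u : Wd), ∃ p : Wd × Wd, 1 ≤ B → u ∈ HS B →
      u = p.1 ++ p.2.map refl ∧ p.1 ∈ Bd B ∧ ∃ A' < B, p.2 ∈ HS A' := by
    intro B u
    by_cases hB : 1 ≤ B
    · by_cases hu : u ∈ HS B
      · obtain ⟨b, r, e1, e2, e3⟩ := exists_cut hB hu
        exact ⟨(b, r), fun _ _ => ⟨e1, e2, e3⟩⟩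
      · exact ⟨([], []), fun _ h => absurd h hu⟩
    · exact ⟨([], []), fun h => absurd h hB⟩
  choose f hf using hch
  have h1 : HS A ⊆ {u | u ∈ HS A ∧ (f A u).2 ∈ HS 0} ∪
      ⋃ A' ∈ Finset.Ico 1 A, {u | u ∈ HS A ∧ (f A u).2 ∈ HS A'} := by
    intro u hu
    obtain ⟨_, _, A', hA', h3⟩ := hf A u hA hu
    rcases Nat.eq_zero_or_pos A' with h0 | h0
    · left; subst h0; exact ⟨hu, h3⟩
    · right
      simp only [Set.mem_iUnion]
      exact ⟨A', Finset.mem_Ico.mpr ⟨h0, hA'⟩, hu, h3⟩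
  have h2 : Wt s {u | u ∈ HS A ∧ (f A u).2 ∈ HS 0} ≤ Wt s (Bd A) := by
    refine Wt_inj (fun u => ⟨(f A u).1, (hf A u hA u.2.1).2.1⟩) ?_ ?_
    · intro u v huv
      have h3 := congrArg (fun t : Bd A => (t : Wd)) huv
      simp only at h3
      apply Subtype.ext
      rw [(hf A u hA u.2.1).1, (hf A v hA v.2.1).1, h3, HS_zero u.2.2, HS_zero v.2.2]
    · intro u
      have h3 := (hf A u hA u.2.1).1
      rw [HS_zero u.2.2] at h3
      simp only [List.map_nil, List.append_nil] at h3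
      show (f A u).1.length = (u : Wd).length
      rw [← h3]
  refine le_trans (Wt_mono h1) (le_trans (Wt_union_le _ _) (add_le_add h2 ?_))
  refine le_trans (Wt_biUnion_le _ _) (Finset.sum_le_sum (fun A' hA' => ?_))
  obtain ⟨hA1, hA2⟩ := Finset.mem_Ico.mp hA'
  have h3 : {u | u ∈ HS A ∧ (f A u).2 ∈ HS A'} ⊆ ⋃ A'' ∈ Finset.range A',
      {u | (u ∈ HS A ∧ (f A u).2 ∈ HS A') ∧ (f A' (f A u).2).2 ∈ HS A''} := by
    rintro u ⟨hu, hu2⟩
    obtain ⟨_, _, A'', hA'', h3⟩ := hf A' (f A u).2 hA1 hu2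
    simp only [Set.mem_iUnion]
    exact ⟨A'', Finset.mem_range.mpr hA'', ⟨hu, hu2⟩, h3⟩
  refine le_trans (Wt_mono h3) (le_trans (Wt_biUnion_le _ _) ?_)
  rw [Finset.mul_sum]
  refine Finset.sum_le_sum (fun A'' _ => ?_)
  refine le_trans (Wt_le_mul3 (P := UU A A') (T := HS A'')
    (fun w => (((f A w).1, (f A' (f A w).2).1), (f A' (f A w).2).2)) ?_ ?_) ?_
  · rintro w ⟨⟨hw, hw2⟩, hw3⟩
    obtain ⟨e1, e2, _⟩ := hf A w hA hw
    obtain ⟨e3, e4, _⟩ := hf A' (f A w).2 hA1 hw2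
    refine ⟨⟨e2, e4, ?_⟩, hw3, ?_⟩
    · show Saw ((f A w).1 ++ (f A' (f A w).2).1.map refl)
      apply hw.1.left (b := ((f A' (f A w).2).2.map refl).map refl)
      conv_lhs => rw [e1, e3]
      simp
    · show w.length = ((f A w).1.length + (f A' (f A w).2).1.length)
        + (f A' (f A w).2).2.length
      have l1 := congrArg List.length e1
      have l2 := congrArg List.length e3
      simp only [List.length_append, List.length_map] at l1 l2
      omega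
  · rintro w ⟨⟨hw, hw2⟩, hw3⟩ w' ⟨⟨hw', hw2'⟩, hw3'⟩ he
    simp only [Prod.mk.injEq] at he
    obtain ⟨⟨h4, h5⟩, h6⟩ := he
    have h7 : (f A w).2 = (f A w').2 := by
      rw [(hf A' (f A w).2 hA1 hw2).1, (hf A' (f A w').2 hA1 hw2').1, h5, h6]
    rw [(hf A w hA hw).1, (hf A w' hA hw').1, h4, h7]
  · exact le_rfl

/-- the second inequality of the Hammersley–Welsh recursion -/
theorem rec_two {z s : ℝ≥0∞} (hz0 : 0 < z) (hs : s ≤ z) (hz : z ≤ crit) {A : ℕ} (hA : 1 ≤ A) :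
    Wt s (HS A) ≤ 1 + ∑ A' ∈ Finset.Ico 1 A,
      Uw z A A' * ∑ A'' ∈ Finset.range A', Wt s (HS A'') := by
  refine le_trans (rec_gen s hA) (add_le_add (le_trans (Wt_mono_z hs _) (Bd_le_one hz0 hz A)) ?_)
  refine Finset.sum_le_sum (fun A' _ => ?_)
  gcongr
  exact Uw_mono hs A A'

lemma Uw_scale {z r : ℝ≥0∞} (hr : r ≤ 1) (a b : ℕ) :
    Uw (r * z) a b ≤ r ^ a * (r ^ b * Uw z a b) := by
  unfold Uw wsum
  rw [← ENNReal.tsum_mul_left, ← ENNReal.tsum_mul_left]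
  refine ENNReal.tsum_le_tsum (fun p => ?_)
  have h1 := Bd_length p.2.1
  have h2 := Bd_length p.2.2.1
  show (r * z) ^ ((p : Wd × Wd).1.length + (p : Wd × Wd).2.length)
    ≤ r ^ a * (r ^ b * z ^ ((p : Wd × Wd).1.length + (p : Wd × Wd).2.length))
  rw [mul_pow, ← mul_assoc, ← pow_add]
  exact mul_le_mul' (pow_le_pow_right_of_le_one' hr (by omega)) le_rfl

/-- the second inequality of the Hammersley–Welsh recursion, with the exponential factors -/
theorem rec_two_exp {z r : ℝ≥0∞} (hr : r ≤ 1) (hz0 : 0 < z) (hz : z ≤ crit) {A : ℕ}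
    (hA : 1 ≤ A) :
    Wt (r * z) (HS A) ≤ r ^ A * (1 + ∑ A' ∈ Finset.Ico 1 A, r ^ A' * Uw z A A' *
      ∑ A'' ∈ Finset.range A', Wt (r * z) (HS A'')) := by
  refine le_trans (rec_gen (r * z) hA) ?_
  rw [mul_add, mul_one, Finset.mul_sum]
  refine add_le_add (Bd_scale hr hz0 hz A) (Finset.sum_le_sum (fun A' _ => ?_))
  calc Uw (r * z) A A' * ∑ A'' ∈ Finset.range A', Wt (r * z) (HS A'')
      ≤ (r ^ A * (r ^ A' * Uw z A A')) * ∑ A'' ∈ Finset.range A', Wt (r * z) (HS A'') := by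
        gcongr
        exact Uw_scale hr A A'
    _ = _ := by ring

lemma HS_zero_le (s : ℝ≥0∞) : Wt s (HS 0) ≤ 1 := by
  have h : HS 0 ⊆ {[]} := fun u hu => HS_zero hu
  calc Wt s (HS 0) ≤ Wt s {([] : Wd)} := Wt_mono h
    _ = 1 := by rw [Wt_singleton]; simp

theorem Wt_Bd_le_one (z : ℝ≥0∞) (hz0 : 0 < z) (hz : z ≤ crit) (A : ℕ) : Wt z (Bd A) ≤ 1 :=
  Bd_le_one hz0 hz A

theorem Uw_le_one (z : ℝ≥0∞) (hz0 : 0 < z) (hz : z ≤ crit) (a b : ℕ) : Uw z a b ≤ 1 := by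
  have h1 : Uw z a b ≤ Wt z (Bd a) * Wt z (Bd b) := by
    rw [Wt_prod]
    unfold Uw wsum
    let g : UU a b → Bd a × Bd b := fun p => (⟨(p : Wd × Wd).1, p.2.1⟩, ⟨(p : Wd × Wd).2, p.2.2.1⟩)
    have hg : Function.Injective g := by
      intro p q h
      apply Subtype.ext
      have h1 := congrArg (fun t : Bd a × Bd b => ((t.1 : Wd), (t.2 : Wd))) h
      exact h1
    exact ENNReal.tsum_comp_le_tsum_of_injective hg
      (fun p : Bd a × Bd b => z ^ ((p.1 : Wd).length + (p.2 : Wd).length))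
  calc Uw z a b ≤ Wt z (Bd a) * Wt z (Bd b) := h1
    _ ≤ 1 * 1 := mul_le_mul' (Bd_le_one hz0 hz a) (Bd_le_one hz0 hz b)
    _ = 1 := one_mul 1

theorem Wt_HS_zero (z : ℝ≥0∞) : Wt z (HS 0) ≤ 1 := HS_zero_le z

/-- (4.1) -/
theorem HS_le_exp (z e : ℝ≥0∞) (hz0 : 0 < z) (hz : z ≤ crit) (he : e ≤ 1) (A : ℕ) (hA : 1 ≤ A) :
    Wt (z * e) (HS A) ≤ e ^ A * ∑ A' ∈ Finset.range A, Wt (z * e) (HS A') := by
  have h := rec_one he hz0 hz hA
  rwa [mul_comm e z] at h

/-- (4.2) -/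
theorem HS_le_pairs (z e : ℝ≥0∞) (hz0 : 0 < z) (hz : z ≤ crit) (he : e ≤ 1) (A : ℕ) (hA : 1 ≤ A) :
    Wt (z * e) (HS A) ≤ 1 + ∑ A' ∈ Finset.Ico 1 A, Uw z A A' *
      ∑ A'' ∈ Finset.range A', Wt (z * e) (HS A'') :=
  rec_two hz0 (by simpa using mul_le_mul_right he z) hz hA

/-- (4.2), with the exponential factors -/
theorem HS_le_pairs_exp (z e : ℝ≥0∞) (hz0 : 0 < z) (hz : z ≤ crit) (he : e ≤ 1) (A : ℕ)
    (hA : 1 ≤ A) :
    Wt (z * e) (HS A) ≤ e ^ A * (1 + ∑ A' ∈ Finset.Ico 1 A, e ^ A' * Uw z A A' *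
      ∑ A'' ∈ Finset.range A', Wt (z * e) (HS A'')) := by
  have h := rec_two_exp he hz0 hz hA
  rwa [mul_comm e z] at h

end Pool.Agent.BB
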