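import Pool.Agent.BB.Solve

/-!
# Solution of the recursion with a bound for consecutive bridges that is uniform in the first span
-/

set_option autoImplicit false

open Finset

open scoped ENNReal

namespace Pool.Agent.BB

namespace SolveJ

open Solve

/-- the weighted dyadic sum beyond `4 j` -/
theorem sum_far (m : ℕ) :
    ∑ i ∈ range m, (1 / Real.sqrt 2) ^ i ≤ 7 / 2 * (1 - (1 / Real.sqrt 2) ^ m) := by
  have h : (7 / 5 : ℝ) ≤ Real.sqrt 2 := by
    rw [show (7 / 5 : ℝ) = Real.sqrt ((7 / 5) ^ 2) by rw [Real.sqrt_sq (by norm_num)]]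
    exact Real.sqrt_le_sqrt (by norm_num)
  have h1 : 1 / Real.sqrt 2 ≤ 5 / 7 := by
    rw [div_le_div_iff₀ (by linarith) (by norm_num)]
    linarith
  induction m with
  | zero => simp
  | succ m ih =>
    rw [sum_range_succ, pow_succ]
    have h0 : 0 ≤ (1 / Real.sqrt 2) ^ m := by positivity
    nlinarith

section
variable {k : ℕ} {H J : ℕ → ℝ}

/-- the sum of the near and far parts of `r ^ b * J b` -/
theorem sum_J_le (hJ : ∀ b, 0 ≤ J b) (κ : ℝ) (hκ : 0 ≤ κ) (j : ℕ) (hk : k = 2 ^ j) (t : ℝ)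
    (ht : t = 1 / (k : ℝ) ^ 4)
    (h3 : ∀ L, 1 ≤ L → ∑ b ∈ Ico L (2 * L), J b ≤ κ * (4 * Real.sqrt L)) (N : ℕ) :
    ∑ b ∈ Ico 1 N, Real.exp (-t * b) * J b ≤ 24 * κ * k ^ 2 := by
  have hk0 : (k : ℝ) = 2 ^ j := by
    rw [hk]
    push_cast
    ring
  have hkpos : (0 : ℝ) < k := by
    rw [hk0]
    positivity
  have ht0 : 0 < t := by
    rw [ht]
    positivity
  have hs : (0 : ℝ) < Real.sqrt 2 := by positivity
  have hs2 : Real.sqrt 2 ^ (4 * j) = (k : ℝ) ^ 2 := by
    rw [show 4 * j = 2 * (2 * j) by ring, pow_mul, Real.sq_sqrt (by norm_num), hk0]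
    ring
  -- one dyadic block
  have hblock : ∀ (c : ℝ) (L : ℕ), 1 ≤ L → 0 ≤ c → Real.exp (-t * L) ≤ c →
      ∑ b ∈ Ico L (2 * L), Real.exp (-t * b) * J b ≤ c * (κ * (4 * Real.sqrt L)) := by
    intro c L hL hc0 hc
    calc ∑ b ∈ Ico L (2 * L), Real.exp (-t * b) * J b
        ≤ ∑ b ∈ Ico L (2 * L), c * J b := by
          refine sum_le_sum fun b hb => mul_le_mul_of_nonneg_right ?_ (hJ b)
          rw [mem_Ico] at hb
          refine (Real.exp_le_exp.mpr ?_).trans hc
          have : (L : ℝ) ≤ b := by exact_mod_cast hb.1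
          nlinarith
      _ = c * ∑ b ∈ Ico L (2 * L), J b := by rw [mul_sum]
      _ ≤ c * (κ * (4 * Real.sqrt L)) := mul_le_mul_of_nonneg_left (h3 L hL) hc0
  -- a sum up to a power of two
  have hpow : ∀ m : ℕ, ∑ b ∈ (Ico 1 (2 ^ (4 * j + m)) : Finset ℕ), Real.exp (-t * b) * J b ≤
      24 * κ * k ^ 2 := by
    intro m
    rw [sum_dyadic (fun b => Real.exp (-t * (b : ℕ)) * J b), sum_range_add]
    have h1 : ∑ i ∈ range (4 * j), ∑ b ∈ (Ico (2 ^ i) (2 * 2 ^ i) : Finset ℕ),
        Real.exp (-t * b) * J b ≤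
        κ * 4 * (5 / 2 * k ^ 2) := by
      calc _ ≤ ∑ i ∈ range (4 * j), κ * 4 * Real.sqrt 2 ^ i := by
            refine sum_le_sum fun i _ => ?_
            have := hblock 1 (2 ^ i) Nat.one_le_two_pow (by norm_num)
              (Real.exp_le_one_iff.mpr (by
                have : 0 ≤ t * ((2 ^ i : ℕ) : ℝ) := by positivity
                linarith))
            rw [sqrt_two_pow] at this
            linarith
        _ = κ * 4 * ∑ i ∈ range (4 * j), Real.sqrt 2 ^ i := by rw [mul_sum]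
        _ ≤ κ * 4 * (5 / 2 * Real.sqrt 2 ^ (4 * j)) :=
            mul_le_mul_of_nonneg_left (sum_sqrt_two _) (by positivity)
        _ = _ := by rw [hs2]
    have h2 : ∑ i ∈ range m, ∑ b ∈ (Ico (2 ^ (4 * j + i)) (2 * 2 ^ (4 * j + i)) :
        Finset ℕ), Real.exp (-t * b) * J b ≤ κ * 4 * (7 / 2 * k ^ 2) := by
      calc _ ≤ ∑ i ∈ range m, κ * 4 * k ^ 2 * (1 / Real.sqrt 2) ^ i := by
            refine sum_le_sum fun i _ => ?_
            have he : Real.exp (-t * ((2 ^ (4 * j + i) : ℕ) : ℝ)) ≤ 1 / 2 ^ i := by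
              have e1 : t * ((2 ^ (4 * j + i) : ℕ) : ℝ) = 2 ^ i := by
                rw [ht, hk0]
                push_cast
                rw [pow_add, ← pow_mul, mul_comm j 4]
                field_simp
              rw [show -t * ((2 ^ (4 * j + i) : ℕ) : ℝ) = -((2 : ℝ) ^ i) by rw [← e1]; ring,
                Real.exp_neg, one_div]
              refine inv_anti₀ (by positivity) ?_
              have := Real.add_one_le_exp ((2 : ℝ) ^ i)
              linarith
            have := hblock (1 / 2 ^ i) (2 ^ (4 * j + i)) Nat.one_le_two_pow (by positivity) he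
            have hsq : Real.sqrt ((2 ^ (4 * j + i) : ℕ) : ℝ) = k ^ 2 * Real.sqrt 2 ^ i := by
              rw [sqrt_two_pow, pow_add, hs2]
            rw [hsq] at this
            refine this.trans (le_of_eq ?_)
            have e2 : (2 : ℝ) ^ i = Real.sqrt 2 ^ i * Real.sqrt 2 ^ i := by
              rw [← mul_pow, Real.mul_self_sqrt (by norm_num)]
            rw [e2, one_div_pow]
            have : Real.sqrt 2 ^ i ≠ 0 := by positivity
            field_simp
        _ = κ * 4 * k ^ 2 * ∑ i ∈ range m, (1 / Real.sqrt 2) ^ i := by rw [mul_sum]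
        _ ≤ κ * 4 * k ^ 2 * (7 / 2) := by
            refine mul_le_mul_of_nonneg_left ?_ (by positivity)
            refine (sum_far m).trans ?_
            have : 0 ≤ (1 / Real.sqrt 2) ^ m := by positivity
            linarith
        _ = _ := by ring
    linarith
  -- monotonicity
  refine le_trans ?_ (hpow N)
  refine sum_le_sum_of_subset_of_nonneg ?_ fun b _ _ => mul_nonneg (Real.exp_pos _).le (hJ b)
  refine Ico_subset_Ico le_rfl ?_
  calc N ≤ 2 ^ N := Nat.lt_two_pow_self.le
    _ ≤ 2 ^ (4 * j + N) := Nat.pow_le_pow_right (by norm_num) (by omega)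

/-- the sum `1 + ∑ r ^ b J b Z b` -/
noncomputable def S (t : ℝ) (H J : ℕ → ℝ) (A : ℕ) : ℝ :=
  1 + ∑ b ∈ Ico 1 A, Real.exp (-t * b) * J b * Z H b

theorem S_succ (t : ℝ) (A : ℕ) (hA : 1 ≤ A) :
    S t H J (A + 1) = S t H J A + Real.exp (-t * A) * J A * Z H A := by
  unfold S
  rw [sum_Ico_succ_top hA]
  ring

/-- **real form** -/
theorem main (hH : ∀ A, 0 ≤ H A) (hJ : ∀ b, 0 ≤ J b) (h0 : H 0 ≤ 1) (κ : ℝ) (hκ : 0 ≤ κ) (j : ℕ)
    (hk : k = 2 ^ j) (t : ℝ) (ht : t = 1 / (k : ℝ) ^ 4)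
    (h2 : ∀ A, 1 ≤ A → H A ≤ Real.exp (-t * A) * S t H J A)
    (h3 : ∀ L, 1 ≤ L → ∑ b ∈ Ico L (2 * L), J b ≤ κ * (4 * Real.sqrt L)) (N : ℕ) :
    Z H N ≤ (1 + k) * Real.exp ((1 + 24 * κ) * k ^ 3) := by
  have hk1 : 1 ≤ k := by
    rw [hk]
    exact Nat.one_le_two_pow
  have hkr : (1 : ℝ) ≤ k := by exact_mod_cast hk1
  have ht0 : 0 < t := by
    rw [ht]
    positivity
  have hZ0 : ∀ A, 0 ≤ Z H A := fun A => sum_nonneg fun i _ => hH i
  have hS0 : ∀ A, 0 ≤ S t H J A := fun A => by
    unfold S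
    have : 0 ≤ ∑ b ∈ Ico 1 A, Real.exp (-t * b) * J b * Z H b :=
      sum_nonneg fun b _ => mul_nonneg (mul_nonneg (Real.exp_pos _).le (hJ b)) (hZ0 b)
    linarith
  have key : ∀ M : ℕ, Z H (M + 1) + k * S t H J (M + 1) ≤ (1 + k) *
      Real.exp (∑ A ∈ Ico 1 (M + 1), (Real.exp (-t * A) / k + k * (Real.exp (-t * A) * J A))) := by
    intro M
    induction M with
    | zero =>
      have e1 : Z H 1 = H 0 := by
        unfold Z
        rw [sum_range_one]
      have e2 : S t H J 1 = 1 := by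
        unfold S
        simp
      simp only [zero_add, e1, e2, Ico_self, sum_empty, Real.exp_zero]
      linarith
    | succ M ih =>
      rw [Z_succ, S_succ t (M + 1) (by omega), sum_Ico_succ_top (by omega), Real.exp_add]
      have h := h2 (M + 1) (by omega)
      set x := Real.exp (-t * (M + 1 : ℕ)) with hx
      have hx0 : 0 < x := Real.exp_pos _
      set F := Z H (M + 1) + k * S t H J (M + 1) with hF
      have hF0 : 0 ≤ F := by
        have := hZ0 (M + 1)
        have := hS0 (M + 1)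
        positivity
      have hx1 : 0 ≤ x / k + k * (x * J (M + 1)) := by
        have := hJ (M + 1)
        positivity
      have h4 := Real.add_one_le_exp (x / k + k * (x * J (M + 1)))
      have h5 : Z H (M + 1) + H (M + 1) + k * (S t H J (M + 1) + x * J (M + 1) * Z H (M + 1)) ≤
          F * (x / k + k * (x * J (M + 1)) + 1) := by
        have e : F * (x / k + k * (x * J (M + 1)) + 1) = F + x * S t H J (M + 1) +
            k * (x * J (M + 1)) * Z H (M + 1) + (Z H (M + 1) * (x / k) +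
            k * S t H J (M + 1) * (k * (x * J (M + 1)))) := by
          rw [hF]
          field_simp
          ring
        have h6 : 0 ≤ Z H (M + 1) * (x / k) + k * S t H J (M + 1) * (k * (x * J (M + 1))) := by
          have := hZ0 (M + 1)
          have := hS0 (M + 1)
          have := hJ (M + 1)
          positivity
        rw [e]
        rw [hF]
        linarith
      refine h5.trans ?_
      calc F * (x / k + k * (x * J (M + 1)) + 1)
          ≤ F * Real.exp (x / k + k * (x * J (M + 1))) := mul_le_mul_of_nonneg_left h4 hF0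
        _ ≤ _ := by
            rw [← mul_assoc (1 + (k : ℝ))]
            exact mul_le_mul_of_nonneg_right ih (Real.exp_pos _).le
  have h7 : Z H N ≤ Z H (N + 1) := Z_mono hH (by omega)
  have h8 : Z H (N + 1) ≤ Z H (N + 1) + k * S t H J (N + 1) := by
    have := hS0 (N + 1)
    have : 0 ≤ (k : ℝ) * S t H J (N + 1) := by positivity
    linarith
  refine h7.trans (h8.trans ((key N).trans ?_))
  refine mul_le_mul_of_nonneg_left (Real.exp_le_exp.mpr ?_) (by positivity)
  rw [sum_add_distrib, ← sum_div, ← mul_sum]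
  have h9 : ∑ A ∈ Ico 1 (N + 1), Real.exp (-t * A) ≤ k ^ 4 := by
    have := tail_sum t ht0 0 (N + 1)
    simp only [zero_add, Nat.cast_zero, mul_zero, Real.exp_zero] at this
    refine this.trans (le_of_eq ?_)
    rw [ht, one_div_one_div]
  have h10 := sum_J_le hJ κ hκ j hk t ht h3 (N + 1)
  have h11 : (∑ A ∈ Ico 1 (N + 1), Real.exp (-t * A)) / k ≤ k ^ 3 := by
    rw [div_le_iff₀ (by linarith)]
    refine h9.trans (le_of_eq (by ring))
  have h12 : (k : ℝ) * ∑ b ∈ Ico 1 (N + 1), Real.exp (-t * b) * J b ≤ k * (24 * κ * k ^ 2) :=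
    mul_le_mul_of_nonneg_left h10 (by linarith)
  calc _ ≤ (k : ℝ) ^ 3 + k * (24 * κ * k ^ 2) := add_le_add h11 h12
    _ = _ := by ring

end

end SolveJ

/-- **The recursion with the uniform bound** -/
theorem solveJ (κ : ℝ) (hκ : 0 < κ) (j k : ℕ) (hk : k = 2 ^ j) (t : ℝ) (ht : t = 1 / (k : ℝ) ^ 4)
    (H J : ℕ → ℝ≥0∞) (hH0 : H 0 ≤ 1)
    (h2 : ∀ A, 1 ≤ A → H A ≤ ENNReal.ofReal (Real.exp (-t)) ^ A *
      (1 + ∑ A' ∈ Finset.Ico 1 A, ENNReal.ofReal (Real.exp (-t)) ^ A' * J A' *
        ∑ A'' ∈ Finset.range A', H A''))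
    (h3 : ∀ L, 1 ≤ L → ∑ b ∈ Finset.Ico L (2 * L), J b ≤ ENNReal.ofReal (κ * (4 * √(L : ℝ)))) :
    ∑' A, H A ≤ ENNReal.ofReal ((1 + k) * Real.exp ((1 + 24 * κ) * (k : ℝ) ^ 3)) := by
  have e : ∀ A : ℕ, ENNReal.ofReal (Real.exp (-t)) ^ A = ENNReal.ofReal (Real.exp (-t * A)) := by
    intro A
    rw [← ENNReal.ofReal_pow (Real.exp_pos _).le, ← Real.exp_nat_mul]
    congr 2
    ring
  simp only [e] at h2
  have hJfin : ∀ b, 1 ≤ b → J b ≠ ∞ := by
    intro b hb
    refine ne_top_of_le_ne_top ENNReal.ofReal_ne_top (le_trans ?_ (h3 b hb))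
    exact single_le_sum (f := J) (fun _ _ => bot_le) (mem_Ico.mpr ⟨le_rfl, by omega⟩)
  have hsumfin : ∀ A, (∀ i < A, H i ≠ ∞) →
      ∑ A' ∈ Finset.Ico 1 A, ENNReal.ofReal (Real.exp (-t * A')) * J A' *
        ∑ A'' ∈ Finset.range A', H A'' ≠ ∞ := by
    intro A hA
    rw [ENNReal.sum_ne_top]
    intro b hb
    rw [mem_Ico] at hb
    refine ENNReal.mul_ne_top (ENNReal.mul_ne_top ENNReal.ofReal_ne_top (hJfin b hb.1)) ?_
    rw [ENNReal.sum_ne_top]
    intro i hi
    rw [mem_range] at hi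
    exact hA i (by omega)
  have hfin : ∀ A, H A ≠ ∞ := by
    intro A
    induction A using Nat.strong_induction_on with
    | _ A ih =>
      rcases Nat.eq_zero_or_pos A with h | h
      · rw [h]
        exact ne_top_of_le_ne_top ENNReal.one_ne_top hH0
      · refine ne_top_of_le_ne_top ?_ (h2 A h)
        refine ENNReal.mul_ne_top ENNReal.ofReal_ne_top ?_
        exact ENNReal.add_ne_top.mpr ⟨ENNReal.one_ne_top, hsumfin A ih⟩
  set h : ℕ → ℝ := fun A => (H A).toReal with hh
  set v : ℕ → ℝ := fun b => (J b).toReal with hv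
  have hZ : ∀ A, (∑ i ∈ range A, H i).toReal = Solve.Z h A := by
    intro A
    rw [ENNReal.toReal_sum fun i _ => hfin i]
    rfl
  have hZfin : ∀ A, ∑ i ∈ range A, H i ≠ ∞ := by
    intro A
    rw [ENNReal.sum_ne_top]
    exact fun i _ => hfin i
  have main := SolveJ.main (k := k) (H := h) (J := v) (fun A => ENNReal.toReal_nonneg)
    (fun b => ENNReal.toReal_nonneg)
    (by
      have := ENNReal.toReal_mono ENNReal.one_ne_top hH0
      simpa using this)
    κ hκ.le j hk t ht
    (fun A hA => by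
      have hs := hsumfin A fun i _ => hfin i
      have h1 := ENNReal.toReal_mono (ENNReal.mul_ne_top ENNReal.ofReal_ne_top
        (ENNReal.add_ne_top.mpr ⟨ENNReal.one_ne_top, hs⟩)) (h2 A hA)
      rw [ENNReal.toReal_mul, ENNReal.toReal_ofReal (Real.exp_pos _).le,
        ENNReal.toReal_add ENNReal.one_ne_top hs, ENNReal.toReal_sum] at h1
      · refine h1.trans (le_of_eq ?_)
        congr 1
        unfold SolveJ.S
        rw [ENNReal.toReal_one]
        congr 1
        refine sum_congr rfl fun b _ => ?_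
        rw [ENNReal.toReal_mul, ENNReal.toReal_mul, ENNReal.toReal_ofReal (Real.exp_pos _).le, hZ]
      · exact ENNReal.sum_ne_top.mp hs)
    (fun L hL => by
      have hf : ∀ b ∈ Ico L (2 * L), J b ≠ ∞ := by
        intro b hb
        rw [mem_Ico] at hb
        exact hJfin b (by omega)
      have h1 := ENNReal.toReal_mono ENNReal.ofReal_ne_top (h3 L hL)
      rw [ENNReal.toReal_sum hf, ENNReal.toReal_ofReal (by positivity)] at h1
      exact h1)
  refine ENNReal.tsum_le_of_sum_range_le fun N => ?_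
  rw [ENNReal.le_ofReal_iff_toReal_le (hZfin N) (by positivity), hZ]
  exact main N

end Pool.Agent.BB
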