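import Pool.Agent.BB.Pairs
import Pool.Agent.BB.SolveJ
import Pool.Agent.BB.HW
import Pool.Agent.BB.Cut
import Pool.Agent.BB.FeketeCw
import Pool.Agent.BB.Count

set_option autoImplicit false

open scoped ENNReal
open Filter Topology Pool.Agent.SawTree

namespace Pool.Agent.BB

/-- the bound at the scale `k = 2 ^ j` -/
theorem cw_le_scale (μ : ℝ) (hμ : 0 < μ)
    (h : Tendsto (fun n : ℕ => (cw n : ℝ) ^ (1 / (n : ℝ))) atTop (𝓝 μ))
    (j k n : ℕ) (hk : k = 2 ^ j) (hn : n ≤ k ^ 7) :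
    (cw n : ℝ) ≤ μ ^ n * Real.exp ((6 + 49 * μ) * (k : ℝ) ^ 3) := by
  set t : ℝ := 1 / (k : ℝ) ^ 4 with ht
  set z : ℝ≥0∞ := ENNReal.ofReal (1 / μ) with hz
  set e : ℝ≥0∞ := ENNReal.ofReal (Real.exp (-t)) with he
  have hk1 : (1 : ℝ) ≤ k := by
    have : 1 ≤ k := by rw [hk]; exact Nat.one_le_two_pow
    exact_mod_cast this
  have ht0 : 0 < t := by positivity
  have hz0 : 0 < z := by
    rw [hz, ENNReal.ofReal_pos]; positivity
  have hzc : z ≤ crit := inv_mu_le_crit μ hμ h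
  have he1 : e ≤ 1 := by
    rw [he]
    apply ENNReal.ofReal_le_one.mpr
    apply Real.exp_le_one_iff.mpr
    linarith
  have hzinv : z⁻¹ = ENNReal.ofReal μ := by
    rw [hz, ← ENNReal.ofReal_inv_of_pos (by positivity)]
    simp
  have hsum : ∑' A, Wt (z * e) (HS A) ≤
      ENNReal.ofReal ((1 + k) * Real.exp ((1 + 24 * μ) * (k : ℝ) ^ 3)) := by
    apply solveJ μ hμ j k hk t ht (fun A => Wt (z * e) (HS A)) (fun b => Jw z b)
    · exact Wt_HS_zero _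
    · intro A hA
      refine le_trans (HS_le_pairs_exp z e hz0 hzc he1 A hA) ?_
      gcongr with A' hA'
      rw [Finset.mem_Ico] at hA'
      exact Uw_le_Jw z hz0 hzc A A' hA'.1 hA'.2
    · intro L hL
      refine le_trans (dyadic_Jw_le z hz0 hzc L hL) ?_
      rw [hzinv, ← ENNReal.ofReal_mul hμ.le]
  have hcut := saw_le_HS_sq (z * e) n
  have hze : z * e = ENNReal.ofReal (1 / μ * Real.exp (-t)) := by
    rw [hz, he, ← ENNReal.ofReal_mul (by positivity)]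
  have hW : z * e * Wt (z * e) {u : Wd | Saw u ∧ u.length = n}
      = ENNReal.ofReal ((cw n : ℝ) * (1 / μ * Real.exp (-t)) ^ (n + 1)) := by
    rw [Wt_saw_len, hze, ENNReal.ofReal_mul (p := (cw n : ℝ)) (by positivity),
      ENNReal.ofReal_pow (by positivity), ENNReal.ofReal_natCast, pow_succ]
    ring
  rw [hW] at hcut
  have hreal : (cw n : ℝ) * (1 / μ * Real.exp (-t)) ^ (n + 1)
      ≤ ((1 + k) * Real.exp ((1 + 24 * μ) * (k : ℝ) ^ 3)) ^ 2 := by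
    have h1 : ENNReal.ofReal ((cw n : ℝ) * (1 / μ * Real.exp (-t)) ^ (n + 1)) ≤
        ENNReal.ofReal (((1 + k) * Real.exp ((1 + 24 * μ) * (k : ℝ) ^ 3)) ^ 2) := by
      refine le_trans hcut ?_
      rw [ENNReal.ofReal_pow (by positivity)]
      gcongr
    exact (ENNReal.ofReal_le_ofReal_iff (by positivity)).mp h1
  -- real arithmetic
  have hk3 : (1 : ℝ) ≤ (k : ℝ) ^ 3 := one_le_pow₀ hk1
  have hnk : (n : ℝ) ≤ (k : ℝ) ^ 7 := by exact_mod_cast hn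
  have htn : t * (n + 1) ≤ 2 * (k : ℝ) ^ 3 := by
    rw [ht, div_mul_eq_mul_div, one_mul, div_le_iff₀ (by positivity)]
    have h7 : (1 : ℝ) ≤ (k : ℝ) ^ 7 := one_le_pow₀ hk1
    nlinarith [hnk, h7]
  have hpos : 0 < (1 / μ * Real.exp (-t)) ^ (n + 1) := by positivity
  have hinv : (1 / μ * Real.exp (-t)) ^ (n + 1) * (μ ^ (n + 1) * Real.exp (t * (n + 1))) = 1 := by
    rw [mul_pow, ← Real.exp_nat_mul]
    have : (1 / μ) ^ (n + 1) * Real.exp (((n + 1 : ℕ) : ℝ) * -t) *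
        (μ ^ (n + 1) * Real.exp (t * (n + 1)))
        = ((1 / μ) * μ) ^ (n + 1) * (Real.exp (((n + 1 : ℕ) : ℝ) * -t)
          * Real.exp (t * (n + 1))) := by
      rw [mul_pow]; ring
    rw [this, ← Real.exp_add, one_div_mul_cancel hμ.ne']
    push_cast
    have : ((n : ℝ) + 1) * -t + t * (n + 1) = 0 := by ring
    rw [this]; simp
  have hc : (cw n : ℝ) ≤ ((1 + k) * Real.exp ((1 + 24 * μ) * (k : ℝ) ^ 3)) ^ 2 *
      (μ ^ (n + 1) * Real.exp (t * (n + 1))) := by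
    calc (cw n : ℝ) = (cw n : ℝ) * ((1 / μ * Real.exp (-t)) ^ (n + 1) *
          (μ ^ (n + 1) * Real.exp (t * (n + 1)))) := by rw [hinv, mul_one]
      _ = ((cw n : ℝ) * (1 / μ * Real.exp (-t)) ^ (n + 1)) *
          (μ ^ (n + 1) * Real.exp (t * (n + 1))) := by ring
      _ ≤ _ := mul_le_mul_of_nonneg_right hreal (by positivity)
  refine le_trans hc ?_
  have h1k : (1 + (k : ℝ)) ≤ Real.exp ((k : ℝ) ^ 3) := by
    have h2 := Real.add_one_le_exp (k : ℝ)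
    have h3 : Real.exp (k : ℝ) ≤ Real.exp ((k : ℝ) ^ 3) := by
      apply Real.exp_le_exp.mpr
      nlinarith [sq_nonneg ((k : ℝ) - 1), hk1, mul_nonneg (by linarith : (0 : ℝ) ≤ (k : ℝ)) (by nlinarith : (0 : ℝ) ≤ (k : ℝ) ^ 2 - 1)]
    linarith
  have hmu : μ ≤ Real.exp (μ * (k : ℝ) ^ 3) := by
    have h2 := Real.add_one_le_exp (μ * (k : ℝ) ^ 3)
    nlinarith
  calc ((1 + (k : ℝ)) * Real.exp ((1 + 24 * μ) * (k : ℝ) ^ 3)) ^ 2 *
      (μ ^ (n + 1) * Real.exp (t * (n + 1)))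
      ≤ (Real.exp ((k : ℝ) ^ 3) * Real.exp ((1 + 24 * μ) * (k : ℝ) ^ 3)) ^ 2 *
      ((μ ^ n * Real.exp (μ * (k : ℝ) ^ 3)) * Real.exp (2 * (k : ℝ) ^ 3)) := by
        rw [pow_succ μ n]
        gcongr
    _ = μ ^ n * Real.exp ((6 + 49 * μ) * (k : ℝ) ^ 3) := by
        rw [← Real.exp_add, ← Real.exp_nat_mul]
        have : Real.exp ((6 + 49 * μ) * (k : ℝ) ^ 3) =
            Real.exp (((2 : ℕ) : ℝ) * ((k : ℝ) ^ 3 + (1 + 24 * μ) * (k : ℝ) ^ 3)) *
              (Real.exp (μ * (k : ℝ) ^ 3) * Real.exp (2 * (k : ℝ) ^ 3)) := by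
          rw [← Real.exp_add, ← Real.exp_add]
          congr 1
          push_cast
          ring
        rw [this]
        ring

/-- The improved Hammersley-Welsh bound, for words. -/
theorem cw_le (μ : ℝ) (hμ : 0 < μ)
    (h : Tendsto (fun n : ℕ => (cw n : ℝ) ^ (1 / (n : ℝ))) atTop (𝓝 μ)) (n : ℕ) (hn : 1 ≤ n) :
    (cw n : ℝ) ≤ μ ^ n * Real.exp (8 * (6 + 49 * μ) * (n : ℝ) ^ ((3 : ℝ) / 7)) := by
  classical
  have hex : ∃ j : ℕ, n ≤ (2 ^ j) ^ 7 := by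
    refine ⟨n, ?_⟩
    calc n ≤ 2 ^ n := Nat.lt_two_pow_self.le
      _ ≤ (2 ^ n) ^ 7 := Nat.le_self_pow (by norm_num) _
  set j := Nat.find hex with hj
  have hj1 : n ≤ (2 ^ j) ^ 7 := Nat.find_spec hex
  refine le_trans (cw_le_scale μ hμ h j (2 ^ j) n rfl hj1) ?_
  have hk : ((2 ^ j : ℕ) : ℝ) ^ 3 ≤ 8 * (n : ℝ) ^ ((3 : ℝ) / 7) := by
    have hn1 : (1 : ℝ) ≤ n := by exact_mod_cast hn
    have hp1 : (1 : ℝ) ≤ (n : ℝ) ^ ((3 : ℝ) / 7) := Real.one_le_rpow hn1 (by norm_num)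
    rcases Nat.eq_zero_or_pos j with h0 | h0
    · rw [h0]; simp; linarith
    · have hlt : (2 ^ (j - 1)) ^ 7 < n := by
        have := Nat.find_min hex (m := j - 1) (by omega)
        push Not at this
        exact this
      have hlt' : ((2 : ℝ) ^ (j - 1)) ^ 7 ≤ n := by exact_mod_cast hlt.le
      have h2 : ((2 : ℝ) ^ (j - 1)) ^ 3 ≤ (n : ℝ) ^ ((3 : ℝ) / 7) := by
        have h3 : ((2 : ℝ) ^ (j - 1)) ^ 3 = ((((2 : ℝ) ^ (j - 1)) ^ 7)) ^ ((3 : ℝ) / 7) := by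
          rw [← Real.rpow_natCast _ 7, ← Real.rpow_mul (by positivity)]
          norm_num
        rw [h3]
        exact Real.rpow_le_rpow (by positivity) hlt' (by norm_num)
      have h4 : ((2 ^ j : ℕ) : ℝ) = 2 * (2 : ℝ) ^ (j - 1) := by
        push_cast
        rw [← pow_succ']
        congr 1
        omega
      rw [h4, mul_pow]
      linarith
  have hc : 0 < 6 + 49 * μ := by positivity
  apply mul_le_mul_of_nonneg_left _ (by positivity)
  apply Real.exp_le_exp.mpr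
  calc (6 + 49 * μ) * (((2 ^ j : ℕ) : ℝ)) ^ 3 ≤ (6 + 49 * μ) * (8 * (n : ℝ) ^ ((3 : ℝ) / 7)) := by
        gcongr
    _ = 8 * (6 + 49 * μ) * (n : ℝ) ^ ((3 : ℝ) / 7) := by ring

end Pool.Agent.BB
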