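import Pool.Agent.BB.Defs

set_option autoImplicit false

open scoped ENNReal
open Filter Topology Pool.Agent.SawTree

namespace Pool.Agent.BB

variable {β γ ι : Type}

lemma wsum_le_of_injOn {S : Set β} {T : Set γ} {f : β → ℝ≥0∞} {g : γ → ℝ≥0∞} (φ : β → γ)
    (hm : ∀ x ∈ S, φ x ∈ T) (hi : ∀ x ∈ S, ∀ y ∈ S, φ x = φ y → x = y)
    (hw : ∀ x ∈ S, f x ≤ g (φ x)) : wsum S f ≤ wsum T g := by
  unfold wsum
  let ψ : S → T := fun x => ⟨φ x, hm x x.2⟩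
  have hψ : Function.Injective ψ := by
    intro x y h
    apply Subtype.ext
    exact hi x x.2 y y.2 (congrArg (fun t : T => (t : γ)) h)
  calc ∑' x : S, f (x : β) ≤ ∑' x : S, g ((ψ x : T) : γ) :=
        ENNReal.tsum_le_tsum (fun x => hw x x.2)
    _ ≤ ∑' y : T, g (y : γ) := ENNReal.tsum_comp_le_tsum_of_injective hψ (fun y : T => g (y : γ))

lemma wsum_mono {S T : Set β} {f g : β → ℝ≥0∞} (h : S ⊆ T) (hfg : ∀ x ∈ S, f x ≤ g x) :
    wsum S f ≤ wsum T g :=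
  wsum_le_of_injOn id (fun x hx => h hx) (fun _ _ _ _ h => h) hfg

lemma wsum_congr {S : Set β} {f g : β → ℝ≥0∞} (hfg : ∀ x ∈ S, f x = g x) :
    wsum S f = wsum S g := by
  unfold wsum
  congr 1
  funext x
  exact hfg x x.2

lemma wsum_mul_left (c : ℝ≥0∞) (S : Set β) (f : β → ℝ≥0∞) :
    wsum S (fun x => c * f x) = c * wsum S f := by
  unfold wsum
  exact ENNReal.tsum_mul_left

lemma wsum_prod (S : Set β) (T : Set γ) (f : β → ℝ≥0∞) (g : γ → ℝ≥0∞) :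
    wsum (S ×ˢ T) (fun p => f p.1 * g p.2) = wsum S f * wsum T g := by
  unfold wsum
  rw [← ENNReal.tsum_mul_right]
  have h : ∀ x : S, f (x : β) * (∑' y : T, g (y : γ)) = ∑' y : T, f (x : β) * g (y : γ) :=
    fun x => ENNReal.tsum_mul_left.symm
  simp_rw [h]
  rw [← ENNReal.tsum_prod (f := fun (x : S) (y : T) => f (x : β) * g (y : γ))]
  exact (Equiv.Set.prod S T).tsum_eq (fun p : S × T => f (p.1 : β) * g (p.2 : γ))

lemma wsum_sigma (s : Finset ι) (S : ι → Set β) (f : ι → β → ℝ≥0∞) :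
    wsum {p : ι × β | p.1 ∈ s ∧ p.2 ∈ S p.1} (fun p => f p.1 p.2) = ∑ i ∈ s, wsum (S i) (f i) := by
  classical
  unfold wsum
  rw [← Finset.tsum_subtype s (fun i => ∑' x : S i, f i (x : β))]
  rw [← ENNReal.tsum_sigma (fun (i : {x // x ∈ s}) (x : S i.1) => f i.1 (x : β))]
  let e : {p : ι × β | p.1 ∈ s ∧ p.2 ∈ S p.1} ≃ (Σ i : {x // x ∈ s}, S i.1) :=
    { toFun := fun p => ⟨⟨p.1.1, p.2.1⟩, ⟨p.1.2, p.2.2⟩⟩
      invFun := fun q => ⟨(q.1.1, q.2.1), ⟨q.1.2, q.2.2⟩⟩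
      left_inv := fun p => rfl
      right_inv := fun q => rfl }
  exact e.tsum_eq (fun q : (Σ i : {x // x ∈ s}, S i.1) => f q.1.1 (q.2.1 : β))

lemma wsum_union_le (S T : Set β) (f : β → ℝ≥0∞) : wsum (S ∪ T) f ≤ wsum S f + wsum T f :=
  ENNReal.tsum_union_le f S T

lemma wsum_biUnion_le (s : Finset ι) (S : ι → Set β) (f : β → ℝ≥0∞) :
    wsum {x | ∃ i ∈ s, x ∈ S i} f ≤ ∑ i ∈ s, wsum (S i) f := by
  classical
  rw [← wsum_sigma s S (fun _ => f)]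
  have hch : ∀ x : β, ∃ i : Option ι, (∃ i ∈ s, x ∈ S i) → ∃ j, i = some j ∧ j ∈ s ∧ x ∈ S j := by
    intro x
    by_cases h : ∃ i ∈ s, x ∈ S i
    · obtain ⟨i, hi, hx⟩ := h
      exact ⟨some i, fun _ => ⟨i, rfl, hi, hx⟩⟩
    · exact ⟨none, fun h' => absurd h' h⟩
  by_cases hne : Nonempty ι
  · have hch2 : ∀ x : β, ∃ j : ι, (∃ i ∈ s, x ∈ S i) → j ∈ s ∧ x ∈ S j := by
      intro x
      by_cases h : ∃ i ∈ s, x ∈ S i
      · obtain ⟨i, hi, hx⟩ := h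
        exact ⟨i, fun _ => ⟨hi, hx⟩⟩
      · exact ⟨hne.some, fun h' => absurd h' h⟩
    choose c hc using hch2
    apply wsum_le_of_injOn (fun x => (c x, x))
    · intro x hx
      exact hc x hx
    · intro x _ y _ h
      exact congrArg Prod.snd h
    · intro x _
      exact le_rfl
  · have : {x | ∃ i ∈ s, x ∈ S i} = (∅ : Set β) := by
      ext x
      simp only [Set.mem_setOf_eq, Set.mem_empty_iff_false, iff_false]
      rintro ⟨i, _⟩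
      exact hne ⟨i⟩
    rw [this]
    unfold wsum
    simp

lemma sum_wsum_le_of_disj (s : Finset ι) (S : ι → Set β) (T : Set β) (f : β → ℝ≥0∞)
    (hT : ∀ i ∈ s, S i ⊆ T) (hd : ∀ i ∈ s, ∀ j ∈ s, ∀ x ∈ S i, x ∈ S j → i = j) :
    ∑ i ∈ s, wsum (S i) f ≤ wsum T f := by
  rw [← wsum_sigma s S (fun _ => f)]
  apply wsum_le_of_injOn Prod.snd
  · rintro ⟨i, x⟩ ⟨hi, hx⟩
    exact hT i hi hx
  · rintro ⟨i, x⟩ ⟨hi, hx⟩ ⟨j, y⟩ ⟨hj, hy⟩ h
    have h' : x = y := h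
    subst h'
    exact Prod.ext (hd i hi j hj x hx hy) rfl
  · rintro ⟨i, x⟩ _
    exact le_rfl

lemma Wt_eq_wsum (z : ℝ≥0∞) (S : Set Wd) : Wt z S = wsum S (fun u => z ^ u.length) := rfl

/-- countable version of `wsum_sigma` -/
lemma wsum_sigma' (S : ι → Set β) (f : ι → β → ℝ≥0∞) :
    wsum {p : ι × β | p.2 ∈ S p.1} (fun p => f p.1 p.2) = ∑' i, wsum (S i) (f i) := by
  unfold wsum
  rw [← ENNReal.tsum_sigma (fun (i : ι) (x : S i) => f i (x : β))]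
  let e : {p : ι × β | p.2 ∈ S p.1} ≃ (Σ i : ι, S i) :=
    { toFun := fun p => ⟨p.1.1, ⟨p.1.2, p.2⟩⟩
      invFun := fun q => ⟨(q.1, q.2.1), q.2.2⟩
      left_inv := fun p => rfl
      right_inv := fun q => rfl }
  exact e.tsum_eq (fun q : (Σ i : ι, S i) => f q.1 (q.2.1 : β))

end Pool.Agent.BB
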