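import Pool.Agent.BB.DefsJ
import Pool.Agent.BB.Wsum

set_option autoImplicit false

open scoped ENNReal
open Filter Topology Pool.Agent.SawTree

namespace Pool.Agent.BB

variable {α : Type} (ht : α → ℕ) (w : α → ℝ≥0∞)

lemma win_hL_cons (a : α) (l : List α) : hL ht (a :: l) = ht a + hL ht l := by simp [hL]
lemma win_hL_append (l m : List α) : hL ht (l ++ m) = hL ht l + hL ht m := by simp [hL]
lemma win_wL_cons (a : α) (l : List α) : wL w (a :: l) = w a * wL w l := by simp [wL]
lemma win_wL_append (l m : List α) : wL w (l ++ m) = wL w l * wL w m := by simp [wL]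

lemma win_hL_pos (hht : ∀ a, 1 ≤ ht a) {l : List α} (h : l ≠ []) : 1 ≤ hL ht l := by
  cases l with
  | nil => exact absurd rfl h
  | cons a l => rw [win_hL_cons]; have := hht a; omega

theorem Bw_zero (hht : ∀ a, 1 ≤ ht a) : Bw ht w 0 = 1 := by
  have h : {l : List α | hL ht l = 0} = {[]} := by
    ext l
    constructor
    · intro hl
      by_contra hne
      have := win_hL_pos ht hht hne
      have hl' : hL ht l = 0 := hl
      omega
    · intro hl
      have : l = [] := hl
      rw [this]; rfl
  unfold Bw wsum
  rw [h, tsum_eq_single ⟨[], rfl⟩]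
  · simp [wL]
  · intro b hb
    exact absurd (Subtype.ext (Set.mem_singleton_iff.mp b.2)) hb

theorem Vset_le_one (hht : ∀ a, 1 ≤ ht a) (hw : ∑' a, w a ≤ 1) (m : ℕ) :
    wsum (Vset ht m) (wL w) ≤ 1 := by
  induction m using Nat.strong_induction_on with
  | _ m ih =>
    rcases Nat.eq_zero_or_pos m with h0 | h0
    · -- only the empty list
      subst h0
      have h : Vset ht 0 ⊆ {[]} := by
        rintro l ⟨_, hl⟩
        by_contra hne
        exact absurd (hl [] l rfl hne) (by simp)
      calc wsum (Vset ht 0) (wL w) ≤ wsum {([] : List α)} (wL w) := wsum_mono h (fun _ _ => le_rfl)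
        _ = 1 := by
          unfold wsum
          rw [tsum_eq_single ⟨[], rfl⟩]
          · simp [wL]
          · intro b hb
            exact absurd (Subtype.ext (Set.mem_singleton_iff.mp b.2)) hb
    · -- first atom
      have h1 : wsum (Vset ht m) (wL w) ≤
          wsum {p : α × List α | p.2 ∈ Vset ht (m - ht p.1)} (fun p => w p.1 * wL w p.2) := by
        classical
        have hne : ∀ l ∈ Vset ht m, l ≠ [] := by
          rintro l ⟨hl, _⟩ rfl
          simp [hL] at hl
          omega
        by_cases hα : Nonempty α
        · obtain ⟨a0⟩ := hα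
          apply wsum_le_of_injOn (fun l : List α => (l.headD a0, l.tail))
          · intro l hl
            have hn := hne l hl
            cases l with
            | nil => exact absurd rfl hn
            | cons a l =>
              obtain ⟨h2, h3⟩ := hl
              rw [win_hL_cons] at h2
              refine ⟨?_, ?_⟩
              · show m - ht a ≤ hL ht l
                omega
              · intro q r hqr hr
                have hqr' : l = q ++ r := hqr
                have h4 := h3 (a :: q) r (by rw [hqr']; rfl) hr
                rw [win_hL_cons] at h4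
                show hL ht q < m - ht a
                omega
          · intro l hl l' hl' he
            have hn := hne l hl
            have hn' := hne l' hl'
            cases l with
            | nil => exact absurd rfl hn
            | cons a l =>
              cases l' with
              | nil => exact absurd rfl hn'
              | cons a' l' =>
                simp only [List.headD_cons, List.tail_cons, Prod.mk.injEq] at he
                rw [he.1, he.2]
          · intro l hl
            have hn := hne l hl
            cases l with
            | nil => exact absurd rfl hn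
            | cons a l =>
              rw [win_wL_cons]
              exact le_rfl
        · have : Vset ht m = (∅ : Set (List α)) := by
            rw [Set.eq_empty_iff_forall_notMem]
            intro l hl
            have hn := hne l hl
            cases l with
            | nil => exact absurd rfl hn
            | cons a l => exact hα ⟨a⟩
          rw [this]
          unfold wsum
          simp
      refine le_trans h1 ?_
      rw [wsum_sigma' (fun a : α => Vset ht (m - ht a)) (fun a l => w a * wL w l)]
      refine le_trans ?_ hw
      apply ENNReal.tsum_le_tsum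
      intro a
      rw [wsum_mul_left]
      calc w a * wsum (Vset ht (m - ht a)) (wL w) ≤ w a * 1 := by
            gcongr
            have := hht a
            exact ih (m - ht a) (by omega)
        _ = w a := mul_one _

lemma exists_first_passage (m : ℕ) (l : List α) (h : m ≤ hL ht l) :
    ∃ p s, l = p ++ s ∧ p ∈ Vset ht m := by
  classical
  have hex : ∃ k, ∃ p s : List α, l = p ++ s ∧ m ≤ hL ht p ∧ p.length = k :=
    ⟨l.length, l, [], by simp, h, rfl⟩
  obtain ⟨p, s, h1, h2, h3⟩ := Nat.find_spec hex
  refine ⟨p, s, h1, h2, ?_⟩
  intro q r hqr hr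
  by_contra hcon
  push Not at hcon
  have hlen : q.length < p.length := by
    rw [hqr, List.length_append]
    have : 0 < r.length := List.length_pos_iff.mpr hr
    omega
  rw [h3] at hlen
  exact Nat.find_min hex hlen ⟨q, r ++ s, by rw [h1, hqr]; simp, hcon, rfl⟩

theorem window (hht : ∀ a, 1 ≤ ht a) (hw : ∑' a, w a ≤ 1) (m q : ℕ) :
    ∑ n ∈ Finset.Ico m (m + q), Bw ht w n ≤ ∑ n ∈ Finset.range q, Bw ht w n := by
  have h1 : ∑ n ∈ Finset.Ico m (m + q), Bw ht w n ≤
      wsum {l : List α | m ≤ hL ht l ∧ hL ht l < m + q} (wL w) := by
    apply sum_wsum_le_of_disj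
    · intro n hn l hl
      rw [Finset.mem_Ico] at hn
      have hl' : hL ht l = n := hl
      show m ≤ hL ht l ∧ hL ht l < m + q
      omega
    · intro i _ j _ l hl hl'
      have h2 : hL ht l = i := hl
      have h3 : hL ht l = j := hl'
      omega
  have h2 : wsum {l : List α | m ≤ hL ht l ∧ hL ht l < m + q} (wL w) ≤
      wsum (Vset ht m ×ˢ {l : List α | hL ht l < q}) (fun p => wL w p.1 * wL w p.2) := by
    classical
    have hch : ∀ l : List α, ∃ p : List α × List α, m ≤ hL ht l → l = p.1 ++ p.2 ∧
        p.1 ∈ Vset ht m := by
      intro l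
      by_cases h : m ≤ hL ht l
      · obtain ⟨p, s, h3, h4⟩ := exists_first_passage ht m l h
        exact ⟨(p, s), fun _ => ⟨h3, h4⟩⟩
      · exact ⟨([], []), fun h' => absurd h' h⟩
    choose f hf using hch
    apply wsum_le_of_injOn f
    · rintro l ⟨h3, h4⟩
      obtain ⟨h5, h6⟩ := hf l h3
      refine ⟨h6, ?_⟩
      have h7 : hL ht l = hL ht (f l).1 + hL ht (f l).2 := by
        conv_lhs => rw [h5]
        exact win_hL_append ht _ _
      have h8 := h6.1
      show hL ht (f l).2 < q
      omega
    · rintro l ⟨h3, _⟩ l' ⟨h3', _⟩ he
      rw [(hf l h3).1, (hf l' h3').1, he]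
    · rintro l ⟨h3, _⟩
      obtain ⟨h5, _⟩ := hf l h3
      conv_lhs => rw [h5]
      rw [win_wL_append]
  have h3 : wsum {l : List α | hL ht l < q} (wL w) ≤ ∑ n ∈ Finset.range q, Bw ht w n := by
    refine le_trans ?_ (wsum_biUnion_le (Finset.range q) (fun n => {l : List α | hL ht l = n})
      (wL w))
    apply wsum_mono _ (fun _ _ => le_rfl)
    intro l hl
    exact ⟨hL ht l, Finset.mem_range.mpr hl, rfl⟩
  calc ∑ n ∈ Finset.Ico m (m + q), Bw ht w n
      ≤ wsum (Vset ht m) (wL w) * wsum {l : List α | hL ht l < q} (wL w) := by
        rw [← wsum_prod]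
        exact le_trans h1 h2
    _ ≤ 1 * ∑ n ∈ Finset.range q, Bw ht w n := by
        gcongr
        exact Vset_le_one ht w hht hw m
    _ = _ := one_mul _

theorem Bw_le_one (hht : ∀ a, 1 ≤ ht a) (hw : ∑' a, w a ≤ 1) (m : ℕ) : Bw ht w m ≤ 1 := by
  have h := window ht w hht hw m 1
  simp only [Finset.range_one, Finset.sum_singleton] at h
  rw [Bw_zero ht w hht] at h
  rw [show Finset.Ico m (m + 1) = {m} from by ext x; simp, Finset.sum_singleton] at h
  exact h

end Pool.Agent.BB
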