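import Pool.Agent.BB.Wsum
import Pool.Agent.BB.DefsJ
import Pool.Agent.BB.Window
import Pool.Agent.BB.Argmin

set_option autoImplicit false

open scoped ENNReal
open Filter Topology Pool.Agent.SawTree

namespace Pool.Agent.BB

section Abstract
variable {α : Type} (ht : α → ℕ) (dx : α → ℤ) (w : α → ℝ≥0∞)

theorem ins_hL_append (l m : List α) : hL ht (l ++ m) = hL ht l + hL ht m := by
  simp [hL]

theorem ins_xL_append (l m : List α) : xL dx (l ++ m) = xL dx l + xL dx m := by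
  simp [xL]

theorem ins_wL_append (l m : List α) : wL w (l ++ m) = wL w l * wL w m := by
  simp [wL]

theorem ins_eq_nil (hht : ∀ a, 1 ≤ ht a) (l : List α) (h : hL ht l = 0) : l = [] := by
  rcases l with _ | ⟨a, l⟩
  · rfl
  · have := hht a
    simp only [hL, List.map_cons, List.sum_cons] at h
    omega

/-- comparison of two beginnings of the same list -/
theorem ins_cmp {q l q' l' : List α} (h : q ++ l = q' ++ l') (hh : hL ht q < hL ht q') :
    ∃ s, q' = q ++ s ∧ l = s ++ l' := by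
  rcases List.append_eq_append_iff.1 h with ⟨a, h1, h2⟩ | ⟨c, h1, h2⟩
  · exact ⟨a, h1, h2⟩
  · rw [h1, ins_hL_append] at hh
    omega

theorem ins_eq (hht : ∀ a, 1 ≤ ht a) {q l q' l' : List α} (h : q ++ l = q' ++ l')
    (hh : hL ht q = hL ht q') : q = q' ∧ l = l' := by
  rcases List.append_eq_append_iff.1 h with ⟨a, h1, h2⟩ | ⟨c, h1, h2⟩
  · rw [h1, ins_hL_append] at hh
    have ha := ins_eq_nil ht hht a (by omega)
    subst ha
    simp_all
  · rw [h1, ins_hL_append] at hh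
    have hc := ins_eq_nil ht hht c (by omega)
    subst hc
    simp_all

theorem ins_no_clash {h b : ℕ} {L : ℕ} (hbL : L ≤ b) {h' : ℕ} (hh' : h' ≤ L)
    (hlt : h < h') {q q' l l' : List α × List α} (hq : q ∈ Mset ht dx h)
    (hl : l ∈ Jset ht dx b) (hq' : q' ∈ Mset ht dx h')
    (e1 : q.1 ++ l.1 = q'.1 ++ l'.1) (e2 : q.2 ++ l.2 = q'.2 ++ l'.2) : False := by
  obtain ⟨hq1, hq2, -⟩ := hq
  obtain ⟨hq1', hq2', hmin⟩ := hq'
  obtain ⟨-, -, hpos⟩ := hl
  obtain ⟨s1, a1, b1⟩ := ins_cmp ht e1 (by omega)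
  obtain ⟨s2, a2, b2⟩ := ins_cmp ht e2 (by omega)
  have c1 : hL ht s1 = h' - h := by
    have := ins_hL_append ht q.1 s1
    rw [← a1] at this
    omega
  have c2 : hL ht s2 = h' - h := by
    have := ins_hL_append ht q.2 s2
    rw [← a2] at this
    omega
  have d1 := hpos s1 l'.1 s2 l'.2 b1 b2 (by omega) (by omega) (by omega)
  have d2 := hmin q.1 s1 q.2 s2 a1 a2 (by omega)
  have x1 : xL dx q'.1 = xL dx q.1 + xL dx s1 := by rw [a1, ins_xL_append]
  have x2 : xL dx q'.2 = xL dx q.2 + xL dx s2 := by rw [a2, ins_xL_append]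
  omega

theorem ins_Vset {h m : ℕ} {q v : List α} (hq : hL ht q = h) (hv : v ∈ Vset ht m) (hm : 1 ≤ m) :
    q ++ v ∈ Vset ht (h + m) := by
  refine ⟨?_, ?_⟩
  · rw [ins_hL_append]
    have := hv.1
    omega
  · intro x r hx hr
    rcases List.append_eq_append_iff.1 hx with ⟨c, h1, h2⟩ | ⟨c, h1, h2⟩
    · have h3 := hv.2 c r h2 hr
      rw [h1, ins_hL_append]
      omega
    · have h3 := congrArg (hL ht) h1
      rw [ins_hL_append] at h3
      omega

theorem insertionJ (hht : ∀ a, 1 ≤ ht a) (L : ℕ) :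
    Mw ht dx w L * ∑ b ∈ Finset.Ico L (2 * L), wsum (Jset ht dx b) (w2 w)
      ≤ ∑ b ∈ Finset.Ico L (3 * L), Bw ht w (b + 1) * wsum (Vset ht (b + 1)) (wL w) := by
  set A : Set (List α × List α) := {p | ∃ h ∈ Finset.range (L + 1), p ∈ Mset ht dx h} with hA
  set C : Set (List α × List α) := {p | ∃ b ∈ Finset.Ico L (2 * L), p ∈ Jset ht dx b} with hC
  set TT : ℕ → Set (List α × List α) := fun b =>
    Vset ht (b + 1) ×ˢ {l : List α | hL ht l = b + 1} with hTT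
  have h1 : Mw ht dx w L ≤ wsum A (w2 w) := by
    refine sum_wsum_le_of_disj _ _ _ _ (fun h hh p hp => ⟨h, hh, hp⟩) ?_
    intro i _ j _ x hx hy
    rw [← hx.1, ← hy.1]
  have h2 : ∑ b ∈ Finset.Ico L (2 * L), wsum (Jset ht dx b) (w2 w) ≤ wsum C (w2 w) := by
    refine sum_wsum_le_of_disj _ _ _ _ (fun b hb p hp => ⟨b, hb, hp⟩) ?_
    intro i _ j _ x hx hy
    have := hx.2.1
    have := hy.2.1
    omega
  have h3 : wsum (A ×ˢ C) (fun p => w2 w p.1 * w2 w p.2)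
      ≤ wsum {p | ∃ b ∈ Finset.Ico L (3 * L), p ∈ TT b} (w2 w) := by
    refine wsum_le_of_injOn (fun x => (x.1.1 ++ x.2.1, x.1.2 ++ x.2.2)) ?_ ?_ ?_
    · rintro ⟨q, l⟩ ⟨⟨h, hh, hq⟩, ⟨b, hb, hl⟩⟩
      obtain ⟨hq1, hq2, -⟩ := hq
      obtain ⟨hl1, hl2, -⟩ := hl
      simp only [Finset.mem_range, Finset.mem_Ico] at hh hb
      refine ⟨h + b, Finset.mem_Ico.2 ⟨by omega, by omega⟩, ?_, ?_⟩
      · show q.1 ++ l.1 ∈ Vset ht (h + (b + 1))
        exact ins_Vset ht hq1 hl1 (by omega)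
      · show hL ht (q.2 ++ l.2) = h + b + 1
        rw [ins_hL_append]
        dsimp only at hq2 hl2 ⊢
        omega
    · rintro ⟨q, l⟩ ⟨⟨h, hh, hq⟩, ⟨b, hb, hl⟩⟩ ⟨q', l'⟩ ⟨⟨h', hh', hq'⟩, ⟨b', hb', hl'⟩⟩ he
      simp only [Finset.mem_range, Finset.mem_Ico] at hh hb hh' hb'
      simp only [Prod.mk.injEq] at he
      dsimp only at hq hl hq' hl'
      obtain ⟨e1, e2⟩ := he
      rcases lt_trichotomy h h' with hlt | heq | hgt
      · exact (ins_no_clash ht dx hb.1 (by omega) hlt hq hl hq' e1 e2).elim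
      · obtain ⟨f1, g1⟩ := ins_eq ht hht e1 (by rw [hq.1, hq'.1, heq])
        obtain ⟨f2, g2⟩ := ins_eq ht hht e2 (by rw [hq.2.1, hq'.2.1, heq])
        exact Prod.ext (Prod.ext f1 f2) (Prod.ext g1 g2)
      · exact (ins_no_clash ht dx hb'.1 (by omega) hgt hq' hl' hq e1.symm e2.symm).elim
    · rintro ⟨q, l⟩ -
      simp only [w2, ins_wL_append]
      exact le_of_eq (by ring)
  have h4 : wsum {p | ∃ b ∈ Finset.Ico L (3 * L), p ∈ TT b} (w2 w) ≤
      ∑ b ∈ Finset.Ico L (3 * L), wsum (TT b) (w2 w) := wsum_biUnion_le _ _ _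
  have h5 : ∀ b, wsum (TT b) (w2 w) ≤ Bw ht w (b + 1) * wsum (Vset ht (b + 1)) (wL w) := by
    intro b
    have := wsum_prod (Vset ht (b + 1)) {l : List α | hL ht l = b + 1} (wL w) (wL w)
    rw [show (w2 w) = fun p : List α × List α => wL w p.1 * wL w p.2 from rfl, this, mul_comm]
    rfl
  calc Mw ht dx w L * ∑ b ∈ Finset.Ico L (2 * L), wsum (Jset ht dx b) (w2 w)
      ≤ wsum A (w2 w) * wsum C (w2 w) := mul_le_mul' h1 h2
    _ = wsum (A ×ˢ C) (fun p => w2 w p.1 * w2 w p.2) := (wsum_prod _ _ _ _).symm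
    _ ≤ _ := h3
    _ ≤ _ := h4
    _ ≤ _ := Finset.sum_le_sum fun b _ => h5 b

theorem ins_Mw_ne_zero (L : ℕ) : Mw ht dx w L ≠ 0 := by
  have h1 : (1 : ℝ≥0∞) ≤ wsum (Mset ht dx 0) (w2 w) := by
    have h2 : wsum ({([], [])} : Set (List α × List α)) (w2 w) ≤ wsum (Mset ht dx 0) (w2 w) := by
      refine wsum_mono ?_ fun x _ => le_rfl
      rintro x hx
      rw [Set.mem_singleton_iff] at hx
      subst hx
      refine ⟨by simp [hL], by simp [hL], ?_⟩
      intro q1 r1 q2 r2 e1 e2 _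
      obtain ⟨rfl, -⟩ := List.append_eq_nil_iff.1 e1.symm
      obtain ⟨rfl, -⟩ := List.append_eq_nil_iff.1 e2.symm
      rfl
    refine le_trans (le_of_eq ?_) h2
    simp [wsum, w2, wL]
  have h3 : wsum (Mset ht dx 0) (w2 w) ≤ Mw ht dx w L := by
    unfold Mw
    exact Finset.single_le_sum (f := fun h => wsum (Mset ht dx h) (w2 w)) (fun _ _ => zero_le)
      (Finset.mem_range.2 (Nat.succ_pos L))
  exact (lt_of_lt_of_le (by norm_num : (0 : ℝ≥0∞) < 1) (h1.trans h3)).ne'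

theorem ins_Mset_le_sq (n : ℕ) : wsum (Mset ht dx n) (w2 w) ≤ Bw ht w n * Bw ht w n := by
  have h := wsum_prod {l : List α | hL ht l = n} {l : List α | hL ht l = n} (wL w) (wL w)
  rw [Bw, ← h]
  exact wsum_mono (fun p hp => ⟨hp.1, hp.2.1⟩) fun x _ => le_rfl

theorem ins_Mw_ne_top (hht : ∀ a, 1 ≤ ht a) (hw : ∑' a, w a ≤ 1) (L : ℕ) :
    Mw ht dx w L ≠ ⊤ := by
  unfold Mw
  rw [ENNReal.sum_ne_top]
  intro n _
  refine ne_top_of_le_ne_top ENNReal.one_ne_top ((ins_Mset_le_sq ht dx w n).trans ?_)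
  calc Bw ht w n * Bw ht w n ≤ 1 * 1 :=
        mul_le_mul' (Bw_le_one ht w hht hw n) (Bw_le_one ht w hht hw n)
    _ = 1 := one_mul 1

/-- Cauchy-Schwarz -/
theorem ins_sum_Bw_le (hht : ∀ a, 1 ≤ ht a) (hw : ∑' a, w a ≤ 1) (L : ℕ) :
    ∑ n ∈ Finset.range L, Bw ht w n ≤ ENNReal.ofReal (√(L : ℝ)) * Mw ht dx w L := by
  have hB : ∀ n, Bw ht w n ≠ ⊤ := fun n =>
    ne_top_of_le_ne_top ENNReal.one_ne_top (Bw_le_one ht w hht hw n)
  have hM := ins_Mw_ne_top ht dx w hht hw L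
  have hM0 : 0 ≤ (Mw ht dx w L).toReal := ENNReal.toReal_nonneg
  have h1 : ∑ n ∈ Finset.range L, (Bw ht w n).toReal ^ 2 ≤ (Mw ht dx w L).toReal ^ 2 := by
    have h2 := sum_sq_le ht dx w hht L
    have h3 : ∑ n ∈ Finset.range L, Bw ht w n ^ 2 ≤ Mw ht dx w L ^ 2 := by
      refine le_trans ?_ h2
      exact Finset.sum_le_sum_of_subset (Finset.range_mono (Nat.le_succ L))
    have h4 := ENNReal.toReal_mono (ENNReal.pow_ne_top hM) h3
    rw [ENNReal.toReal_sum fun n _ => ENNReal.pow_ne_top (hB n), ENNReal.toReal_pow] at h4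
    simpa only [ENNReal.toReal_pow] using h4
  have h5 : ∑ n ∈ Finset.range L, (Bw ht w n).toReal ≤ √(L : ℝ) * (Mw ht dx w L).toReal := by
    have h6 := sq_sum_le_card_mul_sum_sq (s := Finset.range L)
      (f := fun n => (Bw ht w n).toReal)
    rw [Finset.card_range] at h6
    have h7 : (∑ n ∈ Finset.range L, (Bw ht w n).toReal) ^ 2 ≤
        (√(L : ℝ) * (Mw ht dx w L).toReal) ^ 2 := by
      rw [mul_pow, Real.sq_sqrt (Nat.cast_nonneg L)]
      exact h6.trans (mul_le_mul_of_nonneg_left h1 (Nat.cast_nonneg L))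
    exact le_of_sq_le_sq h7 (by positivity)
  calc ∑ n ∈ Finset.range L, Bw ht w n
      = ENNReal.ofReal (∑ n ∈ Finset.range L, (Bw ht w n).toReal) := by
        rw [ENNReal.ofReal_sum_of_nonneg fun n _ => ENNReal.toReal_nonneg]
        exact Finset.sum_congr rfl fun n _ => (ENNReal.ofReal_toReal (hB n)).symm
    _ ≤ ENNReal.ofReal (√(L : ℝ) * (Mw ht dx w L).toReal) := ENNReal.ofReal_le_ofReal h5
    _ = _ := by
        rw [ENNReal.ofReal_mul (Real.sqrt_nonneg _), ENNReal.ofReal_toReal hM]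

theorem theoremJ (hht : ∀ a, 1 ≤ ht a) (hw : ∑' a, w a ≤ 1) (L : ℕ) (hL : 1 ≤ L) :
    ∑ b ∈ Finset.Ico L (2 * L), wsum (Jset ht dx b) (w2 w) ≤ ENNReal.ofReal (2 * √(L : ℝ)) := by
  have hM := ins_Mw_ne_top ht dx w hht hw L
  have hM0 := ins_Mw_ne_zero ht dx w L
  refine (ENNReal.mul_le_mul_iff_right hM0 hM).1 ?_
  refine (insertionJ ht dx w hht L).trans ?_
  have h2 : ∑ b ∈ Finset.Ico L (3 * L), Bw ht w (b + 1) ≤
      2 * ∑ n ∈ Finset.range L, Bw ht w n := by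
    have h3 : ∑ b ∈ Finset.Ico L (3 * L), Bw ht w (b + 1) =
        ∑ n ∈ Finset.Ico (L + 1) (3 * L + 1), Bw ht w n :=
      Finset.sum_Ico_add' (fun n => Bw ht w n) L (3 * L) 1
    rw [h3, ← Finset.sum_Ico_consecutive _ (show L + 1 ≤ (L + 1) + L by omega)
      (show (L + 1) + L ≤ 3 * L + 1 by omega), two_mul]
    refine add_le_add (window ht w hht hw _ _) ?_
    rw [show 3 * L + 1 = (L + 1) + L + L by omega]
    exact window ht w hht hw _ _
  calc ∑ b ∈ Finset.Ico L (3 * L), Bw ht w (b + 1) * wsum (Vset ht (b + 1)) (wL w)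
      ≤ ∑ b ∈ Finset.Ico L (3 * L), Bw ht w (b + 1) * 1 :=
        Finset.sum_le_sum fun b _ => mul_le_mul' le_rfl (Vset_le_one ht w hht hw (b + 1))
    _ = ∑ b ∈ Finset.Ico L (3 * L), Bw ht w (b + 1) := by simp
    _ ≤ 2 * (ENNReal.ofReal (√(L : ℝ)) * Mw ht dx w L) :=
        h2.trans (mul_le_mul' le_rfl (ins_sum_Bw_le ht dx w hht hw L))
    _ = Mw ht dx w L * ENNReal.ofReal (2 * √(L : ℝ)) := by
        rw [ENNReal.ofReal_mul (by norm_num)]
        simp only [ENNReal.ofReal_ofNat]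
        ring

end Abstract

end Pool.Agent.BB
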