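import Pool.Agent.BB.Defs

set_option autoImplicit false

open scoped ENNReal
open Filter Topology Pool.Agent.SawTree

namespace Pool.Agent.BB

/-- parity of the number of edges of the path between the heights `k` and `k + 1` which are on the
right of `x`; the path starts at height `c`, abscissa `y` -/
def crs (x k : ℤ) : ℤ → ℤ → Wd → ZMod 2
  | _, _, [] => 0
  | c, y, s :: q => (if x < y ∧ vx s ≠ 0 ∧ min c (c + vx s) = k then 1 else 0)
      + crs x k (c + vx s) (y + vy s) q

/-- the path avoids the point at height `k`, abscissa `x` -/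
def Avd (k x c y : ℤ) (q : Wd) : Prop :=
  ∀ v v' : Wd, q = v ++ v' → ¬ (c + X v = k ∧ y + Y v = x)

lemma Avd.cons {k x c y : ℤ} {s : Fin 4} {q : Wd} (h : Avd k x c y (s :: q)) :
    ¬ (c = k ∧ y = x) ∧ Avd k x (c + vx s) (y + vy s) q := by
  constructor
  · have := h [] (s :: q) rfl
    simpa using this
  · intro v v' e
    have := h (s :: v) v' (by rw [e]; rfl)
    rw [X_cons, Y_cons] at this
    intro hh
    exact this ⟨by omega, by omega⟩

lemma Avd.here {k x c y : ℤ} {q : Wd} (h : Avd k x c y q) : ¬ (c = k ∧ y = x) := by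
  have := h [] q rfl
  simpa using this

/-- indicator of the half line at height `k` on the right of `x` -/
def hfl (k x c y : ℤ) : ZMod 2 := if c = k ∧ x < y then 1 else 0

lemma crs_tel (k x : ℤ) (q : Wd) : ∀ c y : ℤ, Avd k x c y q →
    crs x (k - 1) c y q + crs x k c y q = hfl k x c y + hfl k x (c + X q) (y + Y q) := by
  induction q with
  | nil =>
    intro c y _
    simp only [crs, X_nil, Y_nil, add_zero]
    exact (CharTwo.add_self_eq_zero _).symm
  | cons s q ih =>
    intro c y h
    obtain ⟨h1, h2⟩ := h.cons
    have h3 := ih _ _ h2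
    have h4 := h2.here
    have e1 : c + X (s :: q) = c + vx s + X q := by rw [X_cons]; ring
    have e2 : y + Y (s :: q) = y + vy s + Y q := by rw [Y_cons]; ring
    rw [e1, e2]
    have hst : (if x < y ∧ vx s ≠ 0 ∧ min c (c + vx s) = k - 1 then (1 : ZMod 2) else 0)
        + (if x < y ∧ vx s ≠ 0 ∧ min c (c + vx s) = k then 1 else 0)
        = hfl k x c y + hfl k x (c + vx s) (y + vy s) := by
      unfold hfl
      fin_cases s
      · have v1 : vx 0 = 1 := rfl
        have v2 : vy 0 = 0 := rfl
        simp only [Fin.zero_eta, v1, v2, add_zero, ne_eq, one_ne_zero, not_false_eq_true, true_and]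
        have m1 : min c (c + 1) = c := by omega
        rw [m1]
        by_cases hx : x < y
        · by_cases ha : c = k
          · have hb : ¬ (c = k - 1) := by omega
            have hc : ¬ (c + 1 = k) := by omega
            rw [if_neg (fun t => hb t.2), if_pos ⟨hx, ha⟩, if_pos ⟨ha, hx⟩, if_neg (fun t => hc t.1)]
            ring
          · by_cases hb : c + 1 = k
            · have hc : c = k - 1 := by omega
              have hd : ¬ (c = k) := ha
              simp [hx, hb, hd, hc]
            · have hc : ¬ (c = k - 1) := by omega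
              simp [hx, ha, hb, hc]
        · simp [hx]
      · have v1 : vx 1 = -1 := rfl
        have v2 : vy 1 = 0 := rfl
        simp only [Fin.mk_one, v1, v2, add_zero, ne_eq, neg_eq_zero, one_ne_zero,
          not_false_eq_true, true_and]
        have m1 : min c (c + -1) = c - 1 := by omega
        rw [m1]
        by_cases hx : x < y
        · by_cases ha : c = k
          · have hb : ¬ (c - 1 = k) := by omega
            have hc : ¬ (c + -1 = k) := by omega
            have hd : c - 1 = k - 1 := by omega
            simp [hx, ha]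
          · by_cases hb : c - 1 = k
            · have hc : c + -1 = k := by omega
              have hd : ¬ (c - 1 = k - 1) := by omega
              rw [if_neg (fun t => hd t.2), if_pos ⟨hx, hb⟩, if_neg (fun t => ha t.1), if_pos ⟨hc, hx⟩]
            · have hc : ¬ (c - 1 = k - 1) := by omega
              have hd : ¬ (c + -1 = k) := by omega
              simp [hx, ha, hb, hd]
        · simp [hx]
      · have v1 : vx 2 = 0 := rfl
        have v2 : vy 2 = 1 := rfl
        simp only [Fin.reduceFinMk, v1, v2, add_zero, ne_eq, not_true_eq_false, false_and,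
          and_false, if_false]
        by_cases ha : c = k
        · have hne : y ≠ x := fun hh => h1 ⟨ha, hh⟩
          have hiff : (x < y) ↔ (x < y + 1) := by omega
          simp only [ha, true_and, ← hiff]
          exact (CharTwo.add_self_eq_zero _).symm
        · simp [ha]
      · have v1 : vx 3 = 0 := rfl
        have v2 : vy 3 = -1 := rfl
        simp only [Fin.reduceFinMk, v1, v2, add_zero, ne_eq, not_true_eq_false, false_and,
          and_false, if_false]
        simp only [Fin.reduceFinMk, v1, v2, add_zero] at h4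
        by_cases ha : c = k
        · have hne : y + -1 ≠ x := fun hh => h4 ⟨ha, hh⟩
          have hiff : (x < y) ↔ (x < y + -1) := by omega
          simp only [ha, true_and, ← hiff]
          exact (CharTwo.add_self_eq_zero _).symm
        · simp [ha]
    show (if x < y ∧ vx s ≠ 0 ∧ min c (c + vx s) = k - 1 then (1 : ZMod 2) else 0)
        + crs x (k - 1) (c + vx s) (y + vy s) q
        + ((if x < y ∧ vx s ≠ 0 ∧ min c (c + vx s) = k then 1 else 0)
        + crs x k (c + vx s) (y + vy s) q) = _
    calc _ = ((if x < y ∧ vx s ≠ 0 ∧ min c (c + vx s) = k - 1 then (1 : ZMod 2) else 0)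
        + (if x < y ∧ vx s ≠ 0 ∧ min c (c + vx s) = k then 1 else 0))
        + (crs x (k - 1) (c + vx s) (y + vy s) q + crs x k (c + vx s) (y + vy s) q) := by ring
      _ = (hfl k x c y + hfl k x (c + vx s) (y + vy s))
        + (hfl k x (c + vx s) (y + vy s) + hfl k x (c + vx s + X q) (y + vy s + Y q)) := by
          rw [hst, h3]
      _ = hfl k x c y + (hfl k x (c + vx s) (y + vy s) + hfl k x (c + vx s) (y + vy s))
        + hfl k x (c + vx s + X q) (y + vy s + Y q) := by ring
      _ = _ := by rw [CharTwo.add_self_eq_zero]; ring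

lemma crs_lat (k x : ℤ) (q : Wd) : ∀ c y : ℤ, Avd k (x + 1) c y q →
    crs x k c y q = crs (x + 1) k c y q := by
  induction q with
  | nil => intro c y _; rfl
  | cons s q ih =>
    intro c y h
    obtain ⟨h1, h2⟩ := h.cons
    have h4 := h2.here
    have h3 := ih _ _ h2
    show (if x < y ∧ vx s ≠ 0 ∧ min c (c + vx s) = k then (1 : ZMod 2) else 0)
        + crs x k (c + vx s) (y + vy s) q
      = (if x + 1 < y ∧ vx s ≠ 0 ∧ min c (c + vx s) = k then (1 : ZMod 2) else 0)
        + crs (x + 1) k (c + vx s) (y + vy s) q
    rw [h3]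
    congr 1
    have hiff : (x < y ∧ vx s ≠ 0 ∧ min c (c + vx s) = k)
        ↔ (x + 1 < y ∧ vx s ≠ 0 ∧ min c (c + vx s) = k) := by
      constructor
      · rintro ⟨a1, a2, a3⟩
        refine ⟨?_, a2, a3⟩
        have hvy : vy s = 0 := by fin_cases s <;> simp_all [vx, vy]
        rw [hvy, add_zero] at h4
        by_contra hcon
        have hy : y = x + 1 := by omega
        rcases min_choice c (c + vx s) with hm | hm
        · exact h1 ⟨by rw [← a3, hm], hy⟩
        · exact h4 ⟨by rw [← a3, hm], hy⟩
      · rintro ⟨a1, a2, a3⟩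
        exact ⟨by omega, a2, a3⟩
    simp only [hiff]

/-- no edges at a height which is never visited -/
lemma crs_zero (k k' x : ℤ) (hk : k' = k ∨ k' = k - 1) (q : Wd) : ∀ c y : ℤ,
    (∀ v v' : Wd, q = v ++ v' → c + X v ≠ k) → crs x k' c y q = 0 := by
  induction q with
  | nil => intro c y _; rfl
  | cons s q ih =>
    intro c y h
    have h1 : c ≠ k := by simpa using h [] (s :: q) rfl
    have h2 : ∀ v v' : Wd, q = v ++ v' → c + vx s + X v ≠ k := by
      intro v v' e
      have := h (s :: v) v' (by rw [e]; rfl)
      rw [X_cons] at this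
      intro hh
      exact this (by omega)
    have h3 : c + vx s ≠ k := by simpa using h2 [] q rfl
    show (if x < y ∧ vx s ≠ 0 ∧ min c (c + vx s) = k' then (1 : ZMod 2) else 0)
        + crs x k' (c + vx s) (y + vy s) q = 0
    rw [ih _ _ h2, add_zero, if_neg]
    rintro ⟨_, a2, a3⟩
    have hv : vx s = 1 ∨ vx s = -1 := by fin_cases s <;> simp_all [vx]
    rcases hv with hv | hv <;> rw [hv] at a3 h3 <;> rcases hk with hk | hk <;> omega

/-- Planar order lemma. -/
theorem order_lemma (p q : Wd) (h : ℤ) (hh : 0 < h) (a b : ℤ) (hab : a < b)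
    (hp : PreNN p) (hp' : SufPos p) (hXp : X p = h) (hq : PreNN q) (hq' : SufPos q) (hXq : X q = h)
    (hdis : ∀ u u' v v' : Wd, p = u ++ u' → q = v ++ v' → ¬ (X u = X v ∧ a + Y u = b + Y v)) :
    a + Y p < b + Y q := by
  -- the points of `p` are avoided by `q`
  have hav : ∀ u u' : Wd, p = u ++ u' → Avd (X u) (a + Y u) 0 b q := by
    intro u u' e v v' e' hc
    exact hdis u u' v v' e e' ⟨by omega, hc.2.symm⟩
  have hqlow : ∀ v v' : Wd, q = v ++ v' → 0 ≤ X v := fun v v' e => hq v v' e
  have hqhigh : ∀ v v' : Wd, q = v ++ v' → X v ≤ h := by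
    intro v v' e
    by_cases hv : v' = []
    · subst hv
      rw [List.append_nil] at e
      rw [← e, hXq]
    · have := hq' v v' e hv
      have h2 : X q = X v + X v' := by rw [e, X_append]
      omega
  have hplow : ∀ u u' : Wd, p = u ++ u' → 0 ≤ X u := fun u u' e => hp u u' e
  have hphigh : ∀ u u' : Wd, p = u ++ u' → u' ≠ [] → X u < h := by
    intro u u' e hu
    have := hp' u u' e hu
    have h2 : X p = X u + X u' := by rw [e, X_append]
    omega
  have hneg : ∀ x : ℤ, crs x (-1) 0 b q = 0 := by
    intro x
    apply crs_zero (-1) (-1) x (Or.inl rfl) q 0 b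
    intro v v' e
    have := hqlow v v' e
    omega
  have hpos : ∀ x : ℤ, crs x h 0 b q = 0 := by
    intro x
    apply crs_zero (h + 1) h x (Or.inr (by ring)) q 0 b
    intro v v' e
    have := hqhigh v v' e
    omega
  have key : ∀ u : Wd, ∀ u' : Wd, p = u ++ u' → u' ≠ [] → crs (a + Y u) (X u) 0 b q = 1 := by
    intro u
    induction u using List.reverseRecOn with
    | nil =>
      intro u' e hu
      have h1 := crs_tel (X ([] : Wd)) (a + Y ([] : Wd)) q 0 b (hav [] u' e)
      simp only [X_nil, Y_nil, add_zero, zero_sub, zero_add] at h1 ⊢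
      rw [hneg, zero_add, hXq] at h1
      rw [h1]
      unfold hfl
      have h2 : ¬ (h = 0) := by omega
      simp [hab, h2]
    | append_singleton u s ih =>
      intro u' e hu
      have e0 : p = u ++ (s :: u') := by rw [e]; simp
      have h0 := ih (s :: u') e0 (by simp)
      have hX1 := hplow _ _ e
      have hX2 := hphigh _ _ e hu
      have hX3 := hplow _ _ e0
      have hX4 := hphigh _ _ e0 (by simp)
      have a1 := hav _ _ e
      have a2 := hav _ _ e0
      rw [X_append] at hX1 hX2
      have hs : X [s] = vx s := by simp [X]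
      have hs' : Y [s] = vy s := by simp [Y]
      rw [X_append, Y_append, hs, hs'] at a1
      rw [hs] at hX1 hX2
      rw [X_append, Y_append, hs, hs']
      have hcase : s = 0 ∨ s = 1 ∨ s = 2 ∨ s = 3 := by
        fin_cases s <;> simp
      rcases hcase with rfl | rfl | rfl | rfl
      · have v1 : vx 0 = 1 := rfl
        have v2 : vy 0 = 0 := rfl
        simp only [v1, v2, add_zero] at a1 hX1 hX2 ⊢
        have h1 := crs_tel (X u + 1) (a + Y u) q 0 b a1
        rw [add_sub_cancel_right] at h1
        rw [h0] at h1
        have hz : hfl (X u + 1) (a + Y u) 0 b + hfl (X u + 1) (a + Y u) (0 + X q) (b + Y q) = 0 := by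
          unfold hfl
          have n1 : ¬ ((0 : ℤ) = X u + 1) := by omega
          have n2 : ¬ (0 + X q = X u + 1) := by omega
          rw [if_neg (fun t => n1 t.1), if_neg (fun t => n2 t.1), add_zero]
        rw [hz] at h1
        have h5 := (CharTwo.add_eq_zero).mp h1
        exact h5.symm
      · have v1 : vx 1 = -1 := rfl
        have v2 : vy 1 = 0 := rfl
        simp only [v1, v2, add_zero] at a1 hX1 hX2 ⊢
        have h1 := crs_tel (X u) (a + Y u) q 0 b a2
        have hz : hfl (X u) (a + Y u) 0 b + hfl (X u) (a + Y u) (0 + X q) (b + Y q) = 0 := by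
          unfold hfl
          have n1 : ¬ ((0 : ℤ) = X u) := by omega
          have n2 : ¬ (0 + X q = X u) := by omega
          rw [if_neg (fun t => n1 t.1), if_neg (fun t => n2 t.1), add_zero]
        rw [hz, h0] at h1
        have h5 := (CharTwo.add_eq_zero).mp h1
        rw [← sub_eq_add_neg]
        exact h5
      · have v1 : vx 2 = 0 := rfl
        have v2 : vy 2 = 1 := rfl
        simp only [v1, v2, add_zero] at a1 hX1 hX2 ⊢
        have e3 : a + (Y u + 1) = a + Y u + 1 := by ring
        rw [e3] at a1 ⊢
        rw [← crs_lat (X u) (a + Y u) q 0 b a1]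
        exact h0
      · have v1 : vx 3 = 0 := rfl
        have v2 : vy 3 = -1 := rfl
        simp only [v1, v2, add_zero] at a1 hX1 hX2 ⊢
        have e3 : a + (Y u + -1) = a + Y u - 1 := by ring
        rw [e3]
        have e4 : a + Y u = (a + Y u - 1) + 1 := by ring
        rw [e4] at a2
        rw [crs_lat (X u) (a + Y u - 1) q 0 b a2, ← e4]
        exact h0
  -- the last step
  have hne : p ≠ [] := by
    intro e
    rw [e] at hXp
    simp at hXp
    omega
  obtain ⟨u, s, e⟩ : ∃ u s, p = u ++ [s] :=
    ⟨p.dropLast, p.getLast hne, (List.dropLast_append_getLast hne).symm⟩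
  have h1 := key u [s] e (by simp)
  have h2 := hp' u [s] e (by simp)
  have hs : X [s] = vx s := by simp [X]
  have hs' : Y [s] = vy s := by simp [Y]
  rw [hs] at h2
  have hs0 : s = 0 := by
    fin_cases s <;> simp_all [vx]
  have hXu : X p = X u + vx s := by rw [e, X_append, hs]
  have hYu : Y p = Y u + vy s := by rw [e, Y_append, hs']
  rw [hs0] at hXu hYu
  have v1 : vx 0 = 1 := rfl
  have v2 : vy 0 = 0 := rfl
  rw [v1] at hXu
  rw [v2, add_zero] at hYu
  have h3 := crs_tel (X p) (a + Y p) q 0 b (hav p [] (by simp))
  rw [hYu] at h3 ⊢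
  have e5 : X p - 1 = X u := by omega
  rw [e5, h1, hXp, hpos, add_zero, hXq] at h3
  by_contra hcon
  have hz : hfl h (a + Y u) 0 b + hfl h (a + Y u) (0 + h) (b + Y q) = 0 := by
    unfold hfl
    have n1 : ¬ ((0 : ℤ) = h) := by omega
    simp [n1, hcon]
  rw [hz] at h3
  exact one_ne_zero h3

end Pool.Agent.BB
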