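import Pool.Agent.BB.Atoms
import Pool.Agent.BB.Order
import Pool.Agent.BB.Insertion

set_option autoImplicit false

open scoped ENNReal
open Filter Topology Pool.Agent.SawTree

namespace Pool.Agent.BB

lemma reflY_reflY (u : Wd) : (u.map reflY).map reflY = u := by
  rw [List.map_map]
  have : reflY ∘ reflY = id := by funext i; fin_cases i <;> rfl
  rw [this, List.map_id]

lemma X_reflY (u : Wd) : X (u.map reflY) = X u := by
  induction u with
  | nil => simp
  | cons a u ih =>
    simp only [List.map_cons, X_cons, ih]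
    have : vx (reflY a) = vx a := by fin_cases a <;> rfl
    rw [this]

lemma Y_reflY (u : Wd) : Y (u.map reflY) = - Y u := by
  induction u with
  | nil => simp
  | cons a u ih =>
    simp only [List.map_cons, Y_cons, ih]
    have : vy (reflY a) = - vy a := by fin_cases a <;> rfl
    rw [this]; ring

lemma saw_reflY {u : Wd} (h : Saw u) : Saw (u.map reflY) := by
  intro a b c e hb
  have e' : u = a.map reflY ++ b.map reflY ++ c.map reflY := by
    rw [← reflY_reflY u, e]; simp
  have := h _ _ _ e' (by simpa using hb)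
  rw [X_reflY, Y_reflY] at this
  intro hh
  exact this ⟨hh.1, by omega⟩

/-- a factor at the beginning of the reversed and reflected word is a final factor of the word -/
lemma rev_split {u p q : Wd} (h : u.reverse.map reflY = p ++ q) :
    u = (q.map reflY).reverse ++ (p.map reflY).reverse := by
  have h1 : u.reverse = p.map reflY ++ q.map reflY := by
    rw [← reflY_reflY u.reverse, h]; simp
  rw [← List.reverse_reverse u, h1]; simp

/-- the reverse of a bridge of span `a`, reflected laterally, is a climb of height `a` -/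
theorem Bd_rev_br {a : ℕ} {u : Wd} (hu : u ∈ Bd a) :
    Br (u.reverse.map reflY) ∧ X (u.reverse.map reflY) = a := by
  obtain ⟨hS, hP, hM, hX⟩ := hu
  refine ⟨⟨saw_reflY hS.rev', ?_, ?_⟩, ?_⟩
  · intro p q h
    have h1 := rev_split h
    have h2 := hM _ _ h1
    have h3 : X u = X q + X p := by
      conv_lhs => rw [h1]
      rw [X_append, X_reverse, X_reverse, X_reflY, X_reflY]
    rw [X_reverse, X_reflY] at h2
    omega
  · intro p q h hq
    have h1 := rev_split h
    have h2 := hP _ _ h1 (by simpa using hq)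
    rwa [X_reverse, X_reflY] at h2
  · rw [X_reflY, X_reverse, hX]

theorem Bd_append_br {b : ℕ} {u : Wd} (hu : u ∈ Bd b) :
    Br (u ++ [0]) ∧ X (u ++ [0]) = ((b + 1 : ℕ) : ℤ) := by
  obtain ⟨hS, hP, hM, hX⟩ := hu
  have h0 : vx 0 = 1 := rfl
  have hP0 : ∀ p q, u = p ++ q → 0 ≤ X p := by
    intro p q h
    by_cases hp : p = []
    · rw [hp]; simp
    · exact (hP p q h hp).le
  have hsuf : ∀ p q, u = p ++ q → 0 ≤ X q := by
    intro p q h
    have h1 := hM p q h
    have h2 : X u = X p + X q := by rw [h, X_append]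
    omega
  have hone : ∀ s t : Wd, [(0 : Fin 4)] = s ++ t → s ≠ [] → s = [0] := by
    intro s t h hs
    rcases List.append_eq_cons_iff.mp h.symm with ⟨h1, _⟩ | ⟨s', h1, h2⟩
    · exact absurd h1 hs
    · have h3 := (List.append_eq_nil_iff.mp h2.symm).1
      rw [h1, h3]
  refine ⟨⟨?_, ?_, ?_⟩, ?_⟩
  · intro p m q h hm
    rcases infix_append h with ⟨c', e⟩ | ⟨a', e⟩ | ⟨b1, b2, e1, e2, e3, e4, e5⟩
    · exact hS p m c' e hm
    · have h1 : ([0] : Wd) = (a' ++ m) ++ q := e
      have h2 := hone _ _ h1 (by simp [hm])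
      have h3 : a' = [] := by
        by_contra hne
        have hlen := congrArg List.length h2
        simp only [List.length_append, List.length_cons, List.length_nil] at hlen
        have h4 : 0 < a'.length := List.length_pos_iff.mpr hne
        have h5 : 0 < m.length := List.length_pos_iff.mpr hm
        omega
      rw [h3] at h2
      simp only [List.nil_append] at h2
      rw [h2]
      rintro ⟨hx, _⟩
      simp [h0] at hx
    · have h1 := hone _ _ e3 e5
      have h2 := hsuf _ _ e2
      rintro ⟨hx, _⟩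
      rw [e1, X_append, h1] at hx
      simp [h0] at hx
      omega
  · intro p q h
    rcases List.append_eq_append_iff.mp h with ⟨a', h1, h2⟩ | ⟨c', h1, h2⟩
    · by_cases ha : a' = []
      · rw [h1, ha]
        simp [hX]
      · have h3 := hone _ _ h2 ha
        rw [h1, h3, X_append, hX]
        simp [h0]
        omega
    · exact hP0 _ _ h1
  · intro p q h hq
    rcases List.append_eq_append_iff.mp h with ⟨a', h1, h2⟩ | ⟨c', h1, h2⟩
    · have h3 : a' = [] := by
        by_contra hne
        have h4 := hone _ _ h2 hne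
        rw [h4] at h2
        simp at h2
        exact hq h2
      rw [h3] at h2
      simp only [List.nil_append] at h2
      rw [← h2]
      simp [h0]
    · have h3 := hsuf _ _ h1
      rw [h2, X_append]
      simp [h0]
      omega
  · rw [X_append, hX]
    simp [h0]

/-- positions of the two branches from the turning point are distinct -/
lemma UU_disj {u v : Wd} (h : Saw (u ++ v.map refl)) (p q c d : Wd)
    (hp : u.reverse.map reflY = p ++ q) (hc : v = c ++ d) (hne : p ≠ [] ∨ c ≠ []) :
    ¬ (X p = X c ∧ Y p = Y c) := by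
  have h1 := rev_split hp
  have h2 : u ++ v.map refl = (q.map reflY).reverse ++ ((p.map reflY).reverse ++ c.map refl)
      ++ d.map refl := by
    rw [h1, hc]; simp
  have h3 := h _ _ _ h2 (by
    intro hcon
    have h4 := List.append_eq_nil_iff.mp hcon
    rcases hne with h5 | h5
    · apply h5
      simpa using h4.1
    · apply h5
      simpa using h4.2)
  rw [X_append, Y_append, X_reverse, Y_reverse, X_reflY, Y_reflY, X_refl, Y_refl] at h3
  rintro ⟨hx, hy⟩
  exact h3 ⟨by omega, by omega⟩

lemma flat_split {l : List Atom} {q r : List Atom} (h : l = q ++ r) : flat l = flat q ++ flat r := by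
  rw [h, flat_append]

/-- two splits of the same list are nested -/
lemma nested {l q r q' r' : List Atom} (h : l = q ++ r) (h' : l = q' ++ r')
    (hlt : hL aht q < hL aht q') : ∃ m, q' = q ++ m ∧ r = m ++ r' := by
  rcases List.append_eq_append_iff.mp (h.symm.trans h') with ⟨a', h1, h2⟩ | ⟨c', h1, h2⟩
  · exact ⟨a', h1, h2⟩
  · exfalso
    rw [h1] at hlt
    unfold hL at hlt
    simp only [List.map_append, List.sum_append] at hlt
    omega

lemma hL_append (q m : List Atom) : hL aht (q ++ m) = hL aht q + hL aht m := by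
  unfold hL; simp

lemma xL_append (q m : List Atom) : xL adx (q ++ m) = xL adx q + xL adx m := by
  unfold xL; simp

/-- The order of the two branches is the same at two common splits. -/
lemma order_step {u v : Wd} (hS : Saw (u ++ v.map refl)) {l1 l2 : List Atom}
    (h1 : flat l1 = u.reverse.map reflY) (h2 : flat l2 = v ++ [0])
    {b : ℕ} (hb : X v = b)
    {q1 r1 q2 r2 q1' r1' q2' r2' : List Atom}
    (e1 : l1 = q1 ++ r1) (e2 : l2 = q2 ++ r2) (e1' : l1 = q1' ++ r1') (e2' : l2 = q2' ++ r2')
    (hh : hL aht q1 = hL aht q2) (hh' : hL aht q1' = hL aht q2')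
    (hpos : 0 < hL aht q1) (hlt : hL aht q1 < hL aht q1') (hle : hL aht q1' ≤ b) :
    (xL adx q1 < xL adx q2 → xL adx q1' < xL adx q2') ∧
    (xL adx q2 < xL adx q1 → xL adx q2' < xL adx q1') := by
  obtain ⟨m1, f1, g1⟩ := nested e1 e1' hlt
  obtain ⟨m2, f2, g2⟩ := nested e2 e2' (by omega)
  -- initial parts of the second list of height at most `b` are initial parts of `v`
  have hv : ∀ s t : Wd, flat m2 = s ++ t → ∃ d, v = (flat q2 ++ s) ++ d := by
    intro s t hst
    have h3 : v ++ [0] = (flat q2 ++ s) ++ (t ++ flat r2') := by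
      rw [← h2, e2', f2, flat_append, flat_append, hst]; simp
    rcases List.append_eq_append_iff.mp h3 with ⟨a', h4, h5⟩ | ⟨c', h4, h5⟩
    · by_cases ha : a' = []
      · refine ⟨[], ?_⟩
        rw [h4, ha]; simp
      · exfalso
        have h6 : a' = [0] := by
          rcases List.append_eq_cons_iff.mp h5.symm with ⟨h7, _⟩ | ⟨s', h7, h8⟩
          · exact absurd h7 ha
          · have h9 := (List.append_eq_nil_iff.mp h8.symm).1
            rw [h7, h9]
        have h7 : X (flat q2 ++ s) = b + 1 := by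
          rw [h4, h6, X_append, hb]
          have h0 : vx 0 = 1 := rfl
          simp [h0]
        have h8 : X (flat q2 ++ s) ≤ X (flat q2') := by
          rw [f2, flat_append, hst, X_append, X_append, X_append]
          by_cases ht : t = []
          · rw [ht]; simp
          · have := (flat_br m2).2.2 s t hst ht
            omega
        rw [X_flat, ← hh'] at h8
        omega
    · exact ⟨c', h4⟩
  have key : ∀ s t s' t' : Wd, flat m1 = s ++ t → flat m2 = s' ++ t' →
      ¬ (X s = X s' ∧ xL adx q1 + Y s = xL adx q2 + Y s') := by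
    intro s t s' t' hs hs'
    obtain ⟨d, hd⟩ := hv s' t' hs'
    have h3 : u.reverse.map reflY = (flat q1 ++ s) ++ (t ++ flat r1') := by
      rw [← h1, e1', f1, flat_append, flat_append, hs]; simp
    have h4 := UU_disj hS _ _ _ _ h3 hd (by
      left
      intro hcon
      have h5 := (List.append_eq_nil_iff.mp hcon).1
      have h6 := X_flat q1
      rw [h5] at h6
      simp at h6
      omega)
    rw [X_append, X_append, Y_append, Y_append, X_flat, X_flat, Y_flat, Y_flat, hh] at h4
    rintro ⟨hx, hy⟩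
    exact h4 ⟨by omega, hy⟩
  have hX1 : X (flat m1) = ((hL aht q1' : ℕ) : ℤ) - (hL aht q1 : ℕ) := by
    rw [f1, hL_append, X_flat]; push_cast; ring
  have hX2 : X (flat m2) = ((hL aht q1' : ℕ) : ℤ) - (hL aht q1 : ℕ) := by
    rw [hh', hh, f2, hL_append, X_flat]; push_cast; ring
  have hpos' : (0 : ℤ) < ((hL aht q1' : ℕ) : ℤ) - (hL aht q1 : ℕ) := by omega
  constructor
  · intro hlt1
    have := order_lemma (flat m1) (flat m2) _ hpos' _ _ hlt1 (flat_br m1).2.1 (flat_br m1).2.2 hX1
      (flat_br m2).2.1 (flat_br m2).2.2 hX2 key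
    rw [f1, f2, xL_append, xL_append, ← Y_flat m1, ← Y_flat m2]
    exact this
  · intro hlt1
    have := order_lemma (flat m2) (flat m1) _ hpos' _ _ hlt1 (flat_br m2).2.1 (flat_br m2).2.2 hX2
      (flat_br m1).2.1 (flat_br m1).2.2 hX1 (by
        intro s t s' t' hs hs'
        rintro ⟨hx, hy⟩
        exact key s' t' s t hs' hs ⟨hx.symm, hy.symm⟩)
    rw [f1, f2, xL_append, xL_append, ← Y_flat m1, ← Y_flat m2]
    exact this

/-- the difference does not vanish at a common split -/
lemma split_ne {u v : Wd} (hS : Saw (u ++ v.map refl)) {l1 l2 : List Atom}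
    (h1 : flat l1 = u.reverse.map reflY) (h2 : flat l2 = v ++ [0])
    {b : ℕ} (hb : X v = b)
    {q1 r1 q2 r2 : List Atom}
    (e1 : l1 = q1 ++ r1) (e2 : l2 = q2 ++ r2)
    (hh : hL aht q1 = hL aht q2)
    (hpos : 0 < hL aht q1) (hle : hL aht q1 ≤ b) :
    xL adx q1 ≠ xL adx q2 := by
  have h3 : v ++ [0] = flat q2 ++ flat r2 := by rw [← h2, e2, flat_append]
  have hd : ∃ d, v = flat q2 ++ d := by
    rcases List.append_eq_append_iff.mp h3 with ⟨a', h4, h5⟩ | ⟨c', h4, h5⟩
    · by_cases ha : a' = []
      · exact ⟨[], by rw [h4, ha]; simp⟩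
      · exfalso
        have h6 : a' = [0] := by
          rcases List.append_eq_cons_iff.mp h5.symm with ⟨h7, _⟩ | ⟨s', h7, h8⟩
          · exact absurd h7 ha
          · have h9 := (List.append_eq_nil_iff.mp h8.symm).1
            rw [h7, h9]
        have h7 : X (flat q2) = b + 1 := by
          rw [h4, h6, X_append, hb]
          have h0 : vx 0 = 1 := rfl
          simp [h0]
        rw [X_flat, ← hh] at h7
        omega
    · exact ⟨c', h4⟩
  obtain ⟨d, hd⟩ := hd
  have h4 : u.reverse.map reflY = flat q1 ++ flat r1 := by rw [← h1, e1, flat_append]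
  have h5 := UU_disj hS _ _ _ _ h4 hd (by
    left
    intro hcon
    have h6 := X_flat q1
    rw [hcon] at h6
    simp at h6
    omega)
  rw [X_flat, X_flat, Y_flat, Y_flat, hh] at h5
  intro hcon
  exact h5 ⟨rfl, hcon⟩

lemma xL_neg (l : List Atom) : xL (fun x => - adx x) l = - xL adx l := by
  unfold xL
  induction l with
  | nil => simp
  | cons a l ih => simp only [List.map_cons, List.sum_cons, ih]; ring

/-- The pair of lists of two consecutive bridges belongs to one of the two sets. -/
lemma UU_mem {u v : Wd} {a b ℓ : ℕ} (hu : u ∈ Bd a) (hv : v ∈ Bd b) (hS : Saw (u ++ v.map refl))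
    (hab : b < a) (hal : a ≤ b + ℓ) {l1 l2 : List Atom}
    (h1 : flat l1 = u.reverse.map reflY) (h2 : flat l2 = v ++ [0]) :
    (l1, l2) ∈ Yset aht adx ℓ b ∪ Yset aht (fun x => - adx x) ℓ b := by
  have hH1 : hL aht l1 = a := by
    have := X_flat l1
    rw [h1, (Bd_rev_br hu).2] at this
    exact_mod_cast this.symm
  have hH2 : hL aht l2 = b + 1 := by
    have := X_flat l2
    rw [h2, (Bd_append_br hv).2] at this
    exact_mod_cast this.symm
  by_cases hex : ∃ q1 r1 q2 r2, l1 = q1 ++ r1 ∧ l2 = q2 ++ r2 ∧ hL aht q1 = hL aht q2 ∧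
      0 < hL aht q1 ∧ hL aht q1 ≤ b ∧ xL adx q2 < xL adx q1
  · right
    obtain ⟨q1, r1, q2, r2, e1, e2, hh, hpos, hle, hlt⟩ := hex
    refine ⟨hH2, by rw [hH1]; exact hab, by rw [hH1]; exact hal, ?_⟩
    intro q1' r1' q2' r2' e1' e2' hh' hpos' hle'
    rw [xL_neg, xL_neg]
    have hgoal : xL adx q2' < xL adx q1' := by
      have hne := split_ne hS h1 h2 hv.2.2.2 e1' e2' hh' hpos' hle'
      rcases lt_trichotomy (hL aht q1) (hL aht q1') with hc | hc | hc
      · exact (order_step hS h1 h2 hv.2.2.2 e1 e2 e1' e2' hh hh' hpos hc hle').2 hlt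
      · -- same height: same initial parts
        have hq1 : flat q1 = flat q1' := by
          have h3 : flat q1 ++ flat r1 = flat q1' ++ flat r1' := by
            rw [← flat_append, ← flat_append, ← e1, ← e1']
          exact (span_unique (flat_br q1) (flat_br q1') (by rw [X_flat, X_flat, hc]) h3).1
        have hq2 : flat q2 = flat q2' := by
          have h3 : flat q2 ++ flat r2 = flat q2' ++ flat r2' := by
            rw [← flat_append, ← flat_append, ← e2, ← e2']
          exact (span_unique (flat_br q2) (flat_br q2')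
            (by rw [X_flat, X_flat, ← hh, ← hh', hc]) h3).1
        rw [← Y_flat, ← Y_flat, ← hq1, ← hq2, Y_flat, Y_flat]
        exact hlt
      · by_contra hcon
        have hlt' : xL adx q1' < xL adx q2' := lt_of_le_of_ne (not_lt.mp hcon) hne
        have := (order_step hS h1 h2 hv.2.2.2 e1' e2' e1 e2 hh' hh hpos' hc hle).1 hlt'
        omega
    omega
  · left
    refine ⟨hH2, by rw [hH1]; exact hab, by rw [hH1]; exact hal, ?_⟩
    intro q1' r1' q2' r2' e1' e2' hh' hpos' hle'
    have hne := split_ne hS h1 h2 hv.2.2.2 e1' e2' hh' hpos' hle'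
    by_contra hcon
    apply hex
    exact ⟨q1', r1', q2', r2', e1', e2', hh', hpos', hle',
      lt_of_le_of_ne (not_lt.mp hcon) (fun h => hne h.symm)⟩

/-- a point at most the critical point is finite -/
lemma ne_top_of_crit {z : ℝ≥0∞} (hz0 : 0 < z) (hz : z ≤ crit) : z ≠ ⊤ := by
  intro hz1
  have h1 := sum_aw_le_one hz0 hz
  have h2 : aw z ⟨tall 0, tall_irr 0⟩ ≤ ∑' a : Atom, aw z a := ENNReal.le_tsum _
  have h3 : aw z ⟨tall 0, tall_irr 0⟩ = ⊤ := by
    unfold aw tall
    rw [hz1]
    simp
  rw [h3] at h2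
  exact absurd (le_trans h2 h1) (by simp)

/-- weight of a fibred set with light fibres -/
lemma wsum_fiber_le {β γ : Type} (S : Set γ) (T : γ → Set β) (f : γ → ℝ≥0∞) (g : β → ℝ≥0∞)
    (h : ∀ x ∈ S, wsum (T x) g ≤ 1) :
    wsum {q : γ × β | q.1 ∈ S ∧ q.2 ∈ T q.1} (fun q => f q.1 * g q.2) ≤ wsum S f := by
  unfold wsum
  let e : {q : γ × β | q.1 ∈ S ∧ q.2 ∈ T q.1} ≃ (Σ x : S, T x.1) :=
    { toFun := fun p => ⟨⟨p.1.1, p.2.1⟩, ⟨p.1.2, p.2.2⟩⟩
      invFun := fun q => ⟨(q.1.1, q.2.1), ⟨q.1.2, q.2.2⟩⟩
      left_inv := fun p => rfl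
      right_inv := fun q => rfl }
  have h1 : ∑' q : {q : γ × β | q.1 ∈ S ∧ q.2 ∈ T q.1}, f (q : γ × β).1 * g (q : γ × β).2
      = ∑' q : (Σ x : S, T x.1), f (q.1 : γ) * g (q.2 : β) :=
    e.tsum_eq (fun q : (Σ x : S, T x.1) => f (q.1 : γ) * g (q.2 : β))
  rw [h1, ENNReal.tsum_sigma (fun (x : S) (y : T x.1) => f (x : γ) * g (y : β))]
  apply ENNReal.tsum_le_tsum
  intro x
  rw [ENNReal.tsum_mul_left]
  have h2 := h x.1 x.2
  unfold wsum at h2
  calc f (x : γ) * ∑' y : T x.1, g (y : β) ≤ f (x : γ) * 1 := by gcongr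
    _ = f (x : γ) := mul_one _

/-- a list of height at least `m` has a first initial part of height at least `m` -/
lemma exists_Vset {α : Type} (ht : α → ℕ) (l : List α) (m : ℕ) (h : m ≤ hL ht l) :
    ∃ v s, l = v ++ s ∧ v ∈ Vset ht m := by
  induction l generalizing m with
  | nil =>
    refine ⟨[], [], rfl, h, ?_⟩
    intro q r hqr hr
    exact absurd (List.append_eq_nil_iff.mp hqr.symm).2 hr
  | cons a l ih =>
    by_cases hm : m = 0
    · refine ⟨[], a :: l, rfl, by rw [hm]; exact Nat.zero_le _, ?_⟩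
      intro q r hqr hr
      exact absurd (List.append_eq_nil_iff.mp hqr.symm).2 hr
    have hc : hL ht (a :: l) = ht a + hL ht l := by unfold hL; simp
    obtain ⟨v, s, h1, h2, h3⟩ := ih (m - ht a) (by omega)
    refine ⟨a :: v, s, by rw [h1]; rfl, ?_, ?_⟩
    · have hc' : hL ht (a :: v) = ht a + hL ht v := by unfold hL; simp
      omega
    · intro q r hqr hr
      rcases List.cons_eq_append_iff.mp hqr with ⟨h4, _⟩ | ⟨q', h4, h5⟩
      · rw [h4]
        unfold hL
        simp
        omega
      · have h6 := h3 q' r h5 hr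
        have hc' : hL ht q = ht a + hL ht q' := by rw [h4]; unfold hL; simp
        omega

lemma w2_append (w : Atom → ℝ≥0∞) (v s l : List Atom) :
    w2 w (v ++ s, l) = w2 w (v, l) * wL w s := by
  unfold w2 wL
  simp only [List.map_append, List.prod_append]
  ring

/-- Two consecutive bridges: the first list is cut at the first passage of the height `b + 1`. -/
theorem Uw_le_Jw (z : ℝ≥0∞) (hz0 : 0 < z) (hz : z ≤ crit) (a b : ℕ) (hb : 1 ≤ b) (hab : b < a) :
    Uw z a b ≤ Jw z b := by
  classical
  have hz1 : z ≠ ⊤ := ne_top_of_crit hz0 hz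
  have hsum := sum_aw_le_one hz0 hz
  set JJ : Set (List Atom × List Atom) := Jset aht adx b ∪ Jset aht (fun x => - adx x) b with hJJ
  set T : (List Atom × List Atom) → Set (List Atom) := fun p => {s | hL aht s = a - hL aht p.1}
    with hT
  set D : Set ((List Atom × List Atom) × List Atom) := {q | q.1 ∈ JJ ∧ q.2 ∈ T q.1} with hD
  -- choose the lists
  have hch : ∀ p : Wd × Wd, ∃ l : (List Atom × List Atom) × List Atom, p ∈ UU a b →
      flat (l.1.1 ++ l.2) = p.1.reverse.map reflY ∧ flat l.1.2 = p.2 ++ [0] ∧ l ∈ D := by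
    intro p
    by_cases h : p ∈ UU a b
    · obtain ⟨l1, h1⟩ := exists_flat (Bd_rev_br h.1).1
      obtain ⟨l2, h2⟩ := exists_flat (Bd_append_br h.2.1).1
      have hH1 : hL aht l1 = a := by
        have := X_flat l1
        rw [h1, (Bd_rev_br h.1).2] at this
        exact_mod_cast this.symm
      obtain ⟨v, s, e, hv⟩ := exists_Vset aht l1 (b + 1) (by omega)
      refine ⟨((v, l2), s), fun _ => ⟨by rw [← h1, e], h2, ?_, ?_⟩⟩
      · rcases UU_mem h.1 h.2.1 h.2.2 hab (ℓ := a) (by omega) h1 h2 with h3 | h3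
        · left
          refine ⟨hv, h3.1, ?_⟩
          intro q1 r1 q2 r2 e1 e2
          exact h3.2.2.2 q1 (r1 ++ s) q2 r2 (by
            show l1 = _
            have e1 : v = q1 ++ r1 := e1
            rw [e, e1]; simp) e2
        · right
          refine ⟨hv, h3.1, ?_⟩
          intro q1 r1 q2 r2 e1 e2
          exact h3.2.2.2 q1 (r1 ++ s) q2 r2 (by
            show l1 = _
            have e1 : v = q1 ++ r1 := e1
            rw [e, e1]; simp) e2
      · show hL aht s = a - hL aht v
        rw [← hH1, e, hL_append]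
        omega
    · exact ⟨(([], []), []), fun h' => absurd h' h⟩
  choose f hf using hch
  have h1 : Uw z a b ≤ wsum D (fun q => (z⁻¹ * w2 (aw z) q.1) * wL (aw z) q.2) := by
    unfold Uw
    apply wsum_le_of_injOn f
    · intro p hp
      exact (hf p hp).2.2
    · intro p hp p' hp' he
      obtain ⟨h3, h4, _⟩ := hf p hp
      obtain ⟨h3', h4', _⟩ := hf p' hp'
      rw [he] at h3 h4
      have h5 : p.1.reverse.map reflY = p'.1.reverse.map reflY := h3.symm.trans h3'
      have h6 : p.1.reverse = p'.1.reverse := by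
        rw [← reflY_reflY p.1.reverse, h5, reflY_reflY]
      have h7 : p.2 ++ [0] = p'.2 ++ [0] := h4.symm.trans h4'
      exact Prod.ext (List.reverse_injective h6) (List.append_left_injective _ h7)
    · intro p hp
      obtain ⟨h3, h4, _⟩ := hf p hp
      apply le_of_eq
      have h5 : w2 (aw z) (f p).1 * wL (aw z) (f p).2
          = w2 (aw z) ((f p).1.1 ++ (f p).2, (f p).1.2) := (w2_append _ _ _ _).symm
      rw [mul_assoc, h5]
      unfold w2
      rw [wL_flat, wL_flat, h3, h4]
      simp only [List.length_map, List.length_reverse, List.length_append, List.length_cons,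
        List.length_nil, zero_add, pow_add, pow_one]
      rw [show z⁻¹ * (z ^ p.1.length * (z ^ p.2.length * z))
        = (z⁻¹ * z) * (z ^ p.1.length * z ^ p.2.length) by ring,
        ENNReal.inv_mul_cancel hz0.ne' hz1, one_mul]
  have h2 : wsum D (fun q => (z⁻¹ * w2 (aw z) q.1) * wL (aw z) q.2)
      ≤ wsum JJ (fun p => z⁻¹ * w2 (aw z) p) := by
    apply wsum_fiber_le JJ T
    intro p _
    exact Bw_le_one aht (aw z) one_le_aht hsum (a - hL aht p.1)
  rw [wsum_mul_left] at h2
  unfold Jw
  refine le_trans h1 (le_trans h2 ?_)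
  gcongr
  exact wsum_union_le _ _ _

theorem dyadic_Jw_le (z : ℝ≥0∞) (hz0 : 0 < z) (hz : z ≤ crit) (L : ℕ) (hL : 1 ≤ L) :
    ∑ b ∈ Finset.Ico L (2 * L), Jw z b ≤ z⁻¹ * ENNReal.ofReal (4 * √(L : ℝ)) := by
  unfold Jw
  rw [← Finset.mul_sum, Finset.sum_add_distrib]
  gcongr
  have h2 := theoremJ aht adx (aw z) one_le_aht (sum_aw_le_one hz0 hz) L hL
  have h3 := theoremJ aht (fun x => - adx x) (aw z) one_le_aht (sum_aw_le_one hz0 hz) L hL
  refine le_trans (add_le_add h2 h3) ?_
  rw [← ENNReal.ofReal_add (by positivity) (by positivity)]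
  apply ENNReal.ofReal_le_ofReal
  apply le_of_eq
  ring

end Pool.Agent.BB
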