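import Mathlib

/-!
# Solution of the Hammersley-Welsh recursion with a bound for consecutive bridges
-/

set_option autoImplicit false

open Finset

open scoped ENNReal

namespace Pool.Agent.BB

namespace Solve

/-- a doubling sum -/
theorem sum_dyadic (f : ℕ → ℝ) (n : ℕ) :
    ∑ b ∈ Ico 1 (2 ^ n), f b = ∑ i ∈ range n, ∑ b ∈ Ico (2 ^ i) (2 * 2 ^ i), f b := by
  induction n with
  | zero => simp
  | succ n ih =>
    rw [sum_range_succ, ← ih, pow_succ, mul_comm (2 ^ n) 2]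
    exact (sum_Ico_consecutive f Nat.one_le_two_pow (by omega)).symm

theorem sum_sqrt_two (n : ℕ) :
    ∑ i ∈ range n, Real.sqrt 2 ^ i ≤ 5 / 2 * Real.sqrt 2 ^ n := by
  induction n with
  | zero => norm_num
  | succ n ih =>
    rw [sum_range_succ, pow_succ]
    have h : (7 / 5 : ℝ) ≤ Real.sqrt 2 := by
      rw [show (7 / 5 : ℝ) = Real.sqrt ((7 / 5) ^ 2) by rw [Real.sqrt_sq (by norm_num)]]
      exact Real.sqrt_le_sqrt (by norm_num)
    have h0 : 0 ≤ Real.sqrt 2 ^ n := by positivity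
    nlinarith

theorem sqrt_two_pow (i : ℕ) : Real.sqrt ((2 ^ i : ℕ) : ℝ) = Real.sqrt 2 ^ i := by
  push_cast
  rw [Real.sqrt_eq_iff_mul_self_eq (by positivity) (by positivity), ← mul_pow,
    Real.mul_self_sqrt (by norm_num)]

section
variable (k : ℕ) (H : ℕ → ℝ) (U : ℕ → ℕ → ℝ)

/-- partial sums -/
noncomputable def Z (A : ℕ) : ℝ := ∑ i ∈ range A, H i

/-- the near part of the sum -/
noncomputable def u (A : ℕ) : ℝ := ∑ b ∈ (Ico 1 A).filter (fun b => A ≤ b + k), U A b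

variable {k H U}

theorem Z_succ (A : ℕ) : Z H (A + 1) = Z H A + H A := by
  unfold Z
  rw [sum_range_succ]

theorem Z_mono (hH : ∀ A, 0 ≤ H A) {A B : ℕ} (h : A ≤ B) : Z H A ≤ Z H B := by
  unfold Z
  exact sum_le_sum_of_subset_of_nonneg (range_mono h) fun i _ _ => hH i

theorem one_le_Z (hH : ∀ A, 0 ≤ H A) (h0 : H 0 = 1) {A : ℕ} (h : 1 ≤ A) : 1 ≤ Z H A := by
  have h1 : Z H 1 = 1 := by
    unfold Z
    rw [sum_range_one, h0]
  rw [← h1]
  exact Z_mono hH h

theorem u_nonneg (hU : ∀ a b, 0 ≤ U a b) (A : ℕ) : 0 ≤ u k U A := by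
  unfold u
  exact sum_nonneg fun b _ => hU A b

/-- one step inside a block -/
theorem H_le (hH : ∀ A, 0 ≤ H A) (hU : ∀ a b, 0 ≤ U a b) (h0 : H 0 = 1)
    (hU1 : ∀ a b, 1 ≤ b → b < a → U a b ≤ 1)
    (h42 : ∀ A, 1 ≤ A → H A ≤ 1 + ∑ b ∈ Ico 1 A, U A b * Z H b)
    (L0 m A : ℕ) (hA : 1 ≤ A) (hA1 : A ≤ L0) (hA2 : A ≤ (m + 1) * k) :
    H A ≤ u k U A * Z H A + (L0 + 1) * Z H (m * k + 1) := by
  have h1 := h42 A hA
  rw [← sum_filter_add_sum_filter_not (Ico 1 A) (fun b => A ≤ b + k)] at h1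
  have h2 : ∑ b ∈ (Ico 1 A).filter (fun b => A ≤ b + k), U A b * Z H b ≤ u k U A * Z H A := by
    unfold u
    rw [sum_mul]
    refine sum_le_sum fun b hb => ?_
    rw [mem_filter, mem_Ico] at hb
    exact mul_le_mul_of_nonneg_left (Z_mono hH (by omega)) (hU A b)
  have h3 : ∑ b ∈ (Ico 1 A).filter (fun b => ¬ A ≤ b + k), U A b * Z H b ≤
      L0 * Z H (m * k + 1) := by
    have hZ : 0 ≤ Z H (m * k + 1) := by linarith [one_le_Z hH h0 (show 1 ≤ m * k + 1 by omega)]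
    calc ∑ b ∈ (Ico 1 A).filter (fun b => ¬ A ≤ b + k), U A b * Z H b
        ≤ ∑ _b ∈ (Ico 1 A).filter (fun b => ¬ A ≤ b + k), Z H (m * k + 1) := by
          refine sum_le_sum fun b hb => ?_
          rw [mem_filter, mem_Ico] at hb
          have hb2 : b ≤ m * k + 1 := by
            have : (m + 1) * k = m * k + k := by ring
            omega
          calc U A b * Z H b ≤ 1 * Z H (m * k + 1) := by
                refine mul_le_mul (hU1 A b hb.1.1 hb.1.2) (Z_mono hH hb2) ?_ (by norm_num)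
                linarith [one_le_Z hH h0 hb.1.1]
            _ = Z H (m * k + 1) := one_mul _
      _ = (((Ico 1 A).filter (fun b => ¬ A ≤ b + k)).card : ℝ) * Z H (m * k + 1) := by
          rw [sum_const, nsmul_eq_mul]
      _ ≤ L0 * Z H (m * k + 1) := by
          refine mul_le_mul_of_nonneg_right ?_ hZ
          have h4 := card_filter_le (Ico 1 A) (fun b => ¬ A ≤ b + k)
          rw [Nat.card_Ico] at h4
          have h5 : ((Ico 1 A).filter (fun b => ¬ A ≤ b + k)).card ≤ L0 := by omega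
          exact_mod_cast h5
  have h4 := one_le_Z hH h0 (show 1 ≤ m * k + 1 by omega)
  linarith

/-- inside a block -/
theorem block (hH : ∀ A, 0 ≤ H A) (hU : ∀ a b, 0 ≤ U a b) (h0 : H 0 = 1)
    (hU1 : ∀ a b, 1 ≤ b → b < a → U a b ≤ 1)
    (h42 : ∀ A, 1 ≤ A → H A ≤ 1 + ∑ b ∈ Ico 1 A, U A b * Z H b)
    (L0 m : ℕ) (hm : (m + 1) * k ≤ L0) (i : ℕ) (hi : i ≤ k) :
    Z H (m * k + 1 + i) ≤ (∏ A ∈ Ico (m * k + 1) (m * k + 1 + i), (1 + u k U A)) *
      (1 + i * (L0 + 1)) * Z H (m * k + 1) := by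
  induction i with
  | zero => simp
  | succ i ih =>
    have ih' := ih (by omega)
    have hk : (m + 1) * k = m * k + k := by ring
    have h1 := H_le (k := k) hH hU h0 hU1 h42 L0 m (m * k + 1 + i) (by omega) (by omega) (by omega)
    rw [← add_assoc, Z_succ, prod_Ico_succ_top (by omega)]
    set P := ∏ A ∈ Ico (m * k + 1) (m * k + 1 + i), (1 + u k U A) with hP
    set v := u k U (m * k + 1 + i) with hv
    have hv0 : 0 ≤ v := u_nonneg hU _
    have hP1 : 1 ≤ P := by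
      rw [hP]
      calc (1 : ℝ) = ∏ _A ∈ Ico (m * k + 1) (m * k + 1 + i), (1 : ℝ) := by simp
        _ ≤ _ := prod_le_prod (fun _ _ => by norm_num) fun A _ => by
            linarith [u_nonneg (k := k) hU A]
    have hZ : 1 ≤ Z H (m * k + 1) := one_le_Z hH h0 (by omega)
    have hvP : 1 ≤ P * (1 + v) := by nlinarith
    have h2 : (L0 + 1) * Z H (m * k + 1) ≤ P * (1 + v) * ((L0 + 1) * Z H (m * k + 1)) := by
      have : 0 ≤ ((L0 : ℝ) + 1) * Z H (m * k + 1) := by positivity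
      nlinarith
    calc Z H (m * k + 1 + i) + H (m * k + 1 + i)
        ≤ (1 + v) * Z H (m * k + 1 + i) + (L0 + 1) * Z H (m * k + 1) := by linarith
      _ ≤ (1 + v) * (P * (1 + i * (L0 + 1)) * Z H (m * k + 1)) +
          P * (1 + v) * ((L0 + 1) * Z H (m * k + 1)) := by
          refine add_le_add (mul_le_mul_of_nonneg_left ih' (by linarith)) h2
      _ = P * (1 + v) * (1 + ((i + 1 : ℕ) : ℝ) * (L0 + 1)) * Z H (m * k + 1) := by
          push_cast
          ring

/-- all blocks -/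
theorem blocks (hH : ∀ A, 0 ≤ H A) (hU : ∀ a b, 0 ≤ U a b) (h0 : H 0 = 1)
    (hU1 : ∀ a b, 1 ≤ b → b < a → U a b ≤ 1)
    (h42 : ∀ A, 1 ≤ A → H A ≤ 1 + ∑ b ∈ Ico 1 A, U A b * Z H b)
    (L0 m : ℕ) (hm : m * k ≤ L0) :
    Z H (m * k + 1) ≤ (∏ A ∈ Ico 1 (m * k + 1), (1 + u k U A)) * (1 + k * (L0 + 1)) ^ m := by
  induction m with
  | zero =>
    have : Z H 1 = 1 := by
      unfold Z
      rw [sum_range_one, h0]
    simp [this]
  | succ m ih =>
    have hk : (m + 1) * k = m * k + k := by ring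
    have ih' := ih (by omega)
    have h1 := block hH hU h0 hU1 h42 L0 m hm k le_rfl
    have h2 : (m + 1) * k + 1 = m * k + 1 + k := by ring
    rw [h2]
    rw [← prod_Ico_consecutive (fun A => 1 + u k U A) (show 1 ≤ m * k + 1 by omega)
      (show m * k + 1 ≤ m * k + 1 + k by omega)]
    set P := ∏ A ∈ Ico (m * k + 1) (m * k + 1 + k), (1 + u k U A) with hP
    have hP0 : 0 ≤ P := prod_nonneg fun A _ => by linarith [u_nonneg (k := k) hU A]
    calc Z H (m * k + 1 + k) ≤ P * (1 + k * (L0 + 1)) * Z H (m * k + 1) := h1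
      _ ≤ P * (1 + k * (L0 + 1)) *
          ((∏ A ∈ Ico 1 (m * k + 1), (1 + u k U A)) * (1 + k * (L0 + 1)) ^ m) :=
          mul_le_mul_of_nonneg_left ih' (by positivity)
      _ = _ := by
          rw [pow_succ]
          ring

/-- the sum of the near parts -/
theorem sum_u_le (hU : ∀ a b, 0 ≤ U a b) (mu : ℝ)
    (h31 : ∀ L, 1 ≤ L → ∑ b ∈ Ico L (2 * L), ∑ a ∈ Ioc b (b + k), U a b ≤
      4 * mu * k * Real.sqrt L) (hmu : 0 ≤ mu) (j : ℕ) (hk : k = 2 ^ j) :
    ∑ A ∈ Ico 1 (k ^ 4 + 1), u k U A ≤ 10 * mu * k ^ 3 := by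
  have hk4 : k ^ 4 = 2 ^ (4 * j) := by
    rw [hk, ← pow_mul, mul_comm]
  have h1 : ∑ A ∈ Ico 1 (k ^ 4 + 1), u k U A ≤
      ∑ b ∈ Ico 1 (k ^ 4), ∑ a ∈ Ioc b (b + k), U a b := by
    calc ∑ A ∈ Ico 1 (k ^ 4 + 1), u k U A
        = ∑ A ∈ Ico 1 (k ^ 4 + 1), ∑ b ∈ Ico 1 (k ^ 4),
            (if b < A ∧ A ≤ b + k then U A b else 0) := by
          refine sum_congr rfl fun A hA => ?_
          rw [mem_Ico] at hA
          unfold u
          rw [← sum_filter]
          refine sum_congr ?_ fun _ _ => rfl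
          ext b
          simp only [mem_filter, mem_Ico]
          omega
      _ = ∑ b ∈ Ico 1 (k ^ 4), ∑ A ∈ Ico 1 (k ^ 4 + 1),
            (if b < A ∧ A ≤ b + k then U A b else 0) := sum_comm
      _ ≤ ∑ b ∈ Ico 1 (k ^ 4), ∑ a ∈ Ioc b (b + k), U a b := by
          refine sum_le_sum fun b _ => ?_
          rw [← sum_filter]
          refine sum_le_sum_of_subset_of_nonneg ?_ fun a _ _ => hU a b
          intro a ha
          rw [mem_filter] at ha
          rw [mem_Ioc]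
          exact ha.2
  refine h1.trans ?_
  have hk0 : (k : ℝ) = 2 ^ j := by
    rw [hk]
    push_cast
    ring
  rw [hk4, sum_dyadic]
  calc ∑ i ∈ range (4 * j), ∑ b ∈ Ico (2 ^ i) (2 * 2 ^ i), ∑ a ∈ Ioc b (b + k), U a b
      ≤ ∑ i ∈ range (4 * j), 4 * mu * k * Real.sqrt 2 ^ i := by
        refine sum_le_sum fun i _ => ?_
        have := h31 (2 ^ i) Nat.one_le_two_pow
        rw [sqrt_two_pow] at this
        exact this
    _ = 4 * mu * k * ∑ i ∈ range (4 * j), Real.sqrt 2 ^ i := by rw [mul_sum]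
    _ ≤ 4 * mu * k * (5 / 2 * Real.sqrt 2 ^ (4 * j)) := by
        refine mul_le_mul_of_nonneg_left (sum_sqrt_two _) (by positivity)
    _ = 10 * mu * k ^ 3 := by
        have h5 : Real.sqrt 2 ^ (4 * j) = (k : ℝ) ^ 2 := by
          rw [show 4 * j = 2 * (2 * j) by ring, pow_mul, Real.sq_sqrt (by norm_num), hk0]
          ring
        rw [h5]
        ring

/-- the geometric tail -/
theorem tail_sum (t : ℝ) (ht : 0 < t) (L N : ℕ) :
    ∑ A ∈ Ico (L + 1) N, Real.exp (-t * A) ≤ Real.exp (-t * L) / t := by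
  have hstep : ∀ A : ℕ, Real.exp (-t * (A + 1 : ℕ)) ≤
      (Real.exp (-t * A) - Real.exp (-t * (A + 1 : ℕ))) / t := by
    intro A
    rw [le_div_iff₀ ht]
    have h1 : Real.exp (-t * A) = Real.exp (-t * (A + 1 : ℕ)) * Real.exp t := by
      rw [← Real.exp_add]
      congr 1
      push_cast
      ring
    rw [h1]
    have h2 := Real.add_one_le_exp t
    have h3 := Real.exp_pos (-t * (A + 1 : ℕ))
    nlinarith
  have hmain : ∀ M : ℕ, ∑ A ∈ Ico (L + 1) (L + 1 + M), Real.exp (-t * A) ≤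
      (Real.exp (-t * L) - Real.exp (-t * (L + M : ℕ))) / t := by
    intro M
    induction M with
    | zero => simp
    | succ M ih =>
      rw [← add_assoc, sum_Ico_succ_top (by omega)]
      have h4 := hstep (L + M)
      have e : L + 1 + M = L + M + 1 := by ring
      rw [e] at ih ⊢
      have e2 : L + (M + 1) = L + M + 1 := by ring
      rw [e2]
      calc _ ≤ (Real.exp (-t * L) - Real.exp (-t * (L + M : ℕ))) / t +
            (Real.exp (-t * (L + M : ℕ)) - Real.exp (-t * (L + M + 1 : ℕ))) / t :=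
            add_le_add ih h4
        _ = _ := by ring
  rcases le_total N (L + 1) with h | h
  · rw [Ico_eq_empty_of_le h]
    simp
    positivity
  · obtain ⟨M, rfl⟩ := Nat.exists_eq_add_of_le h
    refine (hmain M).trans ?_
    rw [div_le_div_iff_of_pos_right ht]
    linarith [Real.exp_pos (-t * (L + M : ℕ))]

/-- beyond `L` the partial sums only grow by a bounded factor -/
theorem Z_tail (hH : ∀ A, 0 ≤ H A) (t : ℝ)
    (h41 : ∀ A, 1 ≤ A → H A ≤ Real.exp (-t * A) * Z H A) (L N : ℕ) (h : L + 1 ≤ N) :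
    Z H N ≤ Z H (L + 1) * Real.exp (∑ A ∈ Ico (L + 1) N, Real.exp (-t * A)) := by
  obtain ⟨M, rfl⟩ := Nat.exists_eq_add_of_le h
  clear h
  induction M with
  | zero => simp
  | succ M ih =>
    rw [← add_assoc, Z_succ, sum_Ico_succ_top (by omega), Real.exp_add]
    have h1 := h41 (L + 1 + M) (by omega)
    set x := Real.exp (-t * (L + 1 + M : ℕ)) with hx
    have hx0 : 0 < x := Real.exp_pos _
    have h2 := Real.add_one_le_exp x
    have hZ : 0 ≤ Z H (L + 1 + M) := sum_nonneg fun i _ => hH i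
    calc Z H (L + 1 + M) + H (L + 1 + M) ≤ Z H (L + 1 + M) * (x + 1) := by linarith
      _ ≤ Z H (L + 1 + M) * Real.exp x := mul_le_mul_of_nonneg_left h2 hZ
      _ ≤ Z H (L + 1) * Real.exp (∑ A ∈ Ico (L + 1) (L + 1 + M), Real.exp (-t * A)) *
          Real.exp x := mul_le_mul_of_nonneg_right ih (Real.exp_pos _).le
      _ = _ := by ring

/-- **real form of the solution** -/
theorem main (hH : ∀ A, 0 ≤ H A) (hU : ∀ a b, 0 ≤ U a b) (h0 : H 0 = 1)
    (hU1 : ∀ a b, 1 ≤ b → b < a → U a b ≤ 1)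
    (h42 : ∀ A, 1 ≤ A → H A ≤ 1 + ∑ b ∈ Ico 1 A, U A b * Z H b)
    (mu : ℝ) (hmu : 0 ≤ mu) (j : ℕ) (hk : k = 2 ^ j) (t : ℝ)
    (ht : t = 4 * Real.log (k + 1) / k ^ 4)
    (h41 : ∀ A, 1 ≤ A → H A ≤ Real.exp (-t * A) * Z H A)
    (h31 : ∀ L, 1 ≤ L → ∑ b ∈ Ico L (2 * L), ∑ a ∈ Ioc b (b + k), U a b ≤
      4 * mu * k * Real.sqrt L) (N : ℕ) :
    Z H N ≤ Real.exp (1 + 10 * mu * k ^ 3 + 5 * k ^ 3 * Real.log (k + 1)) := by
  have hk1 : 1 ≤ k := by
    rw [hk]
    exact Nat.one_le_two_pow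
  have hkr : (1 : ℝ) ≤ k := by exact_mod_cast hk1
  have hlog : Real.log 2 ≤ Real.log (k + 1) := Real.log_le_log (by norm_num) (by linarith)
  have hlog2 := Real.log_two_gt_d9
  have hk4 : (0 : ℝ) < (k : ℝ) ^ 4 := by positivity
  have ht0 : 0 < t := by
    rw [ht]
    have : 0 < Real.log (k + 1) := by linarith
    positivity
  -- the first part
  have hA : Z H (k ^ 4 + 1) ≤ Real.exp (10 * mu * k ^ 3) *
      Real.exp (5 * k ^ 3 * Real.log (k + 1)) := by
    have e : k ^ 3 * k = k ^ 4 := by ring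
    have h1 := blocks (k := k) hH hU h0 hU1 h42 (k ^ 4) (k ^ 3) (le_of_eq e)
    rw [e] at h1
    refine h1.trans ?_
    refine mul_le_mul ?_ ?_ (by positivity) (Real.exp_pos _).le
    · calc ∏ A ∈ Ico 1 (k ^ 4 + 1), (1 + u k U A)
          ≤ ∏ A ∈ Ico 1 (k ^ 4 + 1), Real.exp (u k U A) := by
            refine prod_le_prod (fun A _ => by linarith [u_nonneg (k := k) hU A]) fun A _ => ?_
            rw [add_comm]
            exact Real.add_one_le_exp _
        _ = Real.exp (∑ A ∈ Ico 1 (k ^ 4 + 1), u k U A) := (Real.exp_sum _ _).symm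
        _ ≤ Real.exp (10 * mu * k ^ 3) :=
            Real.exp_le_exp.mpr (sum_u_le hU mu h31 hmu j hk)
    · have h2 : (1 : ℝ) + k * (((k ^ 4 : ℕ) : ℝ) + 1) ≤ (k + 1) ^ 5 := by
        push_cast
        nlinarith [pow_pos (show (0 : ℝ) < k by linarith) 2, pow_pos (show (0 : ℝ) < k by linarith) 3,
          pow_pos (show (0 : ℝ) < k by linarith) 4]
      calc (1 + (k : ℝ) * (((k ^ 4 : ℕ) : ℝ) + 1)) ^ (k ^ 3)
          ≤ (((k : ℝ) + 1) ^ 5) ^ (k ^ 3) := by
            refine pow_le_pow_left₀ (by positivity) h2 _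
        _ = Real.exp (5 * k ^ 3 * Real.log (k + 1)) := by
            rw [← Real.exp_log (show (0 : ℝ) < (k : ℝ) + 1 by linarith), ← Real.exp_nat_mul,
              ← Real.exp_nat_mul, Real.exp_log (show (0 : ℝ) < (k : ℝ) + 1 by linarith)]
            congr 1
            push_cast
            ring
  have hexp : Real.exp (-t * (k ^ 4 : ℕ)) / t ≤ 1 := by
    have h1 : -t * ((k ^ 4 : ℕ) : ℝ) = -(4 * Real.log (k + 1)) := by
      rw [ht]
      push_cast
      field_simp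
    rw [h1, Real.exp_neg, div_le_one ht0]
    have h2 : Real.exp (4 * Real.log (k + 1)) = ((k : ℝ) + 1) ^ 4 := by
      rw [show (4 : ℝ) = ((4 : ℕ) : ℝ) by norm_num, Real.exp_nat_mul,
        Real.exp_log (show (0 : ℝ) < (k : ℝ) + 1 by linarith)]
    rw [h2, ht, le_div_iff₀ hk4, inv_mul_le_iff₀ (by positivity)]
    have h3 : (k : ℝ) ^ 4 ≤ (k + 1) ^ 4 := pow_le_pow_left₀ (by linarith) (by linarith) _
    have h4 : 1 ≤ 4 * Real.log (k + 1) := by linarith
    have h5 : (0 : ℝ) < ((k : ℝ) + 1) ^ 4 := by positivity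
    nlinarith
  have hB : Z H N ≤ Z H (k ^ 4 + 1) * Real.exp 1 := by
    rcases le_total N (k ^ 4 + 1) with h | h
    · have h1 := Z_mono hH h
      have h2 : 1 ≤ Real.exp 1 := Real.one_le_exp (by norm_num)
      have h3 : 0 ≤ Z H (k ^ 4 + 1) := sum_nonneg fun i _ => hH i
      nlinarith
    · refine (Z_tail hH t h41 (k ^ 4) N h).trans ?_
      refine mul_le_mul_of_nonneg_left (Real.exp_le_exp.mpr ?_) (sum_nonneg fun i _ => hH i)
      exact (tail_sum t ht0 (k ^ 4) N).trans hexp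
  calc Z H N ≤ Z H (k ^ 4 + 1) * Real.exp 1 := hB
    _ ≤ (Real.exp (10 * mu * k ^ 3) * Real.exp (5 * k ^ 3 * Real.log (k + 1))) * Real.exp 1 :=
        mul_le_mul_of_nonneg_right hA (Real.exp_pos _).le
    _ = _ := by
        rw [← Real.exp_add, ← Real.exp_add]
        congr 1
        ring

end

end Solve

/-- **The recursion (4.1), (4.2) with the bound (3.1)** in `ℝ≥0∞` -/
theorem rec_solution (mu : ℝ) (hmu : 0 ≤ mu) (j k : ℕ) (hk : k = 2 ^ j) (t : ℝ)
    (ht : t = 4 * Real.log (k + 1) / k ^ 4) (H : ℕ → ℝ≥0∞) (U : ℕ → ℕ → ℝ≥0∞) (h0 : H 0 = 1)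
    (h41 : ∀ A, 1 ≤ A → H A ≤ ENNReal.ofReal (Real.exp (-t * A)) * ∑ i ∈ range A, H i)
    (h42 : ∀ A, 1 ≤ A → H A ≤ 1 + ∑ b ∈ Ico 1 A, U A b * ∑ i ∈ range b, H i)
    (hU : ∀ a b, 1 ≤ b → b < a → U a b ≤ 1)
    (h31 : ∀ L, 1 ≤ L → ∑ b ∈ Ico L (2 * L), ∑ a ∈ Ioc b (b + k), U a b ≤
      ENNReal.ofReal (4 * mu * k * Real.sqrt L)) :
    ∑' A, H A ≤ ENNReal.ofReal
      (Real.exp (1 + 10 * mu * k ^ 3 + 5 * k ^ 3 * Real.log (k + 1))) := by
  have hfin : ∀ A, H A ≠ ∞ := by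
    intro A
    induction A using Nat.strong_induction_on with
    | _ A ih =>
      rcases Nat.eq_zero_or_pos A with h | h
      · rw [h, h0]
        exact ENNReal.one_ne_top
      · refine ne_top_of_le_ne_top ?_ (h41 A h)
        refine ENNReal.mul_ne_top ENNReal.ofReal_ne_top ?_
        rw [ENNReal.sum_ne_top]
        intro i hi
        exact ih i (mem_range.mp hi)
  have hUfin : ∀ a b, 1 ≤ b → b < a → U a b ≠ ∞ := fun a b h1 h2 =>
    ne_top_of_le_ne_top ENNReal.one_ne_top (hU a b h1 h2)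
  set h : ℕ → ℝ := fun A => (H A).toReal with hh
  set v : ℕ → ℕ → ℝ := fun a b => (U a b).toReal with hv
  have hZ : ∀ A, (∑ i ∈ range A, H i).toReal = Solve.Z h A := by
    intro A
    rw [ENNReal.toReal_sum fun i _ => hfin i]
    rfl
  have hZfin : ∀ A, ∑ i ∈ range A, H i ≠ ∞ := by
    intro A
    rw [ENNReal.sum_ne_top]
    exact fun i _ => hfin i
  have main := Solve.main (k := k) (H := h) (U := v) (fun A => ENNReal.toReal_nonneg)
    (fun a b => ENNReal.toReal_nonneg) (by simp [hh, h0])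
    (fun a b h1 h2 => by
      have := ENNReal.toReal_mono ENNReal.one_ne_top (hU a b h1 h2)
      simpa using this)
    (fun A hA => by
      have hf : ∀ b ∈ Ico 1 A, U A b * ∑ i ∈ range b, H i ≠ ∞ := fun b hb =>
        ENNReal.mul_ne_top (hUfin A b (mem_Ico.mp hb).1 (mem_Ico.mp hb).2) (hZfin b)
      have hs : ∑ b ∈ Ico 1 A, U A b * ∑ i ∈ range b, H i ≠ ∞ := by
        rw [ENNReal.sum_ne_top]
        exact hf
      have h1 := ENNReal.toReal_mono (ENNReal.add_ne_top.mpr ⟨ENNReal.one_ne_top, hs⟩) (h42 A hA)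
      rw [ENNReal.toReal_add ENNReal.one_ne_top hs, ENNReal.toReal_sum hf] at h1
      simpa [ENNReal.toReal_mul, hZ] using h1)
    mu hmu j hk t ht
    (fun A hA => by
      have h1 := ENNReal.toReal_mono
        (ENNReal.mul_ne_top ENNReal.ofReal_ne_top (hZfin A)) (h41 A hA)
      rw [ENNReal.toReal_mul, ENNReal.toReal_ofReal (Real.exp_pos _).le, hZ] at h1
      exact h1)
    (fun L hL => by
      have hf : ∀ b ∈ Ico L (2 * L), ∑ a ∈ Ioc b (b + k), U a b ≠ ∞ := by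
        intro b hb
        rw [ENNReal.sum_ne_top]
        intro a ha
        rw [mem_Ioc] at ha
        rw [mem_Ico] at hb
        exact hUfin a b (by omega) ha.1
      have h1 := ENNReal.toReal_mono ENNReal.ofReal_ne_top (h31 L hL)
      rw [ENNReal.toReal_sum hf, ENNReal.toReal_ofReal (by positivity)] at h1
      refine le_trans (le_of_eq ?_) h1
      refine sum_congr rfl fun b hb => ?_
      rw [ENNReal.toReal_sum]
      intro a ha
      rw [mem_Ioc] at ha
      rw [mem_Ico] at hb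
      exact hUfin a b (by omega) ha.1)
  refine ENNReal.tsum_le_of_sum_range_le fun N => ?_
  rw [ENNReal.le_ofReal_iff_toReal_le (hZfin N) (Real.exp_pos _).le, hZ]
  exact main N

/-- The form used in the assembly: `H 0 ≤ 1`. -/
theorem solve (κ : ℝ) (hκ : 0 < κ) (j k : ℕ) (hk : k = 2 ^ j) (t : ℝ)
    (ht : t = 4 * Real.log (k + 1) / (k : ℝ) ^ 4)
    (H : ℕ → ℝ≥0∞) (U : ℕ → ℕ → ℝ≥0∞) (hH0 : H 0 ≤ 1)
    (hU1 : ∀ a b, U a b ≤ 1)
    (h1 : ∀ A, 1 ≤ A → H A ≤ ENNReal.ofReal (Real.exp (-t)) ^ A * ∑ A' ∈ Finset.range A, H A')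
    (h2 : ∀ A, 1 ≤ A → H A ≤ 1 + ∑ A' ∈ Finset.Ico 1 A, U A A' * ∑ A'' ∈ Finset.range A', H A'')
    (h3 : ∀ L, 1 ≤ L → ∑ b ∈ Finset.Ico L (2 * L), ∑ a ∈ Finset.Ioc b (b + k), U a b ≤
      ENNReal.ofReal (κ * (4 * (k : ℝ) * √(L : ℝ)))) :
    ∑' A, H A ≤ ENNReal.ofReal (Real.exp (1 + 14 * κ * (k : ℝ) ^ 3
      + 5 * (k : ℝ) ^ 3 * Real.log (k + 1))) := by
  set G : ℕ → ℝ≥0∞ := Function.update H 0 1 with hG
  have hG0 : G 0 = 1 := by simp [hG]
  have hG1 : ∀ A, 1 ≤ A → G A = H A := fun A hA => by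
    rw [hG, Function.update_of_ne (by omega)]
  have hle : ∀ A, H A ≤ G A := fun A => by
    rcases Nat.eq_zero_or_pos A with h | h
    · rw [h, hG0]
      exact hH0
    · exact (hG1 A h).ge
  have hsum : ∀ A, ∑ i ∈ range A, H i ≤ ∑ i ∈ range A, G i := fun A =>
    sum_le_sum fun i _ => hle i
  have h := rec_solution κ hκ.le j k hk t ht G U hG0
    (fun A hA => by
      rw [hG1 A hA]
      refine (h1 A hA).trans ?_
      have e : ENNReal.ofReal (Real.exp (-t)) ^ A = ENNReal.ofReal (Real.exp (-t * A)) := by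
        rw [← ENNReal.ofReal_pow (Real.exp_pos _).le, ← Real.exp_nat_mul]
        congr 2
        ring
      rw [e]
      exact mul_le_mul_right (hsum A) _)
    (fun A hA => by
      rw [hG1 A hA]
      refine (h2 A hA).trans ?_
      exact add_le_add_right (sum_le_sum fun b _ => mul_le_mul_right (hsum b) _) _)
    (fun a b _ _ => hU1 a b)
    (fun L hL => by
      refine (h3 L hL).trans (le_of_eq ?_)
      congr 1
      ring)
  calc ∑' A, H A ≤ ∑' A, G A := ENNReal.tsum_le_tsum hle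
    _ ≤ _ := h
    _ ≤ _ := by
        refine ENNReal.ofReal_le_ofReal (Real.exp_le_exp.mpr ?_)
        have : 0 ≤ κ * (k : ℝ) ^ 3 := by positivity
        linarith

end Pool.Agent.BB
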