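import Pool.Agent.BB.Defs
import Pool.Agent.BB.FeketeCw
import Pool.Agent.SawTree.Bridge

set_option autoImplicit false

open scoped ENNReal
open Filter Topology Pool.Agent.SawTree

namespace Pool.Agent.BB

/-- A self-avoiding walk of the square lattice starting at the origin, as the list of its sites,
endpoint first. These lists are the vertices of the tree; a walk of `n` steps is a list of `n + 1`
sites. -/
def SqSaw (w : List (ℤ × ℤ)) : Prop :=
  w.Nodup ∧ w.getLast? = some ((0 : ℤ), (0 : ℤ)) ∧
    ∀ i : ℕ, i + 1 < w.length →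
      |(w.getD i ((0 : ℤ), (0 : ℤ))).1 - (w.getD (i + 1) ((0 : ℤ), (0 : ℤ))).1|
        + |(w.getD i ((0 : ℤ), (0 : ℤ))).2 - (w.getD (i + 1) ((0 : ℤ), (0 : ℤ))).2| = 1

/-- the number of self-avoiding walks of `n` steps from the origin -/
noncomputable def walkCount (n : ℕ) : ℕ :=
  Nat.card {w : List (ℤ × ℤ) // SqSaw w ∧ w.length = n + 1}

lemma sqSaw_pr (r : Wd) : SqSaw (pr r) ↔ Saw r := by
  unfold SqSaw
  constructor
  · rintro ⟨h1, _, _⟩
    exact (nodup_pr r).mp h1
  · intro h
    exact ⟨(nodup_pr r).mpr h, getLast_pr r, adj_pr r⟩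

lemma exists_pr_walk : ∀ w : List (ℤ × ℤ), SqSaw w → ∃ r, w = pr r := by
  intro w
  induction w with
  | nil => intro h; simp [SqSaw] at h
  | cons p w ih =>
    intro h
    cases w with
    | nil =>
      refine ⟨[], ?_⟩
      have := h.2.1
      simp at this
      rw [this]; rfl
    | cons q w =>
      have hT : SqSaw (q :: w) := by
        obtain ⟨h1, h2, h3⟩ := h
        refine ⟨(List.nodup_cons.mp h1).2, ?_, ?_⟩
        · rw [List.getLast?_cons_cons] at h2; exact h2
        · intro i hi
          have := h3 (i + 1) (by simp at hi ⊢; omega)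
          simpa using this
      obtain ⟨r, hr⟩ := ih hT
      have h0 := h.2.2 0 (by simp)
      simp only [List.getD_cons_zero, List.getD_cons_succ, zero_add] at h0
      obtain ⟨d, hd1, hd2⟩ := step_cases h0
      refine ⟨d :: r, ?_⟩
      have hq : q = (X r, Y r) := by
        have := pr_head r
        rw [← hr] at this
        simpa using this
      rw [pr_cons, ← hr, X_cons, Y_cons]
      congr 1
      rw [hq] at hd1 hd2
      ext
      · simp only at hd1 ⊢; linarith
      · simp only at hd2 ⊢; linarith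

theorem walkCount_eq_cw (n : ℕ) : walkCount n = cw n := by
  have h : {w : List (ℤ × ℤ) | SqSaw w ∧ w.length = n + 1}
      = pr '' {u : Wd | Saw u ∧ u.length = n} := by
    ext w
    constructor
    · rintro ⟨h1, h2⟩
      obtain ⟨r, rfl⟩ := exists_pr_walk w h1
      refine ⟨r, ⟨(sqSaw_pr r).mp h1, ?_⟩, rfl⟩
      rw [pr_length] at h2
      omega
    · rintro ⟨r, ⟨h1, h2⟩, rfl⟩
      exact ⟨(sqSaw_pr r).mpr h1, by rw [pr_length, h2]⟩
  unfold walkCount cw
  rw [← Set.ncard_image_of_injective _ pr_injective, ← h]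
  rfl

open Classical in
/-- self-avoiding words of length `n` as a finset -/
noncomputable def sawF (n : ℕ) : Finset Wd := (wordsF n).filter Saw

lemma mem_sawF {n : ℕ} {u : Wd} : u ∈ sawF n ↔ u.length = n ∧ Saw u := by
  classical
  unfold sawF
  simp only [Finset.mem_filter, mem_wordsF]

lemma card_sawF (n : ℕ) : (sawF n).card = cw n := by
  unfold cw
  have : {u : Wd | Saw u ∧ u.length = n} = ((sawF n : Finset Wd) : Set Wd) := by
    ext u
    rw [Finset.mem_coe, mem_sawF]
    exact and_comm
  rw [this, Set.ncard_coe_finset]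

/-- On the tree of self-avoiding walks there is no unit flow of finite energy when the product of
the conductances and of the sizes of the levels stays bounded. -/
theorem no_flow_of_le (a : ℕ → ℝ) (ha : ∀ n, 0 < a n) (δ : ℝ) (hδ : 0 < δ)
    (h : ∀ n, δ * (cw n : ℝ) ≤ a (n + 1)) :
    ¬ ∃ θ : List (ℤ × ℤ) → ℝ,
      (∀ w, ¬ SqSaw w → θ w = 0) ∧ θ [((0 : ℤ), (0 : ℤ))] = 1 ∧
      (∀ w, SqSaw w → θ w = (([((1 : ℤ), (0 : ℤ)), ((-1 : ℤ), (0 : ℤ)), ((0 : ℤ), (1 : ℤ)),
          ((0 : ℤ), (-1 : ℤ))] : List (ℤ × ℤ)).map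
          (fun d => θ ((w.headD ((0 : ℤ), (0 : ℤ)) + d) :: w))).sum) ∧
      Summable (fun w : List (ℤ × ℤ) => θ w ^ 2 * a w.length) := by
  classical
  rintro ⟨θ, h0, h1, h2, h3⟩
  set φ : Wd → ℝ := fun r => θ (pr r) with hφ
  have hφ0 : ∀ r, ¬ Saw r → φ r = 0 := fun r hr => h0 _ (fun hw => hr ((sqSaw_pr r).mp hw))
  have hφs : ∀ r, φ r = ∑ d : Fin 4, φ (d :: r) := by
    intro r
    by_cases hr : Saw r
    · show θ (pr r) = ∑ d : Fin 4, θ (pr (d :: r))
      rw [h2 _ ((sqSaw_pr r).mpr hr), sum_dirs (fun d => θ (((pr r).headD ((0 : ℤ), (0 : ℤ)) + d)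
        :: pr r))]
      apply Finset.sum_congr rfl
      intro d _
      rw [pr_step]
    · rw [hφ0 r hr]
      symm
      apply Finset.sum_eq_zero
      intro d _
      apply hφ0
      intro hs
      exact hr (hs.right (a := [d]) (b := r) rfl)
  have hlev : ∀ l : ℕ, ∑ v ∈ wordsF l, φ v = 1 := by
    intro l
    induction l with
    | zero =>
      have : wordsF 0 = {[]} := by
        ext u; rw [mem_wordsF, Finset.mem_singleton, List.length_eq_zero_iff]
      rw [this, Finset.sum_singleton]
      exact h1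
    | succ l ih =>
      have e1 : wordsF (l + 1) = ((wordsF l) ×ˢ (Finset.univ : Finset (Fin 4))).image
          (fun p => p.2 :: p.1) := by
        ext u
        rw [mem_wordsF, Finset.mem_image]
        constructor
        · intro h
          cases u with
          | nil => simp at h
          | cons d v =>
            refine ⟨(v, d), ?_, rfl⟩
            rw [Finset.mem_product]
            refine ⟨mem_wordsF.mpr ?_, Finset.mem_univ _⟩
            simpa using h
        · rintro ⟨⟨v, d⟩, hp, rfl⟩
          rw [Finset.mem_product, mem_wordsF] at hp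
          simp only at hp
          simp [hp.1]
      rw [e1, Finset.sum_image, Finset.sum_product]
      · rw [← ih]
        apply Finset.sum_congr rfl
        intro v _
        exact (hφs v).symm
      · rintro ⟨v, d⟩ _ ⟨v', d'⟩ _ h
        simp only [List.cons.injEq] at h
        exact Prod.ext h.2 h.1
  have hlev' : ∀ l : ℕ, ∑ v ∈ sawF l, φ v = 1 := by
    intro l
    rw [← hlev l]
    unfold sawF
    rw [Finset.sum_filter]
    apply Finset.sum_congr rfl
    intro v _
    split_ifs with hv
    · rfl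
    · exact (hφ0 v hv).symm
  -- energy of each level
  have hen : ∀ n : ℕ, δ ≤ ∑ v ∈ sawF n, φ v ^ 2 * a (n + 1) := by
    intro n
    have hcs := Finset.sum_mul_sq_le_sq_mul_sq (sawF n) (fun _ => (1 : ℝ)) φ
    simp only [one_mul, one_pow, Finset.sum_const, nsmul_eq_mul, mul_one] at hcs
    rw [hlev' n, card_sawF] at hcs
    rw [← Finset.sum_mul]
    have hc : (0 : ℝ) < cw n := by exact_mod_cast cw_pos n
    have hs : 0 ≤ ∑ v ∈ sawF n, φ v ^ 2 := Finset.sum_nonneg (fun v _ => sq_nonneg _)
    have hn := h n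
    calc δ ≤ δ * ((cw n : ℝ) * ∑ v ∈ sawF n, φ v ^ 2) := by nlinarith
      _ = (∑ v ∈ sawF n, φ v ^ 2) * (δ * (cw n : ℝ)) := by ring
      _ ≤ (∑ v ∈ sawF n, φ v ^ 2) * a (n + 1) := by gcongr
  -- the partial energies
  have htot : ∀ N : ℕ, (N : ℝ) * δ ≤ ∑' w : List (ℤ × ℤ), θ w ^ 2 * a w.length := by
    intro N
    have hdis : ∀ i ∈ Finset.range N, ∀ j ∈ Finset.range N, i ≠ j →
        Disjoint ((sawF i).image pr) ((sawF j).image pr) := by
      intro i _ j _ hij
      rw [Finset.disjoint_left]
      intro w hw hw'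
      rw [Finset.mem_image] at hw hw'
      obtain ⟨u, hu, rfl⟩ := hw
      obtain ⟨v, hv, he⟩ := hw'
      have := pr_injective he
      rw [mem_sawF] at hu hv
      apply hij
      rw [← hu.1, ← hv.1, this]
    have hsum : ∑ w ∈ (Finset.range N).biUnion (fun i => (sawF i).image pr),
        θ w ^ 2 * a w.length ≤ ∑' w : List (ℤ × ℤ), θ w ^ 2 * a w.length :=
      h3.sum_le_tsum _ (fun w _ => mul_nonneg (sq_nonneg _) (ha _).le)
    rw [Finset.sum_biUnion hdis] at hsum
    refine le_trans ?_ hsum
    calc (N : ℝ) * δ = ∑ _i ∈ Finset.range N, δ := by simp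
      _ ≤ _ := by
        apply Finset.sum_le_sum
        intro n _
        rw [Finset.sum_image (fun x _ y _ hxy => pr_injective hxy)]
        refine le_trans (hen n) (le_of_eq ?_)
        apply Finset.sum_congr rfl
        intro v hv
        rw [mem_sawF] at hv
        rw [pr_length, hv.1]
  obtain ⟨N, hN⟩ := exists_nat_gt ((∑' w : List (ℤ × ℤ), θ w ^ 2 * a w.length) / δ)
  rw [div_lt_iff₀ hδ] at hN
  exact absurd (htot N) (not_le_of_gt hN)

end Pool.Agent.BB
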